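import Pool.Agent.H16.KN.Defs2
import Pool.Agent.H16.FU.Defs1

/-!
# Project KL: the product with the class of `t`

`tp A n : KQ A n → KQ (A[t, t⁻¹]) (n + 1)` is the product with the class of the unit `t`: the class of `z ∈ H_{n+1}(GL_N(A))`
goes to the class of the product (`HG.cr`) of its image in the homology of `GL_N(A[t, t⁻¹])` with the scalar matrix `t`.

PROOFS.  `tp`: `KQ.lift`; the block relation is `cls_cr_blk` of `FU/Asm1.lean` (private there, copy it): for
`w ∈ H(GL_N × GL_M)` `HG.cr` for `blk (mapGL pr₁ , mapGL pr₂)` and the element `blk (t, t)` (`HG.map_cr`, `KQ.cls_blk`,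
`HG.cr_comp`).  `map_tp`: `HG.map_cr`.  `tp_pos`, `tp_neg` are not needed.
`mono1`: the class of the image of `H_{n+1}(G)` under `G → GL_1(R[G])`.
-/

set_option autoImplicit false

open Matrix
open scoped LaurentPolynomial

universe u v w

namespace Pool.Agent.H39.KL

open Pool.Agent.H71.FQ Pool.Agent.H16.KN Pool.Agent.H16.FU
open Pool.Agent.H95.KM (lau lau_single)

section

variable (A : Type u) [Ring A]

/-- the scalar matrix `t` -/
noncomputable def tS (N : ℕ) : GLm N A[T;T⁻¹] :=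
  ⟨scalar (Fin N) (LaurentPolynomial.T 1), scalar (Fin N) (LaurentPolynomial.T (-1)),
    by rw [← map_mul, ← LaurentPolynomial.T_add, add_neg_cancel, LaurentPolynomial.T_zero, map_one],
    by rw [← map_mul, ← LaurentPolynomial.T_add, neg_add_cancel, LaurentPolynomial.T_zero, map_one]⟩

/-- the inclusion of the constants -/
noncomputable def cS (N : ℕ) : GLm N A →* GLm N A[T;T⁻¹] :=
  mapGL (LaurentPolynomial.C : A →+* A[T;T⁻¹]) N

theorem tS_comm (N : ℕ) (x : GLm N A) : cS A N x * tS A N = tS A N * cS A N x := by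
  apply Units.ext
  change x.val.map (LaurentPolynomial.C : A →+* A[T;T⁻¹]) *
      (diagonal fun _ : Fin N => (LaurentPolynomial.T 1 : A[T;T⁻¹])) =
    (diagonal fun _ : Fin N => (LaurentPolynomial.T 1 : A[T;T⁻¹])) *
      x.val.map (LaurentPolynomial.C : A →+* A[T;T⁻¹])
  refine Matrix.ext fun i j => ?_
  rw [Matrix.mul_diagonal, Matrix.diagonal_mul, Matrix.map_apply, LaurentPolynomial.T_mul]

private theorem cr_congr {Γ : Type w} [Group Γ] {n : ℕ} {Λ : Type*} [Group Λ] {f f' : Γ →* Λ}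
    {u u' : Λ} (e : f = f') (e' : u = u') (hu : ∀ γ, f γ * u = u * f γ)
    (hu' : ∀ γ, f' γ * u' = u' * f' γ) (z : HG Γ n) : HG.cr f u hu z = HG.cr f' u' hu' z := by
  subst e
  subst e'
  rfl

private theorem cls_cr_blk {B : Type u} [Ring B] {Γ : Type w} [Group Γ] {n : ℕ} {N M : ℕ}
    (f : Γ →* GLm N B) (g : Γ →* GLm M B) (u : GLm N B)
    (v : GLm M B) (hu : ∀ γ, f γ * u = u * f γ) (hv : ∀ γ, g γ * v = v * g γ)
    (F : Γ →* GLm (N + M) B) (w : GLm (N + M) B) (hFw : ∀ γ, F γ * w = w * F γ)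
    (hF : (blk N M B).comp (f.prod g) = F) (hw : blk N M B (u, v) = w) (z : HG Γ n) :
    KQ.cls B (n + 1) (N + M) (HG.cr F w hFw z) =
      KQ.cls B (n + 1) N (HG.cr f u hu z) + KQ.cls B (n + 1) M (HG.cr g v hv z) := by
  have h0 : ∀ γ, (f.prod g) γ * (u, v) = (u, v) * (f.prod g) γ := fun γ =>
    Prod.ext (hu γ) (hv γ)
  subst hF
  subst hw
  rw [← HG.map_cr (f.prod g) (blk N M B) (u, v) h0 hFw z, KQ.cls_blk]
  congr 1
  · exact congrArg _ (HG.map_cr (f.prod g) (MonoidHom.fst (GLm N B) (GLm M B)) (u, v) h0 hu z)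
  · exact congrArg _ (HG.map_cr (f.prod g) (MonoidHom.snd (GLm N B) (GLm M B)) (u, v) h0 hv z)

private theorem blk_tS (N M : ℕ) : blk N M A[T;T⁻¹] (tS A N, tS A M) = tS A (N + M) := by
  refine Units.ext ?_
  change (fromBlocks (diagonal fun _ : Fin N => (LaurentPolynomial.T 1 : A[T;T⁻¹])) 0 0
    (diagonal fun _ : Fin M => (LaurentPolynomial.T 1 : A[T;T⁻¹]))).submatrix
      finSumFinEquiv.symm finSumFinEquiv.symm =
      diagonal fun _ : Fin (N + M) => (LaurentPolynomial.T 1 : A[T;T⁻¹])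
  rw [fromBlocks_diagonal, submatrix_diagonal_equiv]
  congr 1
  funext i
  change Sum.elim (fun _ : Fin N => (LaurentPolynomial.T 1 : A[T;T⁻¹]))
    (fun _ : Fin M => (LaurentPolynomial.T 1 : A[T;T⁻¹])) (finSumFinEquiv.symm i) = _
  rcases finSumFinEquiv.symm i with j | j <;> rfl

private theorem tp_aux (n N M : ℕ) (w : HG (GLm N A × GLm M A) n) :
    KQ.cls A[T;T⁻¹] (n + 1) (N + M) (HG.cr (cS A (N + M)) (tS A (N + M)) (tS_comm A (N + M))
        (HG.map n (blk N M A) w)) =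
      KQ.cls A[T;T⁻¹] (n + 1) N (HG.cr (cS A N) (tS A N) (tS_comm A N)
          (HG.map n (MonoidHom.fst (GLm N A) (GLm M A)) w)) +
        KQ.cls A[T;T⁻¹] (n + 1) M (HG.cr (cS A M) (tS A M) (tS_comm A M)
          (HG.map n (MonoidHom.snd (GLm N A) (GLm M A)) w)) := by
  rw [← HG.cr_comp (cS A (N + M)) (blk N M A) (tS A (N + M)) (tS_comm A (N + M))
      (fun γ => tS_comm A (N + M) _) w,
    ← HG.cr_comp (cS A N) (MonoidHom.fst (GLm N A) (GLm M A)) (tS A N) (tS_comm A N)
      (fun γ => tS_comm A N _) w,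
    ← HG.cr_comp (cS A M) (MonoidHom.snd (GLm N A) (GLm M A)) (tS A M) (tS_comm A M)
      (fun γ => tS_comm A M _) w]
  exact cls_cr_blk _ _ _ _ _ _ _ _ _
    (mapGL_comp_blk (LaurentPolynomial.C : A →+* A[T;T⁻¹]) N M).symm (blk_tS A N M) w

/-- **The product with the class of `t`.** -/
noncomputable def tp (n : ℕ) : KQ A n →+ KQ A[T;T⁻¹] (n + 1) :=
  KQ.lift (fun N => (KQ.cls A[T;T⁻¹] (n + 1) N).comp (HG.cr (cS A N) (tS A N) (tS_comm A N)))
    (tp_aux A n)

variable {A}

theorem tp_cls (n N : ℕ) (z : HG (GLm N A) n) : tp A n (KQ.cls A n N z) =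
    KQ.cls A[T;T⁻¹] (n + 1) N (HG.cr (cS A N) (tS A N) (tS_comm A N) z) :=
  KQ.lift_cls _ _ N z

theorem map_tp {A' : Type v} [Ring A'] (f : A →+* A') (n : ℕ) (x : KQ A n) :
    KQ.map (lau f) (tp A n x) = tp A' n (KQ.map f x) := by
  suffices h : (KQ.map (lau f)).comp (tp A n) = (tp A' n).comp (KQ.map f) from
    DFunLike.congr_fun h x
  apply KQ.hom_ext
  intro N z
  have e1 : (mapGL (lau f) N).comp (cS A N) = (cS A' N).comp (mapGL f N) := by
    refine MonoidHom.ext fun γ => Units.ext (Matrix.ext fun i j => ?_)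
    exact lau_single f 0 (γ.val i j)
  have e2 : mapGL (lau f) N (tS A N) = tS A' N := by
    refine Units.ext ?_
    change (diagonal fun _ : Fin N => (LaurentPolynomial.T 1 : A[T;T⁻¹])).map (lau f) =
      diagonal fun _ : Fin N => (LaurentPolynomial.T 1 : A'[T;T⁻¹])
    rw [Matrix.diagonal_map (map_zero (lau f))]
    congr 1
    funext i
    exact (lau_single f 1 (1 : A)).trans (congrArg _ (map_one f))
  have hc : ∀ γ, ((mapGL (lau f) N).comp (cS A N)) γ * mapGL (lau f) N (tS A N) =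
      mapGL (lau f) N (tS A N) * ((mapGL (lau f) N).comp (cS A N)) γ := by
    intro γ
    rw [MonoidHom.comp_apply, ← map_mul, ← map_mul, tS_comm]
  rw [AddMonoidHom.comp_apply, AddMonoidHom.comp_apply, tp_cls, KQ.map_cls, KQ.map_cls, tp_cls,
    HG.map_cr (cS A N) (mapGL (lau f) N) (tS A N) (tS_comm A N) hc z,
    ← HG.cr_comp (cS A' N) (mapGL f N) (tS A' N) (tS_comm A' N) (fun γ => tS_comm A' N _) z]
  exact congrArg _ (cr_congr e1 e2 _ _ z)

end

section

/-- the class of the image of `H_{n+1}(G)` in the homology of `GL_1(R[G])` -/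
noncomputable def mono1 (R : Type u) [Ring R] (G : Type v) [Group G] (n : ℕ) :
    HG G n →+ KQ (MonoidAlgebra R G) n :=
  (KQ.cls (MonoidAlgebra R G) n 1).comp (HG.map n (scal 1 (grpHom R G)))

theorem map_mono1 {R : Type u} [Ring R] {R' : Type w} [Ring R'] (f : R →+* R') (G : Type v)
    [Group G] (n : ℕ) (y : HG G n) :
    KQ.map (MonoidAlgebra.mapRingHom G f) (mono1 R G n y) = mono1 R' G n y := by
  have e : (mapGL (MonoidAlgebra.mapRingHom G f) 1).comp (scal 1 (grpHom R G)) =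
      scal 1 (grpHom R' G) := by
    refine MonoidHom.ext fun γ => Units.ext ?_
    change (diagonal fun _ : Fin 1 => (MonoidAlgebra.single γ 1 : MonoidAlgebra R G)).map
        (MonoidAlgebra.mapRingHom G f) =
      diagonal fun _ : Fin 1 => (MonoidAlgebra.single γ 1 : MonoidAlgebra R' G)
    rw [Matrix.diagonal_map (map_zero (MonoidAlgebra.mapRingHom G f))]
    congr 1
    funext i
    change MonoidAlgebra.mapRingHom G f (MonoidAlgebra.single γ 1) = MonoidAlgebra.single γ 1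
    rw [MonoidAlgebra.mapRingHom_single, map_one]
  rw [mono1, mono1, AddMonoidHom.comp_apply, AddMonoidHom.comp_apply, KQ.map_cls, HG.map_map, e]

/-- **The assembly map** on the parts `H_{k+2}(G; ℤ)`, `K₁` and `K₋₁` of the rational source in degree `k + 2`. -/
noncomputable def asmAll (G : Type v) [Group G] (k : ℕ) :
    HG G (k + 1) × HnK1 ℤ G k × HnKm1 ℤ G (k + 2) →+ LKQ (MonoidAlgebra ℤ G) (k + 2) :=
  ((LKQ.mk.comp (tp (MonoidAlgebra ℤ G) (k + 1))).comp (mono1 ℤ G (k + 1))).coprod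
    (((LKQ.mk.comp (tp (MonoidAlgebra ℤ G) (k + 1))).comp (assembly1 ℤ k G)).coprod
      (asmKm1 ℤ (k + 2) G))

end

end Pool.Agent.H39.KL
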