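import Pool.Agent.H39.KL.Coch1

/-!
# Project KL: the functional on `(1, U)`: additivity and the value for matrices over nilpotent extensions

`lamQ p m d τ U` is the value of the functional of the group `C` (cochain `phiG 1 τ`) on the tuple `(1, U)`, `U` an
invertible matrix over `B[C]`.

PROOFS.  `lamQ_dvd`: `TR_dvd_exp`.
`lamQ_mul`: `bd_dvdG` (`k = 0`, `ψ = 1`) for `w = QC.t N ![1, U, U * V]`: `qbd w = t ![U, U V] - t ![1, U V] + t ![1, U]` and
`t ![U, U V] = t ![1, V]` (`QC.t_inv`).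
`lamQ_map`: `TR_t`, `TT_map` (`tl` of the natural numbers is compatible with ring homomorphisms).
-/

set_option autoImplicit false

open Matrix

universe u v w

namespace Pool.Agent.H39.KL

open Pool.Agent.H71.FQ Pool.Agent.H16.KN

/-- the value of the functional on `(1, U)` -/
noncomputable def lamQ {B : Type v} [CommRing B] (p m : ℕ) [Fact p.Prime] {C : Type w} [Group C]
    (d : C) (τ : (Fin (p ^ m) → C) → ZMod (p ^ m)) {N : ℕ} (U : GLm N (MonoidAlgebra B C)) : B :=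
  TR (p ^ m) d (phiG (k := 0) (fun _ => (1 : B)) τ) (QC.t N ![1, U])

section

variable {C : Type u} [Group C] {B : Type v} [CommRing B] {p m r : ℕ} [Fact p.Prime]

private theorem one_CIq (q : ℕ) (d : C) :
    CIq d q (fun _ : Fin (0 + 1) → Fin q → C => (1 : B)) := fun _ _ _ => rfl

private theorem one_RIq (q : ℕ) (d : C) :
    RIq d q (fun _ : Fin (0 + 1) → Fin q → C => (1 : B)) := fun _ => rfl

private theorem phi_RIq {d : C} {τ : (Fin (p ^ m) → C) → ZMod (p ^ m)}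
    (hτ : IsTau p m r d τ) :
    RIq d (p ^ m) (phiG (k := 0) (fun _ => (1 : B)) τ) := by
  intro v
  show (1 : B) * ((τ (sig (p ^ m) d (v (Fin.last (0 + 1)))) -
      τ (sig (p ^ m) d (v (Fin.last 0).castSucc))).val : B) =
    (1 : B) * ((τ (v (Fin.last (0 + 1))) - τ (v (Fin.last 0).castSucc)).val : B)
  rw [hτ.rot, hτ.rot, add_sub_add_right_eq_sub]

theorem lamQ_dvd (hrm : r ≤ m) (hG : ∀ g : C, (∃ j : ℕ, g ^ p ^ j = 1) → g ^ p ^ r = 1) {d : C}
    (hd : IsOfFinOrder d) (hpd : p ∣ orderOf d) {τ : (Fin (p ^ m) → C) → ZMod (p ^ m)}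
    (hτ : IsTau p m r d τ) {N : ℕ} (U : GLm N (MonoidAlgebra B C)) :
    (p : B) ^ (m - r + 1) ∣ lamQ p m d τ U :=
  TR_dvd_exp m r hrm hG hd hpd (CIq_phiG (one_CIq _ d) hτ) (phi_RIq hτ) _

theorem lamQ_mul (hrm : r ≤ m) (hG : ∀ g : C, (∃ j : ℕ, g ^ p ^ j = 1) → g ^ p ^ r = 1) {d : C}
    (hd : IsOfFinOrder d) (hpd : p ∣ orderOf d) {τ : (Fin (p ^ m) → C) → ZMod (p ^ m)}
    (hτ : IsTau p m r d τ) {N : ℕ} (U V : GLm N (MonoidAlgebra B C)) :
    (p : B) ^ (m + (m - r + 1)) ∣ lamQ p m d τ (U * V) - (lamQ p m d τ U + lamQ p m d τ V) := by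
  have h3 : ∀ v : Fin (0 + 2) → Fin (p ^ m) → C,
      dl (fun _ : Fin (0 + 1) → Fin (p ^ m) → C => (1 : B)) v = 0 := by
    intro v
    unfold dl
    rw [Fin.sum_univ_two]
    simp
  have h := bd_dvdG (k := 0) m r hrm hG hd hpd (one_CIq (B := B) _ d) (one_RIq _ d) h3 hτ
    (QC.t N ![1, U, U * V])
  have e : TR (p ^ m) d (phiG (k := 0) (fun _ => (1 : B)) τ) (qbd (QC.t N ![1, U, U * V])) =
      lamQ p m d τ V - lamQ p m d τ (U * V) + lamQ p m d τ U := by
    have e0 : (fun j => (![1, U, U * V] : Fin (0 + 1 + 2) → GLm N (MonoidAlgebra B C))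
        ((0 : Fin (0 + 1 + 2)).succAbove j)) = fun j => U * (![1, V] : Fin (0 + 1 + 1) → _) j := by
      funext j
      fin_cases j
      · show U = U * 1
        rw [mul_one]
      · rfl
    have e1 : (fun j => (![1, U, U * V] : Fin (0 + 1 + 2) → GLm N (MonoidAlgebra B C))
        ((1 : Fin (0 + 1 + 2)).succAbove j)) = (![1, U * V] : Fin (0 + 1 + 1) → _) := by
      funext j
      fin_cases j <;> rfl
    have e2 : (fun j => (![1, U, U * V] : Fin (0 + 1 + 2) → GLm N (MonoidAlgebra B C))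
        ((2 : Fin (0 + 1 + 2)).succAbove j)) = (![1, U] : Fin (0 + 1 + 1) → _) := by
      funext j
      fin_cases j <;> rfl
    rw [qbd_t, Fin.sum_univ_three, e0, e1, e2, QC.t_inv, map_add, map_add, map_zsmul, map_zsmul,
      map_zsmul]
    unfold lamQ
    simp
    ring
  rw [e] at h
  have h' := (dvd_neg (α := B)).2 h
  have e' : -(lamQ p m d τ V - lamQ p m d τ (U * V) + lamQ p m d τ U) =
      lamQ p m d τ (U * V) - (lamQ p m d τ U + lamQ p m d τ V) := by ring
  rwa [e'] at h'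

theorem lamQ_pow (hrm : r ≤ m) (hG : ∀ g : C, (∃ j : ℕ, g ^ p ^ j = 1) → g ^ p ^ r = 1) {d : C}
    (hd : IsOfFinOrder d) (hpd : p ∣ orderOf d) {τ : (Fin (p ^ m) → C) → ZMod (p ^ m)}
    (hτ : IsTau p m r d τ) {N : ℕ} (U : GLm N (MonoidAlgebra B C)) (l : ℕ) :
    (p : B) ^ (m + (m - r + 1)) ∣ lamQ p m d τ (U ^ l) - l * lamQ p m d τ U := by
  induction l with
  | zero =>
    have h := (dvd_neg (α := B)).2 (lamQ_mul (B := B) hrm hG hd hpd hτ (N := N) 1 1)
    have e : -(lamQ p m d τ ((1 : GLm N (MonoidAlgebra B C)) * 1) -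
        (lamQ p m d τ (1 : GLm N (MonoidAlgebra B C)) +
          lamQ p m d τ (1 : GLm N (MonoidAlgebra B C)))) =
        lamQ p m d τ (U ^ 0) - ((0 : ℕ) : B) * lamQ p m d τ U := by
      rw [mul_one, pow_zero, Nat.cast_zero]
      ring
    rwa [e] at h
  | succ l ih =>
    have h := dvd_add (lamQ_mul hrm hG hd hpd hτ (U ^ l) U) ih
    have e : lamQ p m d τ (U ^ l * U) - (lamQ p m d τ (U ^ l) + lamQ p m d τ U) +
        (lamQ p m d τ (U ^ l) - l * lamQ p m d τ U) =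
        lamQ p m d τ (U ^ (l + 1)) - ((l + 1 : ℕ) : B) * lamQ p m d τ U := by
      rw [pow_succ, Nat.cast_succ]
      ring
    rwa [e] at h

theorem lamQ_map {B' : Type w} [CommRing B'] (f : B →+* B') {d : C}
    {τ : (Fin (p ^ m) → C) → ZMod (p ^ m)} (hτ : IsTau p m r d τ) {N : ℕ}
    (U : GLm N (MonoidAlgebra B C)) :
    lamQ p m d τ (mapGL (MonoidAlgebra.mapRingHom C f) N U) = f (lamQ p m d τ U) := by
  unfold lamQ
  rw [TR_t, TR_t]
  have hCI : CI d (flat (p ^ m) (phiG (k := 0) (fun _ => (1 : B)) τ)) :=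
    fun g hg _ => CIq_phiG (one_CIq (B := B) _ d) hτ g hg _
  rw [← TT_map f hCI]
  congr 1
  · funext y
    show (1 : B') * (((τ _ - τ _).val : ℕ) : B') = f ((1 : B) * (((τ _ - τ _).val : ℕ) : B))
    rw [map_mul, map_one, map_natCast]
  · funext j
    show (![1, mapGL (MonoidAlgebra.mapRingHom C f) N U] : Fin (0 + 1 + 1) → _)
      (finProdFinEquiv.symm j).2 = mapGL (MonoidAlgebra.mapRingHom C f) N
        ((![1, U] : Fin (0 + 1 + 1) → _) (finProdFinEquiv.symm j).2)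
    generalize (finProdFinEquiv.symm j).2 = i
    fin_cases i
    · exact (map_one _).symm
    · rfl

end

end Pool.Agent.H39.KL
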