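import Pool.Agent.H39.KL.ValA
import Pool.Agent.H39.KL.LamA

/-!
# Project KL: the value of the functional on the products `U × z`

PROOF of `lc_psC`.  By `hrel` `ψ v = μ ^ (n + 2) * φ (π (v_j 0)) + μ * dl β v`.  For `v j b = u * δ b * y j`, `u = uc c d`, the function
`y ↦ dl β v` is the coboundary of the function `y ↦ β (fun j b => u * δ b * y j)` of `n + 1` variables, which is invariant
(`u * δ b * (g * y) = (u * g * u⁻¹) * (u * δ b * y)` for `g ∈ Z_G(D)`, and `u * g * u⁻¹` commutes with `c`), so its sum over the cycle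
`z` vanishes (`HG.ev_cob`).  With `hπ`: `π (u * δ 0 * y_j) = ζ_j * g`, `ζ_j = u * y_j * u⁻¹` in the centralizer of `c`,
`g = π (u * δ 0)`; `φ (ζ_j g) = φ (g⁻¹ ζ_j g)` by invariance, and the sum over `z` is `HG.ev hφ` of the image of `z` under
`y ↦ g⁻¹ (u y u⁻¹) g`, which is the image under `y ↦ u y u⁻¹` by `HG.map_conj`; this is `trc n c D d (HG.mk z)` (`trc_eq` with
`x = u⁻¹`).  (`HG.ev_map`, `IsCoc.comp`, `HG.ev_mk`, `lc_push`.)
PROOF of `val_unit`: `val_chain`, `lc_psC`, `TR_smul`; for `d` not conjugate to `c` `trc_of_not`.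
-/

set_option autoImplicit false

open Matrix

universe u v w

namespace Pool.Agent.H39.KL

open Pool.Agent.H71.FQ Pool.Agent.H16.KN Pool.Agent.H16.FU

section

variable {G : Type u} [Group G] {B : Type v} [CommRing B] {n : ℕ}

theorem lc_psC {p m : ℕ} [Fact p.Prime] (D : Subgroup G) {c : G}
    {π : G → Subgroup.centralizer ({c} : Set G)}
    (hπ : ∀ (z : Subgroup.centralizer ({c} : Set G)) (g : G), π (z * g) = z * π g)
    {φ : (Fin (n + 2) → Subgroup.centralizer ({c} : Set G)) → B}
    (hφ : IsCoc (Subgroup.centralizer ({c} : Set G)) n φ) {μ : ℕ}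
    {ψ : (Fin (n + 2) → Fin (p ^ m) → G) → B} {β : (Fin (n + 1) → Fin (p ^ m) → G) → B}
    (h2 : CIq c (p ^ m) β)
    (hrel : ∀ (h0 : 0 < p ^ m) v,
      (μ : B) ^ (n + 2) * φ (fun j => π (v j ⟨0, h0⟩)) = ψ v - (μ : B) * dl β v)
    (d : D) (hd : IsConj c (d : G)) (δ : Fin (p ^ m) → D)
    (z : cyc (Subgroup.centralizer (D : Set G)) n) :
    Finsupp.linearCombination ℤ (psC ψ c d δ)
        (z : Cx ℤ (Subgroup.centralizer (D : Set G)) (n + 1)) =
      (μ : B) ^ (n + 2) * HG.ev hφ (trc n c D d (HG.mk z)) := by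
  have h0 : 0 < p ^ m := pow_pos (Fact.out : p.Prime).pos m
  have hu := uc_spec c d hd
  have hcomm : ∀ (g : Subgroup.centralizer (D : Set G)) (x : D), (x : G) * g = g * x :=
    fun g x => Subgroup.mem_centralizer_iff.1 g.2 _ x.2
  -- the conjugates of the elements of the centralizer of `D`
  have hcj : ∀ g : Subgroup.centralizer (D : Set G),
      (uc c d * g * (uc c d)⁻¹) * c = c * (uc c d * g * (uc c d)⁻¹) := by
    intro g
    have h := hcomm g d
    calc (uc c d * g * (uc c d)⁻¹) * c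
        = (uc c d * g * (uc c d)⁻¹) * (uc c d * d * (uc c d)⁻¹) := by rw [hu]
      _ = uc c d * (g * d) * (uc c d)⁻¹ := by group
      _ = uc c d * (d * g) * (uc c d)⁻¹ := by rw [h]
      _ = (uc c d * d * (uc c d)⁻¹) * (uc c d * g * (uc c d)⁻¹) := by group
      _ = _ := by rw [hu]
  have hmem : ∀ g : Subgroup.centralizer (D : Set G),
      uc c d * g * (uc c d)⁻¹ ∈ Subgroup.centralizer ({c} : Set G) := by
    intro g
    rw [Subgroup.mem_centralizer_iff]
    intro a ha
    rw [Set.mem_singleton_iff] at ha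
    subst ha
    exact (hcj g).symm
  have hshift : ∀ (g : Subgroup.centralizer (D : Set G)) (x : D) (y : G),
      uc c d * x * (g * y) = (uc c d * g * (uc c d)⁻¹) * (uc c d * x * y) := by
    intro g x y
    calc uc c d * x * (g * y) = uc c d * (x * g) * y := by group
      _ = uc c d * (g * x) * y := by rw [hcomm g x]
      _ = _ := by group
  -- the coboundary part
  have hcob : Finsupp.linearCombination ℤ
      (fun y : Fin (n + 2) → Subgroup.centralizer (D : Set G) =>
        dl β fun j b => uc c d * δ b * y j) (z : Cx ℤ (Subgroup.centralizer (D : Set G)) (n + 1)) =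
      0 := by
    have h := lc_bd (fun y : Fin (n + 1) → Subgroup.centralizer (D : Set G) =>
      β fun j b => uc c d * δ b * y j) (z : Cx ℤ (Subgroup.centralizer (D : Set G)) (n + 1))
    rw [inv_coi (fun g y => ?_) z.2] at h
    · exact h.symm
    · have e := h2 _ (hcj g) fun j b => uc c d * δ b * (y j : G)
      rw [← e]
      congr 1
      funext j b
      exact hshift g (δ b) (y j)
  -- the homomorphism
  have hm : (uc c d)⁻¹ * c * ((uc c d)⁻¹)⁻¹ = (d : G) := by
    conv_lhs => rw [← hu]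
    rw [hu]
    nth_rewrite 2 [← hu]
    group
  have hm' : (uc c d)⁻¹ * c * ((uc c d)⁻¹)⁻¹ ∈ D := by
    rw [hm]
    exact d.2
  let g0 : Subgroup.centralizer ({c} : Set G) := π (uc c d * δ ⟨0, h0⟩)
  let f : Subgroup.centralizer (D : Set G) →* Subgroup.centralizer ({c} : Set G) :=
    (MulAut.conj g0⁻¹).toMonoidHom.comp (cnj c (uc c d)⁻¹ D hm')
  have hval : ∀ y : Fin (n + 2) → Subgroup.centralizer (D : Set G),
      φ (fun j => π (uc c d * δ ⟨0, h0⟩ * y j)) = φ fun j => f (y j) := by
    intro y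
    have e := hφ.inv g0 fun j => f (y j)
    rw [← e]
    congr 1
    funext j
    have e1 : uc c d * δ ⟨0, h0⟩ * (y j : G) =
        (⟨uc c d * (y j : G) * (uc c d)⁻¹, hmem (y j)⟩ : Subgroup.centralizer ({c} : Set G)) *
          (uc c d * δ ⟨0, h0⟩) := by
      have e2 := hshift (y j) (δ ⟨0, h0⟩) 1
      rw [mul_one, mul_one] at e2
      exact e2
    have e3 : (cnj c (uc c d)⁻¹ D hm') (y j) =
        (⟨uc c d * (y j : G) * (uc c d)⁻¹, hmem (y j)⟩ : Subgroup.centralizer ({c} : Set G)) := by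
      apply Subtype.ext
      rw [cnj_coe, inv_inv]
    rw [e1, hπ, ← e3]
    show (cnj c (uc c d)⁻¹ D hm') (y j) * g0 =
      g0 * (g0⁻¹ * (cnj c (uc c d)⁻¹ D hm') (y j) * (g0⁻¹)⁻¹)
    generalize (cnj c (uc c d)⁻¹ D hm') (y j) = x
    group
  have hsum : ∀ y : Fin (n + 2) → Subgroup.centralizer (D : Set G), psC ψ c d δ y =
      (μ : B) ^ (n + 2) * φ (fun j => f (y j)) +
        (μ : B) * dl β fun j b => uc c d * δ b * y j := by
    intro y
    have e := hrel h0 fun j b => uc c d * δ b * y j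
    rw [← hval y, e]
    unfold psC
    ring
  have hlin : ∀ (a b : B) (F H : (Fin (n + 2) → Subgroup.centralizer (D : Set G)) → B)
      (x : Cx ℤ (Subgroup.centralizer (D : Set G)) (n + 1)),
      Finsupp.linearCombination ℤ (fun y => a * F y + b * H y) x =
        a * Finsupp.linearCombination ℤ F x + b * Finsupp.linearCombination ℤ H x := by
    intro a b F H x
    have e : Finsupp.linearCombination ℤ (fun y => a * F y + b * H y) =
        (AddMonoidHom.mulLeft a).toIntLinearMap.comp (Finsupp.linearCombination ℤ F) +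
          (AddMonoidHom.mulLeft b).toIntLinearMap.comp (Finsupp.linearCombination ℤ H) := by
      refine Finsupp.lhom_ext' fun y => LinearMap.ext_ring ?_
      simp only [LinearMap.comp_apply, Finsupp.lsingle_apply, LinearMap.add_apply]
      rw [Finsupp.linearCombination_single, Finsupp.linearCombination_single,
        Finsupp.linearCombination_single, one_smul, one_smul, one_smul]
      rfl
    exact LinearMap.congr_fun e x
  rw [show psC ψ c d δ = fun y => (μ : B) ^ (n + 2) * φ (fun j => f (y j)) +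
        (μ : B) * dl β fun j b => uc c d * δ b * y j from funext hsum, hlin, hcob, mul_zero,
    add_zero]
  congr 1
  rw [trc_eq (uc c d)⁻¹ hm hm', ← HG.map_conj (cnj c (uc c d)⁻¹ D hm') f g0⁻¹ (fun a => rfl),
    HG.ev_map, HG.ev_mk]

/-- **The value on `U × z`.** -/
theorem val_unit {p m r : ℕ} [Fact p.Prime] (D : Subgroup G) [Fintype D]
    (hD : ∀ a b : D, a * b = b * a) {c : G} {π : G → Subgroup.centralizer ({c} : Set G)}
    (hπ : ∀ (z : Subgroup.centralizer ({c} : Set G)) (g : G), π (z * g) = z * π g)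
    {φ : (Fin (n + 2) → Subgroup.centralizer ({c} : Set G)) → B}
    (hφ : IsCoc (Subgroup.centralizer ({c} : Set G)) n φ) {μ : ℕ}
    {ψ : (Fin (n + 2) → Fin (p ^ m) → G) → B} {β : (Fin (n + 1) → Fin (p ^ m) → G) → B}
    (h1 : CIq c (p ^ m) ψ) (h2 : CIq c (p ^ m) β)
    (hrel : ∀ (h0 : 0 < p ^ m) v,
      (μ : B) ^ (n + 2) * φ (fun j => π (v j ⟨0, h0⟩)) = ψ v - (μ : B) * dl β v)
    {τ : (Fin (p ^ m) → G) → ZMod (p ^ m)} (hτ : IsTau p m r c τ) (N : ℕ)
    (U : GLm N (MonoidAlgebra B D)) (z : cyc (Subgroup.centralizer (D : Set G)) n) :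
    TR (p ^ m) c (phiG ψ τ)
        (ch N (prUz B D U (z : Cx ℤ (Subgroup.centralizer (D : Set G)) (n + 1)))) =
      (-1) ^ (n + 1) * ((μ : B) ^ (n + 2) *
        ∑ d : D, HG.ev hφ (trc n c D d (HG.mk z)) * lamQ p m d (tauC τ c d) U) := by
  classical
  rw [val_chain D hD h1 hτ N U]
  congr 1
  rw [Finset.mul_sum]
  refine Finset.sum_congr rfl fun d _ => ?_
  by_cases hd : IsConj c (d : G)
  · rw [if_pos hd]
    have e : (fun v : Fin 2 → Fin (p ^ m) → D =>
        (Finsupp.linearCombination ℤ (psC ψ c d (v 0))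
          (z : Cx ℤ (Subgroup.centralizer (D : Set G)) (n + 1)) : B) *
            tl B (tauC τ c d) (v 0) (v 1)) =
        fun v : Fin 2 → Fin (p ^ m) → D =>
          ((μ : B) ^ (n + 2) * HG.ev hφ (trc n c D d (HG.mk z))) *
            phiG (k := 0) (fun _ => (1 : B)) (tauC τ c d) v := by
      funext v
      rw [lc_psC D hπ hφ h2 hrel d hd (v 0) z]
      congr 1
      show _ = (1 : B) * tl B (tauC τ c d) (v 0) (v 1)
      rw [one_mul]
    rw [e, TR_smul, mul_assoc]
    rfl
  · rw [if_neg hd, trc_of_not hd, AddMonoidHom.zero_apply, map_zero, zero_mul, mul_zero]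

end

end Pool.Agent.H39.KL
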