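import Pool.Agent.H39.KL.Tau
import Pool.Agent.H16.KN.Rot
import Pool.Agent.H16.KN.Deg
import Pool.Agent.H16.KN.Coch

/-!
# Project KL: the cochains of the rotation

`tl τ a b` is the representative in `{0, …, M - 1}` of `τ b - τ a`, `τ` with values in `ZMod M`; `M * ep τ a b c` is its
coboundary.

PROOFS.  `tl_add`: `ZMod.val_add`, `Nat.div_add_mod`.  `dl_pL_tl`: split off the last two indices of the sum
(`Fin.sum_univ_castSucc`), as for `dl_pL` of `KN/Coch.lean`, and `tl_add`.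
`TR_dvd_exp`: `QC.induction`; for a tuple `TR_dvd` (`KN/Rot.lean`) with `a = m - r`, `S` from `exists_supp`; `hroot`: if
`u h ^ (p ^ r) u⁻¹ = c` then `h` has finite order divisible by `p ^ (r + 1)` (`p ∣ orderOf c = orderOf (h ^ p ^ r)`), so `G`
contains an element of order `p ^ (r + 1)`, which contradicts `hG`.
`bd_dvd`: `TR_bd`, `dl_pL` (`KN/Coch.lean`), `dl_pL_tl`, `hψ`: `dl (pL (pL ψ (tl τ)) (lmin ..)) = ± p ^ m • pL (pLL ψ (ep τ)) lmin`,
and `TR_dvd_exp` for the last cochain, for the element `(c, 1)` of `G × Multiplicative ℤ` (`orderOf (c, 1) = orderOf c`; an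
element of `G × Multiplicative ℤ` of `p`-power order has second component `1`).  The invariance of `lmin` under `sig`:
the degrees of `sig q (c, 1) v` are a cyclic permutation of those of `v`.
-/

set_option autoImplicit false

open Matrix

universe u v w

namespace Pool.Agent.H39.KL

open Pool.Agent.H71.FQ Pool.Agent.H16.KN

section

variable {X : Type u} {B : Type v} [CommRing B] {k M : ℕ}

/-- the representative of `τ b - τ a` -/
def tl (B : Type v) [CommRing B] (τ : X → ZMod M) (a b : X) : B := ((τ b - τ a).val : B)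

/-- the carry -/
def ep (B : Type v) [CommRing B] (τ : X → ZMod M) (a b c : X) : B :=
  ((((τ b - τ a).val + (τ c - τ b).val) / M : ℕ) : B)

theorem tl_add [NeZero M] (τ : X → ZMod M) (a b c : X) :
    tl B τ a b + tl B τ b c = tl B τ a c + (M : B) * ep B τ a b c := by
  unfold tl ep
  have h : (τ c - τ a).val = ((τ b - τ a).val + (τ c - τ b).val) % M := by
    rw [← ZMod.val_add]
    congr 1
    ring
  rw [h, ← Nat.cast_add, ← Nat.cast_mul, ← Nat.cast_add, Nat.mod_add_div]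

private theorem sa_last {n : ℕ} (i : Fin (n + 1)) :
    i.castSucc.succAbove (Fin.last n) = Fin.last (n + 1) := by
  rw [Fin.succAbove_of_le_castSucc _ _ (Fin.castSucc_le_castSucc_iff.2 (Fin.le_last i)),
    Fin.succ_last]

private theorem dl_pL_gen (ψ : (Fin (k + 1) → X) → B) (l : X → X → B) (v : Fin (k + 3) → X) :
    dl (pL ψ l) v = pL (dl ψ) l v + (-1) ^ (k + 1) * (ψ (fun j => v j.castSucc.castSucc) *
      (l (v (Fin.last k).castSucc.castSucc) (v (Fin.last (k + 2))) -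
        l (v (Fin.last k).castSucc.castSucc) (v (Fin.last (k + 1)).castSucc) -
        l (v (Fin.last (k + 1)).castSucc) (v (Fin.last (k + 2))))) := by
  have hL : dl (pL ψ l) v = (∑ i : Fin (k + 1), (-1 : B) ^ (i : ℕ) *
      (ψ (fun j => v ((i.castSucc.succAbove j).castSucc)) *
        l (v (Fin.last (k + 1)).castSucc) (v (Fin.last (k + 2))))) +
      (-1 : B) ^ (k + 1) * (ψ (fun j => v j.castSucc.castSucc) *
        l (v (Fin.last k).castSucc.castSucc) (v (Fin.last (k + 2)))) +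
      (-1 : B) ^ (k + 2) * (ψ (fun j => v j.castSucc.castSucc) *
        l (v (Fin.last k).castSucc.castSucc) (v (Fin.last (k + 1)).castSucc)) := by
    unfold dl
    rw [Fin.sum_univ_castSucc, Fin.sum_univ_castSucc]
    congr 1
    · congr 1
      · refine Finset.sum_congr rfl fun i _ => ?_
        rw [zsmul_eq_mul]
        unfold pL
        have e1 : ∀ j : Fin (k + 1), (i.castSucc.castSucc).succAbove j.castSucc =
            (i.castSucc.succAbove j).castSucc := fun j => by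
          rw [Fin.castSucc_succAbove_castSucc]
        have e2 : (i.castSucc.castSucc).succAbove (Fin.last k).castSucc =
            (Fin.last (k + 1)).castSucc := by
          rw [Fin.castSucc_succAbove_castSucc, sa_last]
        have e3 : (i.castSucc.castSucc).succAbove (Fin.last (k + 1)) = Fin.last (k + 2) := by
          rw [sa_last]
        simp only [e1, e3, Fin.val_castSucc]
        rw [sa_last i]
        push_cast
        rfl
      · rw [zsmul_eq_mul]
        unfold pL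
        have e1 : ∀ j : Fin (k + 1), ((Fin.last (k + 1)).castSucc).succAbove j.castSucc =
            j.castSucc.castSucc := fun j => by
          rw [Fin.castSucc_succAbove_castSucc, Fin.succAbove_last]
        have e3 : ((Fin.last (k + 1)).castSucc).succAbove (Fin.last (k + 1)) = Fin.last (k + 2) := by
          rw [sa_last]
        simp only [e1, e3, Fin.val_castSucc, Fin.val_last]
        push_cast
        rfl
    · rw [zsmul_eq_mul]
      unfold pL
      simp only [Fin.succAbove_last, Fin.val_last]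
      push_cast
      rfl
  have hR : dl ψ (fun j => v j.castSucc) = (∑ i : Fin (k + 1), (-1 : B) ^ (i : ℕ) *
      ψ (fun j => v ((i.castSucc.succAbove j).castSucc))) +
      (-1 : B) ^ (k + 1) * ψ (fun j => v j.castSucc.castSucc) := by
    unfold dl
    rw [Fin.sum_univ_castSucc]
    congr 1
    · refine Finset.sum_congr rfl fun i _ => ?_
      rw [zsmul_eq_mul, Fin.val_castSucc]
      push_cast
      rfl
    · rw [zsmul_eq_mul]
      simp only [Fin.succAbove_last, Fin.val_last]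
      push_cast
      rfl
  have hR' : pL (dl ψ) l v = dl ψ (fun j => v j.castSucc) *
      l (v (Fin.last (k + 1)).castSucc) (v (Fin.last (k + 2))) := rfl
  rw [hL, hR', hR, add_mul, Finset.sum_mul]
  have hs : ∑ i : Fin (k + 1), (-1 : B) ^ (i : ℕ) *
      (ψ (fun j => v ((i.castSucc.succAbove j).castSucc)) *
        l (v (Fin.last (k + 1)).castSucc) (v (Fin.last (k + 2)))) =
      ∑ i : Fin (k + 1), (-1 : B) ^ (i : ℕ) *
      ψ (fun j => v ((i.castSucc.succAbove j).castSucc)) *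
        l (v (Fin.last (k + 1)).castSucc) (v (Fin.last (k + 2))) :=
    Finset.sum_congr rfl fun i _ => by ring
  rw [hs]
  ring

/-- the product of `ψ` with a function of the last three variables -/
def pLL (ψ : (Fin (k + 1) → X) → B) (e : X → X → X → B) (v : Fin (k + 3) → X) : B :=
  ψ (fun j => v j.castSucc.castSucc) *
    e (v (Fin.last k).castSucc.castSucc) (v (Fin.last (k + 1)).castSucc) (v (Fin.last (k + 2)))

theorem dl_pL_tl [NeZero M] (τ : X → ZMod M) (ψ : (Fin (k + 1) → X) → B) (v : Fin (k + 3) → X) :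
    dl (pL ψ (tl B τ)) v = pL (dl ψ) (tl B τ) v + (-1) ^ k * ((M : B) * pLL ψ (ep B τ) v) := by
  rw [dl_pL_gen]
  unfold pLL
  have h := tl_add (B := B) τ (v (Fin.last k).castSucc.castSucc) (v (Fin.last (k + 1)).castSucc)
    (v (Fin.last (k + 2)))
  have h' : tl B τ (v (Fin.last k).castSucc.castSucc) (v (Fin.last (k + 2))) =
      tl B τ (v (Fin.last k).castSucc.castSucc) (v (Fin.last (k + 1)).castSucc) +
      tl B τ (v (Fin.last (k + 1)).castSucc) (v (Fin.last (k + 2))) -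
      (M : B) * ep B τ (v (Fin.last k).castSucc.castSucc) (v (Fin.last (k + 1)).castSucc)
        (v (Fin.last (k + 2))) := by
    rw [h]
    ring
  rw [h']
  ring

end

section

variable {G : Type u} [Group G] {B : Type v} [CommRing B] {k : ℕ}

private theorem no_root {p r : ℕ} (hp : p.Prime)
    (hG : ∀ g : G, (∃ j : ℕ, g ^ p ^ j = 1) → g ^ p ^ r = 1) {c : G} (hc : IsOfFinOrder c)
    (hpc : p ∣ orderOf c) {u h : G} (hu : u * h ^ p ^ r * u⁻¹ = c) : False := by
  have hpr : 0 < p ^ r := pow_pos hp.pos r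
  have hg : (u * h * u⁻¹) ^ p ^ r = c := by rw [conj_pow, hu]
  have hgf : IsOfFinOrder (u * h * u⁻¹) :=
    (isOfFinOrder_pow.1 (hg ▸ hc)).resolve_right hpr.ne'
  set g := u * h * u⁻¹ with hgdef
  have hn : 0 < orderOf g := hgf.orderOf_pos
  have ho : orderOf c = orderOf g / Nat.gcd (orderOf g) (p ^ r) := by
    rw [← hg, orderOf_pow' g hpr.ne']
  have hd : p ^ (r + 1) ∣ orderOf g := by
    obtain ⟨j, hj, hje⟩ := (Nat.dvd_prime_pow hp).1 (Nat.gcd_dvd_right (orderOf g) (p ^ r))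
    have h1 : p ^ (j + 1) ∣ orderOf g := by
      rw [ho, hje] at hpc
      have h2 : p ^ j ∣ orderOf g := hje ▸ Nat.gcd_dvd_left (orderOf g) (p ^ r)
      have h3 := Nat.mul_dvd_mul_left (p ^ j) hpc
      rw [Nat.mul_div_cancel' h2] at h3
      rwa [pow_succ]
    rcases Nat.lt_or_ge j r with hlt | hge
    · exfalso
      have h4 : p ^ (j + 1) ∣ Nat.gcd (orderOf g) (p ^ r) :=
        Nat.dvd_gcd h1 (pow_dvd_pow p hlt)
      rw [hje] at h4
      have h5 := (Nat.pow_dvd_pow_iff_le_right hp.one_lt).1 h4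
      omega
    · have : j = r := le_antisymm hj hge
      rwa [this] at h1
  obtain ⟨t, ht⟩ := hd
  have ht0 : t ≠ 0 := by
    rintro rfl
    rw [ht, mul_zero] at hn
    exact lt_irrefl _ hn
  have h6 : (g ^ t) ^ p ^ r = 1 := by
    apply hG
    refine ⟨r + 1, ?_⟩
    rw [← pow_mul, mul_comm, ← ht, pow_orderOf_eq_one]
  rw [← pow_mul] at h6
  have h7 := Nat.le_of_dvd (Nat.mul_pos (Nat.pos_of_ne_zero ht0) hpr) (orderOf_dvd_of_pow_eq_one h6)
  rw [ht, pow_succ, mul_comm t, mul_assoc] at h7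
  have h8 := Nat.le_of_mul_le_mul_left h7 hpr
  have h9 : 2 * t ≤ p * t := Nat.mul_le_mul_right t hp.two_le
  omega

/-- **Divisibility for bounded torsion.** -/
theorem TR_dvd_exp {p : ℕ} [Fact p.Prime] (m r : ℕ) (hrm : r ≤ m)
    (hG : ∀ g : G, (∃ j : ℕ, g ^ p ^ j = 1) → g ^ p ^ r = 1) {c : G} (hc : IsOfFinOrder c)
    (hpc : p ∣ orderOf c) {Φ : (Fin (k + 1) → Fin (p ^ m) → G) → B} (hΦ : CIq c (p ^ m) Φ)
    (hr : RIq c (p ^ m) Φ) (w : QC (MonoidAlgebra B G) k) :
    (p : B) ^ (m - r + 1) ∣ TR (p ^ m) c Φ w := by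
  induction w using QC.induction with
  | h0 => rw [map_zero]; exact dvd_zero _
  | ha a b h1 h2 => rw [map_add]; exact dvd_add h1 h2
  | hn a h1 => rw [map_neg]; exact (dvd_neg).2 h1
  | ht N x =>
    obtain ⟨S, hS⟩ := exists_supp (lts x)
    refine TR_dvd m (m - r) (Nat.sub_le m r) hΦ hr x S hS ?_
    intro l _ _ u hu
    exact no_root (Fact.out : p.Prime) hG hc hpc (Nat.sub_sub_self hrm ▸ hu)

/-- the smallest degree -/
def mnd {q : ℕ} [NeZero q] (v : Fin q → G × Multiplicative ℤ) : ℤ :=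
  Finset.univ.inf' ⟨0, Finset.mem_univ 0⟩ fun b => dg (v b)

/-- the difference of the smallest degrees -/
def lmin (B : Type v) [CommRing B] {q : ℕ} [NeZero q] (a b : Fin q → G × Multiplicative ℤ) : B :=
  ((mnd b - mnd a : ℤ) : B)

theorem mnd_sig {q : ℕ} [NeZero q] (c : G) (v : Fin q → G × Multiplicative ℤ) :
    mnd (sig q ((c, 1) : G × Multiplicative ℤ) v) = mnd v := by
  have hq : 0 < q := Nat.pos_of_ne_zero (NeZero.ne q)
  have h1 : ∀ (b : Fin q) (h : (b : ℕ) + 1 < q),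
      dg (sig q ((c, 1) : G × Multiplicative ℤ) v b) = dg (v ⟨(b : ℕ) + 1, h⟩) := by
    intro b h
    unfold sig
    rw [dif_pos h]
  have h2 : ∀ (b : Fin q) (_ : ¬ (b : ℕ) + 1 < q),
      dg (sig q ((c, 1) : G × Multiplicative ℤ) v b) = dg (v ⟨0, hq⟩) := by
    intro b h
    unfold sig
    rw [dif_neg h]
    unfold dg
    rw [Prod.snd_mul, one_mul]
  apply le_antisymm
  · refine Finset.le_inf' _ _ fun b _ => ?_
    rcases Nat.eq_zero_or_pos (b : ℕ) with h0 | h0
    · have hb : b = ⟨0, hq⟩ := Fin.ext h0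
      have hl : ¬ ((⟨q - 1, Nat.sub_lt hq Nat.one_pos⟩ : Fin q) : ℕ) + 1 < q := by
        show ¬ (q - 1 + 1 < q)
        omega
      rw [hb, ← h2 ⟨q - 1, Nat.sub_lt hq Nat.one_pos⟩ hl]
      exact Finset.inf'_le _ (Finset.mem_univ _)
    · have hlt : (b : ℕ) - 1 < q := lt_of_le_of_lt (Nat.sub_le _ _) b.2
      have hlt' : ((⟨(b : ℕ) - 1, hlt⟩ : Fin q) : ℕ) + 1 < q := by
        show (b : ℕ) - 1 + 1 < q
        have := b.2
        omega
      have hb : b = ⟨((⟨(b : ℕ) - 1, hlt⟩ : Fin q) : ℕ) + 1, hlt'⟩ := by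
        apply Fin.ext
        show (b : ℕ) = (b : ℕ) - 1 + 1
        omega
      have h3 := h1 ⟨(b : ℕ) - 1, hlt⟩ hlt'
      rw [← hb] at h3
      rw [← h3]
      exact Finset.inf'_le _ (Finset.mem_univ _)
  · refine Finset.le_inf' _ _ fun b _ => ?_
    by_cases h : (b : ℕ) + 1 < q
    · rw [h1 b h]
      exact Finset.inf'_le (fun b => dg (v b)) (Finset.mem_univ _)
    · rw [h2 b h]
      exact Finset.inf'_le (fun b => dg (v b)) (Finset.mem_univ _)

theorem mnd_lmul {q : ℕ} [NeZero q] (g : G × Multiplicative ℤ) (v : Fin q → G × Multiplicative ℤ) :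
    mnd (lmul g v) = dg g + mnd v := by
  have h1 : ∀ b, dg (lmul g v b) = dg g + dg (v b) := by
    intro b
    unfold lmul dg
    rw [Prod.snd_mul, toAdd_mul]
  have hne : (Finset.univ : Finset (Fin q)).Nonempty := ⟨0, Finset.mem_univ 0⟩
  apply le_antisymm
  · obtain ⟨b, -, hb⟩ := Finset.exists_mem_eq_inf' hne fun b => dg (v b)
    have hb' : mnd v = dg (v b) := hb
    rw [hb', ← h1 b]
    exact Finset.inf'_le _ (Finset.mem_univ _)
  · refine Finset.le_inf' _ _ fun b _ => ?_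
    rw [h1 b]
    have h2 : mnd v ≤ dg (v b) := Finset.inf'_le (fun b => dg (v b)) (Finset.mem_univ _)
    exact add_le_add_right h2 (dg g)

/-- the cochain of the functional on the group ring of `G × ℤ` -/
def phiT {q : ℕ} [NeZero q] (ψ : (Fin (k + 1) → Fin q → G) → B)
    (τ : (Fin q → G) → ZMod q) : (Fin (k + 3) → Fin q → G × Multiplicative ℤ) → B :=
  pL (pL (fun v => ψ fun j b => (v j b).1) (tl B fun v => τ fun b => (v b).1)) (lmin B)

/-- the cochain of the functional on the group ring of `G` -/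
def phiG {q : ℕ} (ψ : (Fin (k + 1) → Fin q → G) → B) (τ : (Fin q → G) → ZMod q) :
    (Fin (k + 2) → Fin q → G) → B := pL ψ (tl B τ)

private theorem comm_fst {c : G} {g : G × Multiplicative ℤ}
    (hg : g * ((c, 1) : G × Multiplicative ℤ) = ((c, 1) : G × Multiplicative ℤ) * g) :
    g.1 * c = c * g.1 := congrArg Prod.fst hg

private theorem lmin_mul {q : ℕ} [NeZero q] (g : G × Multiplicative ℤ)
    (v w : Fin q → G × Multiplicative ℤ) :
    lmin B (fun b => g * v b) (fun b => g * w b) = lmin B v w := by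
  have h1 := mnd_lmul g v
  have h2 := mnd_lmul g w
  unfold lmul at h1 h2
  unfold lmin
  rw [h1, h2, add_sub_add_left_eq_sub]

private theorem lmin_sig {q : ℕ} [NeZero q] (c : G) (v w : Fin q → G × Multiplicative ℤ) :
    lmin B (sig q ((c, 1) : G × Multiplicative ℤ) v) (sig q ((c, 1) : G × Multiplicative ℤ) w) =
      lmin B v w := by
  unfold lmin
  rw [mnd_sig, mnd_sig]

omit [Group G] in
private theorem lmin_add {q : ℕ} [NeZero q] (a b c : Fin q → G × Multiplicative ℤ) :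
    lmin B a b + lmin B b c = lmin B a c := by
  unfold lmin
  rw [← Int.cast_add]
  congr 1
  ring

private theorem sig_fst {q : ℕ} (c : G) (v : Fin q → G × Multiplicative ℤ) :
    (fun b => (sig q ((c, 1) : G × Multiplicative ℤ) v b).1) = sig q c fun b => (v b).1 := by
  funext b
  unfold sig
  by_cases h : (b : ℕ) + 1 < q
  · rw [dif_pos h, dif_pos h]
  · rw [dif_neg h, dif_neg h]
    rfl

private theorem tau_mul {p m r : ℕ} {c : G} {τ : (Fin (p ^ m) → G) → ZMod (p ^ m)}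
    (hτ : IsTau p m r c τ) {g : G} (hg : g * c = c * g) (v : Fin (p ^ m) → G) :
    τ (fun b => g * v b) = τ v := hτ.inv g hg v

theorem CIq_phiT {p m r : ℕ} [Fact p.Prime] {c : G} {ψ : (Fin (k + 1) → Fin (p ^ m) → G) → B}
    (h1 : CIq c (p ^ m) ψ) {τ : (Fin (p ^ m) → G) → ZMod (p ^ m)} (hτ : IsTau p m r c τ) :
    CIq ((c, 1) : G × Multiplicative ℤ) (p ^ m) (phiT ψ τ) := by
  intro g hg v
  have hg1 := comm_fst hg
  have e1 := h1 g.1 hg1 fun j b => (v j.castSucc.castSucc b).1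
  have e2 := tau_mul hτ hg1 fun b => (v (Fin.last k).castSucc.castSucc b).1
  have e3 := tau_mul hτ hg1 fun b => (v (Fin.last (k + 1)).castSucc b).1
  have e4 := lmin_mul (B := B) g (v (Fin.last (k + 1)).castSucc) (v (Fin.last (k + 2)))
  show ψ (fun j b => g.1 * (v j.castSucc.castSucc b).1) *
      ((τ (fun b => g.1 * (v (Fin.last (k + 1)).castSucc b).1) -
        τ (fun b => g.1 * (v (Fin.last k).castSucc.castSucc b).1)).val : B) *
      lmin B (fun b => g * v (Fin.last (k + 1)).castSucc b) (fun b => g * v (Fin.last (k + 2)) b) = _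
  rw [e1, e2, e3, e4]
  rfl

theorem CIq_phiG {p m r : ℕ} [Fact p.Prime] {c : G} {ψ : (Fin (k + 1) → Fin (p ^ m) → G) → B}
    (h1 : CIq c (p ^ m) ψ) {τ : (Fin (p ^ m) → G) → ZMod (p ^ m)} (hτ : IsTau p m r c τ) :
    CIq c (p ^ m) (phiG ψ τ) := by
  intro g hg v
  have e1 := h1 g hg fun j => v j.castSucc
  have e2 := tau_mul hτ hg (v (Fin.last k).castSucc)
  have e3 := tau_mul hτ hg (v (Fin.last (k + 1)))
  show ψ (fun j b => g * v j.castSucc b) *
      ((τ (fun b => g * v (Fin.last (k + 1)) b) -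
        τ (fun b => g * v (Fin.last k).castSucc b)).val : B) = _
  rw [e1, e2, e3]
  rfl

/-- the cochain of the boundary values on `G` -/
private def psG {q : ℕ} (ψ : (Fin (k + 1) → Fin q → G) → B) (τ : (Fin q → G) → ZMod q) :
    (Fin (k + 3) → Fin q → G) → B := pLL ψ (ep B τ)

private theorem CIq_psG {p m r : ℕ} {c : G} {ψ : (Fin (k + 1) → Fin (p ^ m) → G) → B}
    (h1 : CIq c (p ^ m) ψ) {τ : (Fin (p ^ m) → G) → ZMod (p ^ m)} (hτ : IsTau p m r c τ) :
    CIq c (p ^ m) (psG ψ τ) := by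
  intro g hg v
  have e1 := h1 g hg fun j => v j.castSucc.castSucc
  have e2 := tau_mul hτ hg (v (Fin.last k).castSucc.castSucc)
  have e3 := tau_mul hτ hg (v (Fin.last (k + 1)).castSucc)
  have e4 := tau_mul hτ hg (v (Fin.last (k + 2)))
  unfold psG pLL ep
  rw [e1, e2, e3, e4]

private theorem RIq_psG {p m r : ℕ} {c : G} {ψ : (Fin (k + 1) → Fin (p ^ m) → G) → B}
    (h2 : RIq c (p ^ m) ψ) {τ : (Fin (p ^ m) → G) → ZMod (p ^ m)} (hτ : IsTau p m r c τ) :
    RIq c (p ^ m) (psG ψ τ) := by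
  intro v
  have e1 := h2 fun j => v j.castSucc.castSucc
  unfold psG pLL ep
  rw [e1, hτ.rot, hτ.rot, hτ.rot, add_sub_add_right_eq_sub, add_sub_add_right_eq_sub]

private theorem dl_zero_pL {X : Type*} {M : ℕ} [NeZero M] (τ : X → ZMod M)
    (ψ : (Fin (k + 1) → X) → B) (h3 : ∀ v, dl ψ v = 0) (v : Fin (k + 3) → X) :
    dl (pL ψ (tl B τ)) v = (-1) ^ k * (M : B) * pLL ψ (ep B τ) v := by
  rw [dl_pL_tl]
  unfold pL
  rw [h3]
  ring

/-- **The values on boundaries.** -/
theorem bd_dvd {p : ℕ} [Fact p.Prime] (m r : ℕ) (hrm : r ≤ m)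
    (hG : ∀ g : G, (∃ j : ℕ, g ^ p ^ j = 1) → g ^ p ^ r = 1) {c : G} (hc : IsOfFinOrder c)
    (hpc : p ∣ orderOf c) {ψ : (Fin (k + 1) → Fin (p ^ m) → G) → B} (h1 : CIq c (p ^ m) ψ)
    (h2 : RIq c (p ^ m) ψ) (h3 : ∀ v, dl ψ v = 0) {τ : (Fin (p ^ m) → G) → ZMod (p ^ m)}
    (hτ : IsTau p m r c τ) (w : QC (MonoidAlgebra B (G × Multiplicative ℤ)) (k + 3)) :
    (p : B) ^ (m + (m - r + 1)) ∣ TR (p ^ m) ((c, 1) : G × Multiplicative ℤ) (phiT ψ τ) (qbd w) := by
  rw [TR_bd (p ^ m) (CIq_phiT h1 hτ)]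
  have h4 : dl (phiT ψ τ) = fun v : Fin (k + 4) → Fin (p ^ m) → G × Multiplicative ℤ =>
      (-1) ^ k * ((p ^ m : ℕ) : B) * (psG ψ τ (fun j b => (v j.castSucc b).1) *
        lmin B (v (Fin.last (k + 2)).castSucc) (v (Fin.last (k + 3)))) := by
    funext v
    unfold phiT
    rw [dl_pL _ (lmin B) lmin_add]
    unfold pL
    have h5 := dl_zero_pL (B := B) (M := p ^ m)
      (fun v : Fin (p ^ m) → G × Multiplicative ℤ => τ fun b => (v b).1)
      (fun v : Fin (k + 1) → Fin (p ^ m) → G × Multiplicative ℤ => ψ fun j b => (v j b).1)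
      (fun v => h3 fun j b => (v j b).1) (fun j => v j.castSucc)
    unfold pL at h5
    rw [h5]
    unfold psG pLL ep
    ring
  rw [h4, TR_smul, pow_add, Nat.cast_pow]
  refine mul_dvd_mul (Dvd.intro_left _ rfl) ?_
  have hG' : ∀ g : G × Multiplicative ℤ, (∃ j : ℕ, g ^ p ^ j = 1) → g ^ p ^ r = 1 := by
    rintro ⟨g, t⟩ ⟨j, hj⟩
    have hj1 : g ^ p ^ j = 1 := congrArg Prod.fst hj
    have hj2 : t ^ p ^ j = 1 := congrArg Prod.snd hj
    have hp0 : p ^ j ≠ 0 := pow_ne_zero j (Fact.out : p.Prime).ne_zero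
    have ht : t = 1 := by
      have h6 := congrArg Multiplicative.toAdd hj2
      rw [toAdd_pow, toAdd_one, smul_eq_zero] at h6
      rcases h6 with h6 | h6
      · exact absurd h6 hp0
      · exact h6
    rw [Prod.pow_mk, hG g ⟨j, hj1⟩, ht, one_pow]
    rfl
  have hc' : IsOfFinOrder ((c, 1) : G × Multiplicative ℤ) := by
    obtain ⟨n, hn, hcn⟩ := isOfFinOrder_iff_pow_eq_one.1 hc
    refine isOfFinOrder_iff_pow_eq_one.2 ⟨n, hn, ?_⟩
    rw [Prod.pow_mk, hcn, one_pow]
    rfl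
  have hpc' : p ∣ orderOf ((c, 1) : G × Multiplicative ℤ) := by
    rw [Prod.orderOf_mk, orderOf_one, Nat.lcm_one_right]
    exact hpc
  refine TR_dvd_exp m r hrm hG' hc' hpc' ?_ ?_ w
  · intro g hg v
    have e1 := CIq_psG h1 hτ g.1 (comm_fst hg) fun j b => (v j.castSucc b).1
    have e2 := lmin_mul (B := B) g (v (Fin.last (k + 2)).castSucc) (v (Fin.last (k + 3)))
    show psG ψ τ (fun j b => g.1 * (v j.castSucc b).1) *
      lmin B (fun b => g * v (Fin.last (k + 2)).castSucc b) (fun b => g * v (Fin.last (k + 3)) b) = _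
    rw [e1, e2]
  · intro v
    have e1 := RIq_psG h2 hτ fun j b => (v j.castSucc b).1
    have e2 : (fun (j : Fin (k + 3)) b => (sig (p ^ m) ((c, 1) : G × Multiplicative ℤ)
        (v j.castSucc) b).1) = fun j => sig (p ^ m) c fun b => (v j.castSucc b).1 :=
      funext fun j => sig_fst c (v j.castSucc)
    show psG ψ τ (fun (j : Fin (k + 3)) b => (sig (p ^ m) ((c, 1) : G × Multiplicative ℤ)
        (v j.castSucc) b).1) * lmin B (sig (p ^ m) ((c, 1) : G × Multiplicative ℤ)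
        (v (Fin.last (k + 2)).castSucc)) (sig (p ^ m) ((c, 1) : G × Multiplicative ℤ)
        (v (Fin.last (k + 3)))) = _
    rw [e2, e1, lmin_sig]

/-- the same on the group ring of `G` -/
theorem bd_dvdG {p : ℕ} [Fact p.Prime] (m r : ℕ) (hrm : r ≤ m)
    (hG : ∀ g : G, (∃ j : ℕ, g ^ p ^ j = 1) → g ^ p ^ r = 1) {c : G} (hc : IsOfFinOrder c)
    (hpc : p ∣ orderOf c) {ψ : (Fin (k + 1) → Fin (p ^ m) → G) → B} (h1 : CIq c (p ^ m) ψ)
    (h2 : RIq c (p ^ m) ψ) (h3 : ∀ v, dl ψ v = 0) {τ : (Fin (p ^ m) → G) → ZMod (p ^ m)}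
    (hτ : IsTau p m r c τ) (w : QC (MonoidAlgebra B G) (k + 2)) :
    (p : B) ^ (m + (m - r + 1)) ∣ TR (p ^ m) c (phiG ψ τ) (qbd w) := by
  rw [TR_bd (p ^ m) (CIq_phiG h1 hτ)]
  have h4 : dl (phiG ψ τ) = fun v => (-1) ^ k * ((p ^ m : ℕ) : B) * psG ψ τ v :=
    funext fun v => dl_zero_pL τ ψ h3 v
  rw [h4, TR_smul, pow_add, Nat.cast_pow]
  exact mul_dvd_mul (Dvd.intro_left _ rfl)
    (TR_dvd_exp m r hrm hG hc hpc (CIq_psG h1 hτ) (RIq_psG h2 hτ) w)

/-- the values on `QC0` -/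
theorem half_zero {p : ℕ} [Fact p.Prime] {m r : ℕ} {c : G}
    {ψ : (Fin (k + 1) → Fin (p ^ m) → G) → B} (h1 : CIq c (p ^ m) ψ)
    {τ : (Fin (p ^ m) → G) → ZMod (p ^ m)} (hτ : IsTau p m r c τ)
    {w : QC (MonoidAlgebra B (G × Multiplicative ℤ)) (k + 2)} (hw : w ∈ QC0 G B (k + 2)) :
    TR (p ^ m) ((c, 1) : G × Multiplicative ℤ) (phiT ψ τ) w = 0 := by
  refine TR_half (p ^ m) (CIq_phiT h1 hτ) (fun v h0 => ?_) hw
  have h4 : mnd (v (Fin.last (k + 2))) = mnd (v (Fin.last (k + 1)).castSucc) := by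
    unfold mnd
    congr 1
    funext b
    exact h0 _ _ _ _
  have h5 : lmin B (v (Fin.last (k + 1)).castSucc) (v (Fin.last (k + 2))) = 0 := by
    unfold lmin
    rw [h4, sub_self, Int.cast_zero]
  show _ * lmin B (v (Fin.last (k + 1)).castSucc) (v (Fin.last (k + 2))) = 0
  rw [h5, mul_zero]

end

end Pool.Agent.H39.KL
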