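import Pool.Agent.H39.KL.RelC
import Pool.Agent.H16.KN.MainA

/-!
# Project KL: the `K₋₁`-part becomes torsion over a localized ring of integers

PROOF.  As in `asm_torsionN` (`KN/MainA.lean`): `exists_cycN W` gives `M • W = ∑ sym (C i) (x i) (z i)` with `C i` finite
cyclic; `N = p * ∏ card (C i)`, `O = 𝓞 (CyclotomicField N ℚ)`, the image of `x i` in `Km1 (O[C i])` is
`Theta N (C i) .. (n i)` (`Theta_surj`).  `m` is a maximal ideal of `O / N` which contains `p` and `B` the localization of `O` at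
`m` (`exists_locU`): a domain of characteristic zero, the natural numbers prime to `p` are units, `⋂ p ^ a B = 0`.  The idempotents
`kappa m'` of `O / N` become `1` (`m' = m`) or `0` in `B / N`, so the unit `uN n` becomes the image of a unit over
`((C →* Oˣ) → B)[t, t⁻¹]` and the image of `Theta N C .. n` in `Km1 (B[C])` vanishes (`Sq.DD_map`, `Sq.DD_lift`).  So `LKQ.map` of
`pr (Theta ..) (z i)` vanishes over `B` (`map_pr`).
-/

set_option autoImplicit false

open Matrix
open scoped LaurentPolynomial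

universe u v w

namespace Pool.Agent.H39.KL

open Pool.Agent.H71.FQ Pool.Agent.H16.KN Pool.Agent.H16.FU

section Loc

open Pool.Agent.H95.KM

open Classical in
/-- Localization at a maximal ideal of `O / N` which contains `p`. -/
private theorem exists_locU {O : Type} [CommRing O] [IsDomain O] [IsNoetherianRing O] [CharZero O]
    (N : ℕ) [NeZero N] [Finite (Amod O N)] (m : Pr O N) (p : ℕ) (hp : p.Prime)
    (hpm : (p : Amod O N) ∈ m.asIdeal) :
    ∃ (Om : Type) (_ : CommRing Om) (_ : IsDomain Om) (_ : CharZero Om) (f : O →+* Om),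
      (∀ a : Om, (∀ k : ℕ, (p : Om) ^ k ∣ a) → a = 0) ∧
      (∀ q : ℕ, ¬ p ∣ q → IsUnit (q : Om)) ∧
      (∀ (m' : Pr O N) (r : O), Ideal.Quotient.mk (Ideal.span {(N : O)}) r = kappa O N m' →
        Ideal.Quotient.mk (Ideal.span {(N : Om)}) (f r) = if m' = m then 1 else 0) := by
  set q : O →+* Amod O N := Ideal.Quotient.mk (Ideal.span {(N : O)}) with hq
  have hm : m.asIdeal.IsPrime := m.isMaximal.isPrime
  set 𝔭 : Ideal O := m.asIdeal.comap q with h𝔭
  have hpr : 𝔭.IsPrime := Ideal.comap_isPrime q m.asIdeal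
  set Om : Type := Localization.AtPrime 𝔭 with hOm
  set f : O →+* Om := algebraMap O Om with hf
  have hfu : ∀ a : O, a ∉ 𝔭 → IsUnit (f a) := fun a ha =>
    IsLocalization.map_units Om (⟨a, ha⟩ : 𝔭.primeCompl)
  have hfinj : Function.Injective f :=
    IsLocalization.injective Om 𝔭.primeCompl_le_nonZeroDivisors
  have hdom : IsDomain Om := IsLocalization.isDomain_localization 𝔭.primeCompl_le_nonZeroDivisors
  have hchar : CharZero Om := charZero_of_injective_ringHom hfinj
  have hnoeth : IsNoetherianRing Om := IsLocalization.isNoetherianRing 𝔭.primeCompl Om inferInstance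
  have h1 : ((p : ℕ) : O) ∈ 𝔭 := by
    change q ((p : ℕ) : O) ∈ m.asIdeal
    rw [map_natCast]
    exact hpm
  refine ⟨Om, inferInstance, hdom, hchar, f, ?_, ?_, ?_⟩
  · intro a ha
    have h2 : (p : Om) ∈ IsLocalRing.maximalIdeal Om := by
      have := (IsLocalization.AtPrime.to_map_mem_maximal_iff Om 𝔭 (p : O)).2 h1
      rwa [map_natCast] at this
    have h3 : a ∈ ⨅ k : ℕ, (IsLocalRing.maximalIdeal Om) ^ k := by
      rw [Ideal.mem_iInf]
      intro k
      exact Ideal.mem_of_dvd _ (ha k) (Ideal.pow_mem_pow h2 k)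
    rw [Ideal.iInf_pow_eq_bot_of_isLocalRing _ (IsLocalRing.maximalIdeal.isMaximal Om).ne_top]
      at h3
    exact h3
  · intro n hn
    have h2 : ((n : ℕ) : O) ∉ 𝔭 := by
      intro h
      have h3 : Nat.Coprime n p := ((Nat.Prime.coprime_iff_not_dvd hp).2 hn).symm
      have h4 : IsCoprime (n : ℤ) (p : ℤ) := Nat.isCoprime_iff_coprime.2 h3
      obtain ⟨a, b, hab⟩ := h4
      have h5 : ((a : ℤ) : O) * ((n : ℕ) : O) + ((b : ℤ) : O) * ((p : ℕ) : O) = 1 := by
        exact_mod_cast congrArg (Int.cast : ℤ → O) hab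
      apply hpr.ne_top
      rw [Ideal.eq_top_iff_one, ← h5]
      exact 𝔭.add_mem (𝔭.mul_mem_left _ h) (𝔭.mul_mem_left _ h1)
    have h3 := hfu _ h2
    rwa [map_natCast] at h3
  · intro m' r hr
    have key : ∀ a b c : O, b ∉ 𝔭 → b * a = N * c →
        f a ∈ Ideal.span {(N : Om)} := by
      intro a b c hb habc
      rw [Ideal.mem_span_singleton]
      have h1 : f b * f a = N * f c := by
        rw [← map_mul, habc, map_mul, map_natCast]
      obtain ⟨u, hu⟩ := hfu b hb
      refine ⟨↑u⁻¹ * f c, ?_⟩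
      rw [← hu] at h1
      calc f a = ↑u⁻¹ * (↑u * f a) := by rw [← mul_assoc, Units.inv_mul, one_mul]
        _ = ↑u⁻¹ * (N * f c) := by rw [h1]
        _ = _ := by ring
    split_ifs with hmm
    · subst hmm
      have hr1 : r ∉ 𝔭 := by
        intro h
        apply kappa_notMem O N m'
        rw [← hr]
        exact h
      have h2 : q (r * (r - 1)) = 0 := by
        rw [map_mul, map_sub, map_one, hr, mul_sub, mul_one, kappa_mul, if_pos rfl, sub_self]
      rw [hq, Ideal.Quotient.eq_zero_iff_mem, Ideal.mem_span_singleton] at h2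
      obtain ⟨c, hc⟩ := h2
      have h3 := key (r - 1) r c hr1 hc
      rw [map_sub, map_one] at h3
      rw [← sub_eq_zero, ← map_one (Ideal.Quotient.mk (Ideal.span {(N : Om)})), ← map_sub]
      exact Ideal.Quotient.eq_zero_iff_mem.2 h3
    · obtain ⟨r₀, hr₀⟩ := Ideal.Quotient.mk_surjective (kappa O N m)
      have hr1 : r₀ ∉ 𝔭 := by
        intro h
        apply kappa_notMem O N m
        rw [← hr₀]
        exact h
      have h2 : q (r₀ * r) = 0 := by
        rw [map_mul, hr, hq, hr₀, kappa_mul, if_neg (Ne.symm hmm)]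
      rw [hq, Ideal.Quotient.eq_zero_iff_mem, Ideal.mem_span_singleton] at h2
      obtain ⟨c, hc⟩ := h2
      exact Ideal.Quotient.eq_zero_iff_mem.2 (key r r₀ c hr1 hc)

/-- A maximal ideal of `O / N` which contains `p`. -/
private theorem exists_prM {O : Type} [CommRing O] (N p : ℕ) (hpN : p ∣ N)
    (hpu : ¬ IsUnit ((p : ℕ) : O)) : ∃ m : Pr O N, (p : Amod O N) ∈ m.asIdeal := by
  have h1 : ¬ IsUnit ((p : ℕ) : Amod O N) := by
    rintro ⟨u, hu⟩
    obtain ⟨r, hr⟩ := Ideal.Quotient.mk_surjective ((u⁻¹ : (Amod O N)ˣ) : Amod O N)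
    have h2 : Ideal.Quotient.mk (Ideal.span {(N : O)}) (((p : ℕ) : O) * r - 1) = 0 := by
      rw [map_sub, map_mul, map_natCast, hr, ← hu, Units.mul_inv, map_one, sub_self]
    rw [Ideal.Quotient.eq_zero_iff_mem, Ideal.mem_span_singleton] at h2
    obtain ⟨c, hc⟩ := h2
    obtain ⟨k, hk⟩ := hpN
    apply hpu
    apply IsUnit.of_mul_eq_one (r - k * c)
    rw [mul_sub, ← mul_assoc, ← Nat.cast_mul, ← hk, ← hc]
    ring
  obtain ⟨M, hM, hpM⟩ := exists_max_ideal_of_mem_nonunits h1
  exact ⟨⟨M, hM⟩, hpM⟩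

/-- the classes `Θ(n)` vanish over a ring in which the idempotents `kappa` become trivial -/
private theorem Theta_kill {O : Type} [CommRing O] [IsDomain O] [CharZero O] (N : ℕ) [NeZero N]
    [HasEnoughRootsOfUnity O N] [Finite (Amod O N)] {Om : Type} [CommRing Om] [IsDomain Om]
    [CharZero Om] (f : O →+* Om) (m : Pr O N) [DecidableEq (Pr O N)]
    (hκ : ∀ (m' : Pr O N) (r : O), Ideal.Quotient.mk (Ideal.span {(N : O)}) r = kappa O N m' →
      Ideal.Quotient.mk (Ideal.span {(N : Om)}) (f r) = if m' = m then 1 else 0)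
    (C : Type v) [Group C] [Finite C] (hC : ∀ a b : C, a * b = b * a) (hN : Nat.card C ∣ N)
    (n : (C →* Oˣ) → Pr O N → ℤ) :
    Km1.map (MonoidAlgebra.mapRingHom C f) (Theta N C hC hN n) = 0 := by
  classical
  have hfd := finite_dual (O := O) N hC hN
  have : Fintype (C →* Oˣ) := Fintype.ofFinite _
  let F : SqHom (sqC (RingHom.id O) N C hC hN) (sqC f N C hC hN) :=
    { a := MonoidAlgebra.mapRingHom C f
      b := f.compLeft (C →* Oˣ)
      c := (Ideal.quotientMap (Ideal.span {(N : Om)}) f (detOne_N_le N f)).compLeft (C →* Oˣ)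
      hφ := fun x => (RingHom.congr_fun
        (detOne_fou_comp (RingHom.id O) f f (RingHom.comp_id f) C) x).symm
      hπ := fun x => rfl }
  have h1 := Sq.DD_map F (uN n)
  change Km1.map F.a ((sqC (RingHom.id O) N C hC hN).DD.D (uN n)) = 0
  rw [← h1]
  set k : (C →* Oˣ) → ℤ := fun χ => n χ m with hk
  have hk0 : k + -k = 0 := add_neg_cancel k
  have hk1 : -k + k = 0 := neg_add_cancel k
  refine Sq.DD_lift (sqC f N C hC hN) (m := Unit)
    { val := Matrix.of fun _ _ => detOneW Om k
      inv := Matrix.of fun _ _ => detOneW Om (-k)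
      val_inv := by
        ext i l : 1
        simp [Matrix.mul_apply, detOne_W_mul, detOne_W_zero,
          Subsingleton.elim i l]
      inv_val := by
        ext i l : 1
        simp [Matrix.mul_apply, detOne_W_mul, detOne_W_zero,
          Subsingleton.elim i l] } _ ?_
  ext i l : 1
  change lau ((Ideal.quotientMap (Ideal.span {(N : Om)}) f (detOne_N_le N f)).compLeft (C →* Oˣ))
    (un n) = lau (sqC f N C hC hN).π (detOneW Om k)
  apply cmp_ext
  intro χ
  rw [detOne_cmp_lau, cmp_un]
  have e1 : cmp χ (lau (sqC f N C hC hN).π (detOneW Om k)) =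
      lau (Ideal.Quotient.mk (Ideal.span {(N : Om)})) (cmp χ (detOneW Om k)) := by
    apply ext_coeff
    intro l
    rw [cmp_coeff, lau_coeff, lau_coeff, cmp_coeff]
    rfl
  rw [e1, detOne_cmp_W, lau_single, map_one]
  unfold unComp
  rw [map_sum, Finset.sum_eq_single m]
  · rw [lau_single]
    obtain ⟨r, hr⟩ := Ideal.Quotient.mk_surjective (kappa O N m)
    rw [← hr, Ideal.quotientMap_mk, hκ m r hr, if_pos rfl]
  · intro m' _ hm'
    rw [lau_single]
    obtain ⟨r, hr⟩ := Ideal.Quotient.mk_surjective (kappa O N m')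
    rw [← hr, Ideal.quotientMap_mk, hκ m' r hr, if_neg hm', AddMonoidAlgebra.single_zero]
  · intro hm
    exact absurd (Finset.mem_univ _) hm

private theorem mapRing_comp' {R S T : Type} [CommRing R] [CommRing S] [CommRing T] {H : Type v}
    [Group H] (g : S →+* T) (f : R →+* S) :
    (MonoidAlgebra.mapRingHom H g).comp (MonoidAlgebra.mapRingHom H f) =
      MonoidAlgebra.mapRingHom H (g.comp f) := by
  apply RingHom.ext
  intro x
  induction x using MonoidAlgebra.induction_linear with
  | zero => simp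
  | add a b ha hb => rw [map_add, map_add, ha, hb]
  | single c r =>
    rw [RingHom.comp_apply, MonoidAlgebra.mapRingHom_single, MonoidAlgebra.mapRingHom_single,
      MonoidAlgebra.mapRingHom_single]
    rfl

end Loc

theorem kill_all (p : ℕ) [Fact p.Prime] (G : Type u) [Group G] (j : ℕ) (W : HnKm1 ℤ G j) :
    Kill p G j W := by
  classical
  have hp : p.Prime := Fact.out
  obtain ⟨M, r, C, hf, x, z, hM, hcyc, hMw⟩ := exists_cycN W
  obtain ⟨N, hN⟩ : ∃ N : ℕ, N = p * ∏ i, Nat.card (C i) := ⟨_, rfl⟩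
  have hN0 : NeZero N := ⟨by
    rw [hN]
    refine mul_ne_zero hp.ne_zero ?_
    rw [Finset.prod_ne_zero_iff]
    intro i _
    exact Nat.card_pos.ne'⟩
  have hdvd : ∀ i, Nat.card (C i) ∣ N := fun i => by
    rw [hN]
    exact (Finset.dvd_prod_of_mem _ (Finset.mem_univ i)).mul_left p
  have h1 : HasEnoughRootsOfUnity (NumberField.RingOfIntegers (CyclotomicField N ℚ)) N :=
    Pool.Agent.H95.KM.enough_roots N
  have h2 : Finite (Pool.Agent.H95.KM.Amod (NumberField.RingOfIntegers (CyclotomicField N ℚ)) N) :=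
    Pool.Agent.H95.KM.finite_Amod (NumberField.RingOfIntegers (CyclotomicField N ℚ)) N
  have hsurj : ∀ i, ∃ n, Pool.Agent.H95.KM.Km1.map (MonoidAlgebra.mapRingHom (C i)
      (Int.castRingHom (NumberField.RingOfIntegers (CyclotomicField N ℚ)))) (x i) =
      Pool.Agent.H95.KM.Theta N (C i) (Pool.Agent.H95.KM.comm_of_cyclic (hcyc i)) (hdvd i) n :=
    fun i => Pool.Agent.H95.KM.Theta_surj N _ _ _ _
  choose n hn using hsurj
  have hpu : ¬ IsUnit ((p : ℕ) : NumberField.RingOfIntegers (CyclotomicField N ℚ)) := by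
    intro h
    have h5 := h.map (Algebra.norm ℤ)
    have h6 : Algebra.norm ℤ ((p : ℕ) : NumberField.RingOfIntegers (CyclotomicField N ℚ)) =
        (p : ℤ) ^ Module.finrank ℤ (NumberField.RingOfIntegers (CyclotomicField N ℚ)) := by
      have h7 := Algebra.norm_algebraMap (S := NumberField.RingOfIntegers (CyclotomicField N ℚ))
        ((p : ℕ) : ℤ)
      rwa [map_natCast] at h7
    rw [h6, isUnit_pow_iff (Module.finrank_pos (R := ℤ)
      (M := NumberField.RingOfIntegers (CyclotomicField N ℚ))).ne', Int.isUnit_iff_natAbs_eq,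
      Int.natAbs_natCast] at h5
    exact hp.one_lt.ne' h5
  obtain ⟨m, hm⟩ := exists_prM (O := NumberField.RingOfIntegers (CyclotomicField N ℚ)) N p
    (by rw [hN]; exact dvd_mul_right p _) hpu
  obtain ⟨B, iB, iD, iC, f, hsep, hun, hκ⟩ := exists_locU N m p hp hm
  refine ⟨B, iB, iD, iC, hsep, hun, M, hM, ?_⟩
  rw [← map_zsmul, ← map_zsmul, hMw, map_sum, map_sum]
  refine Finset.sum_eq_zero fun i _ => ?_
  rw [asmKm1_sym, map_pr]
  have h3 : Pool.Agent.H95.KM.Km1.map (MonoidAlgebra.mapRingHom (C i) (Int.castRingHom B)) (x i) =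
      0 := by
    have h4 : (MonoidAlgebra.mapRingHom (C i) (Int.castRingHom B)) =
        (MonoidAlgebra.mapRingHom (C i) f).comp (MonoidAlgebra.mapRingHom (C i)
          (Int.castRingHom (NumberField.RingOfIntegers (CyclotomicField N ℚ)))) := by
      rw [mapRing_comp']
      congr 1
      exact Subsingleton.elim _ _
    rw [h4, ← Pool.Agent.H95.KM.Km1.map_map, hn i]
    exact Theta_kill N f m hκ (C i) _ _ _
  rw [h3, map_zero, AddMonoidHom.zero_apply]

end Pool.Agent.H39.KL
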