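import Pool.Agent.H39.KL.LamE

/-!
# Project KL: the functional on matrices congruent to one

PROOF of `lamQ_lead`.  Let `A` with `U = 1 + p ^ k A`.  Let `J` be a natural number with `k * J ≥ 2 * k + m + 1` and `J ≥ 2`
(`k ≥ 1`), `R = B[X] / (X ^ J)` (`Polynomial B ⧸ Ideal.span {X ^ J}`), `ξ` the class of `X`.  `1 + ξ A` is invertible over `R[C]`
(`ξ A` is nilpotent: entries of matrices over a commutative ring, `IsNilpotent.isUnit_one_add` in the ring of matrices); let
`V` be it, `λ = lamQ p m d τ V : R`, `λ = ∑ λ_s ξ ^ s`.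
(1) `(p : R) ^ (m - r + 1) ∣ λ` by `lamQ_dvd`; so `p ^ (m - r + 1) ∣ λ_s` for all `s < J` (a representative of the quotient is
`p ^ (m - r + 1) g + X ^ J h`; compare coefficients).
(2) `λ_0 = 0`, `λ_1 = p ^ (m + r) * tr (A_d)`: map to the dual numbers and `lamQ_eps`, `lamQ_map`.
(3) the homomorphism `R → B ⧸ (p ^ (k J))`, `ξ ↦ p ^ k`, maps `V` to the image of `U`, so by `lamQ_map` for both
`lamQ U = ∑_{s ≥ 1} λ_s p ^ (k s)` modulo `p ^ (k J)`: this is `p ^ k λ_1` modulo `p ^ (2 k + m - r + 1)`.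
PROOF of `lamQ_log`.  `U ^ (p ^ l) ≡ 1` mod `p ^ (k + l)` (`k ≥ 2`, induction on `l`; commuting with `1`), `lamQ_lead` for it with
`k + l`, and `lamQ_pow`.
-/

set_option autoImplicit false

open Matrix

universe u v w

namespace Pool.Agent.H39.KL

open Pool.Agent.H71.FQ Pool.Agent.H16.KN

section

variable {C : Type u} [Group C] {B : Type v} [CommRing B] {p m r : ℕ} [Fact p.Prime]

private theorem val_mapGL {B' : Type w} [CommRing B'] (f : B →+* B') {N : ℕ} (s : B)
    (A : Matrix (Fin N) (Fin N) (MonoidAlgebra B C)) (U : GLm N (MonoidAlgebra B C))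
    (hU : U.val = 1 + s • A) :
    (mapGL (MonoidAlgebra.mapRingHom C f) N U).val =
      1 + f s • A.map (MonoidAlgebra.mapRingHom C f) := by
  classical
  rw [mapGL_val, hU]
  ext i j : 1
  rw [Matrix.map_apply, Matrix.add_apply, Matrix.add_apply, map_add, Matrix.smul_apply,
    Matrix.smul_apply, Matrix.map_apply]
  congr 1
  · by_cases hij : i = j
    · subst hij
      rw [Matrix.one_apply_eq, Matrix.one_apply_eq, map_one]
    · rw [Matrix.one_apply_ne hij, Matrix.one_apply_ne hij, map_zero]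
  · apply MonoidAlgebra.coeff_injective
    ext x
    rw [MonoidAlgebra.coeff_mapRingHom, MonoidAlgebra.coeff_smul, MonoidAlgebra.coeff_smul,
      Finsupp.smul_apply, Finsupp.smul_apply, MonoidAlgebra.coeff_mapRingHom, smul_eq_mul,
      smul_eq_mul, map_mul]

private theorem trace_cof_map {B' : Type w} [CommRing B'] (f : B →+* B') {N : ℕ}
    (A : Matrix (Fin N) (Fin N) (MonoidAlgebra B C)) (d : C) :
    (cof (A.map (MonoidAlgebra.mapRingHom C f)) d).trace = f (cof A d).trace := by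
  unfold Matrix.trace
  rw [map_sum]
  refine Finset.sum_congr rfl fun i _ => ?_
  show (MonoidAlgebra.mapRingHom C f (A i i)).coeff d = f ((A i i).coeff d)
  rw [MonoidAlgebra.coeff_mapRingHom]

private theorem exists_unit {N : ℕ} (s : B) {n : ℕ} (hs : s ^ n = 0)
    (A : Matrix (Fin N) (Fin N) (MonoidAlgebra B C)) :
    ∃ V : GLm N (MonoidAlgebra B C), V.val = 1 + s • A := by
  have h1 : IsNilpotent (s • A) := ⟨n, by rw [smul_pow, hs, zero_smul]⟩
  exact ⟨h1.isUnit_one_add.unit, rfl⟩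

private theorem poly_split (g : Polynomial B) : ∃ (h : Polynomial B) (a b : B),
    g = (h * Polynomial.X + Polynomial.C b) * Polynomial.X + Polynomial.C a :=
  ⟨g.divX.divX, g.coeff 0, g.divX.coeff 0, by
    rw [Polynomial.divX_mul_X_add, Polynomial.divX_mul_X_add]⟩

theorem lamQ_lead [Finite C] (hC : ∀ a b : C, a * b = b * a) (hrm : r < m)
    (hG : ∀ g : C, (∃ j : ℕ, g ^ p ^ j = 1) → g ^ p ^ r = 1) {d : C} (hpd : p ∣ orderOf d)
    {τ : (Fin (p ^ m) → C) → ZMod (p ^ m)} (hτ : IsTau p m r d τ) {N k : ℕ} (hk : 0 < k)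
    (A : Matrix (Fin N) (Fin N) (MonoidAlgebra B C)) (U : GLm N (MonoidAlgebra B C))
    (hU : U.val = 1 + ((p : B) ^ k) • A) :
    (p : B) ^ (2 * k + (m - r + 1)) ∣
      lamQ p m d τ U - (p : B) ^ (m + r) * ((p : B) ^ k * (cof A d).trace) := by
  have hd : IsOfFinOrder d := isOfFinOrder_of_finite d
  obtain ⟨e, he⟩ : ∃ e, e = m - r + 1 := ⟨_, rfl⟩
  obtain ⟨J, hJ⟩ : ∃ J, J = 2 * k + e + 2 := ⟨_, rfl⟩
  rw [← he]
  let R := Polynomial B ⧸ Ideal.span {(Polynomial.X : Polynomial B) ^ J}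
  let q : Polynomial B →+* R := Ideal.Quotient.mk _
  let ξ : R := q Polynomial.X
  have hξ : ξ ^ J = 0 := by
    show q Polynomial.X ^ J = 0
    rw [← map_pow]
    exact Ideal.Quotient.eq_zero_iff_mem.2 (Ideal.subset_span rfl)
  let ι : B →+* R := q.comp Polynomial.C
  let AR : Matrix (Fin N) (Fin N) (MonoidAlgebra R C) := A.map (MonoidAlgebra.mapRingHom C ι)
  obtain ⟨V, hV⟩ : ∃ V : GLm N (MonoidAlgebra R C), V.val = 1 + ξ • AR := exists_unit ξ hξ AR
  obtain ⟨μ, hμ⟩ := lamQ_dvd (B := R) hrm.le hG hd hpd hτ V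
  obtain ⟨g, hg⟩ : ∃ g, q g = μ := Ideal.Quotient.mk_surjective μ
  rw [← he] at hμ
  obtain ⟨h, a, b, hgab⟩ := poly_split g
  have key : ∀ (S : Type v) [CommRing S] (f : B →+* S) (s : S), s ^ J = 0 →
      ∀ W : GLm N (MonoidAlgebra S C), W.val = 1 + s • A.map (MonoidAlgebra.mapRingHom C f) →
      lamQ p m d τ W = (p : S) ^ e * ((Polynomial.eval₂ f s h * s + f b) * s + f a) := by
    intro S _ f s hs W hW
    have hker : ∀ x ∈ Ideal.span {(Polynomial.X : Polynomial B) ^ J},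
        Polynomial.eval₂RingHom f s x = 0 := by
      intro x hx
      obtain ⟨y, rfl⟩ := Ideal.mem_span_singleton'.1 hx
      rw [map_mul, map_pow, Polynomial.coe_eval₂RingHom, Polynomial.eval₂_X, hs, mul_zero]
    let ψ : R →+* S := Ideal.Quotient.lift _ (Polynomial.eval₂RingHom f s) hker
    have hψq : ∀ x, ψ (q x) = Polynomial.eval₂ f s x := fun x => Ideal.Quotient.lift_mk _ _ _
    have hψξ : ψ ξ = s := (hψq _).trans (Polynomial.eval₂_X _ _)
    have hψι : ψ.comp ι = f := RingHom.ext fun x => (hψq _).trans (Polynomial.eval₂_C _ _)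
    have hVW : mapGL (MonoidAlgebra.mapRingHom C ψ) N V = W := by
      apply Units.ext
      rw [val_mapGL ψ ξ AR V hV, hψξ, hW]
      congr 2
      ext i j y
      show (MonoidAlgebra.mapRingHom C ψ (MonoidAlgebra.mapRingHom C ι (A i j))).coeff y =
        (MonoidAlgebra.mapRingHom C f (A i j)).coeff y
      rw [MonoidAlgebra.coeff_mapRingHom, MonoidAlgebra.coeff_mapRingHom,
        MonoidAlgebra.coeff_mapRingHom, ← hψι]
      rfl
    rw [← hVW, lamQ_map ψ hτ V, hμ, ← hg, map_mul, map_pow, map_natCast, hψq, hgab]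
    simp only [Polynomial.eval₂_add, Polynomial.eval₂_mul, Polynomial.eval₂_X,
      Polynomial.eval₂_C]
  -- the dual numbers
  have hdual : (p : B) ^ e * a = 0 ∧ (p : B) ^ e * b = (p : B) ^ (m + r) * (cof A d).trace := by
    let f : B →+* DualNumber B := TrivSqZeroExt.inlHom B B
    have hε : (DualNumber.eps : DualNumber B) ^ 2 = 0 := by
      rw [sq]
      exact DualNumber.eps_mul_eps
    have hεJ : (DualNumber.eps : DualNumber B) ^ J = 0 := by
      rw [hJ, pow_add, hε, mul_zero]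
    obtain ⟨W, hW⟩ : ∃ W : GLm N (MonoidAlgebra (DualNumber B) C),
        W.val = 1 + (DualNumber.eps : DualNumber B) • A.map (MonoidAlgebra.mapRingHom C f) :=
      exists_unit _ hε _
    have h1 := key (DualNumber B) f DualNumber.eps hεJ W hW
    have h2 := lamQ_eps (B := DualNumber B) hC hrm hpd hτ DualNumber.eps hε
      (A.map (MonoidAlgebra.mapRingHom C f)) W hW
    rw [h2, trace_cof_map] at h1
    have h3 : (Polynomial.eval₂ f (DualNumber.eps : DualNumber B) h * DualNumber.eps + f b) *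
        DualNumber.eps + f a = f b * DualNumber.eps + f a := by
      rw [add_mul, mul_assoc, DualNumber.eps_mul_eps, mul_zero, zero_add]
    rw [h3] at h1
    have hp1 : (p : DualNumber B) = f (p : B) := (map_natCast f p).symm
    rw [hp1, ← map_pow, ← map_pow] at h1
    constructor
    · have h4 := congrArg TrivSqZeroExt.fst h1
      simpa [f] using h4.symm
    · have h4 := congrArg TrivSqZeroExt.snd h1
      simpa [f] using h4.symm
  obtain ⟨h0, h1⟩ := hdual
  -- the quotient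
  let I : Ideal B := Ideal.span {(p : B) ^ (k * J)}
  have hs : (Ideal.Quotient.mk I ((p : B) ^ k)) ^ J = 0 := by
    rw [← map_pow, ← pow_mul]
    exact Ideal.Quotient.eq_zero_iff_mem.2 (Ideal.subset_span rfl)
  have h2 := key (B ⧸ I) (Ideal.Quotient.mk I) (Ideal.Quotient.mk I ((p : B) ^ k)) hs
    (mapGL (MonoidAlgebra.mapRingHom C (Ideal.Quotient.mk I)) N U)
    (val_mapGL (Ideal.Quotient.mk I) _ A U hU)
  rw [lamQ_map (Ideal.Quotient.mk I) hτ U] at h2
  have h3 : Polynomial.eval₂ (Ideal.Quotient.mk I) (Ideal.Quotient.mk I ((p : B) ^ k)) h =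
      Ideal.Quotient.mk I (h.eval ((p : B) ^ k)) := by
    rw [Polynomial.eval₂_at_apply]
  have h4 : ((p : ℕ) : B ⧸ I) = Ideal.Quotient.mk I (p : B) := (map_natCast _ p).symm
  rw [h3, h4, ← map_pow, ← map_mul, ← map_add, ← map_mul, ← map_add, ← map_mul,
    Ideal.Quotient.mk_eq_mk_iff_sub_mem, Ideal.mem_span_singleton] at h2
  have h5 : (p : B) ^ (2 * k + e) ∣ (p : B) ^ (k * J) := by
    refine pow_dvd_pow _ ?_
    calc 2 * k + e ≤ 1 * J := by omega
      _ ≤ k * J := Nat.mul_le_mul_right _ hk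
  obtain ⟨x, hx⟩ := h5.trans h2
  refine ⟨x + h.eval ((p : B) ^ k), ?_⟩
  have e1 : (p : B) ^ (2 * k + e) = (p : B) ^ e * ((p : B) ^ k * (p : B) ^ k) := by
    rw [← pow_add, ← pow_add]
    congr 1
    omega
  rw [e1] at hx ⊢
  linear_combination hx + h0 + (p : B) ^ k * h1

private theorem one_add_pow {S : Type w} [Ring S] (x : S) (n : ℕ) :
    ∃ y : S, (1 + x) ^ n = 1 + n • x + x ^ 2 * y := by
  induction n with
  | zero => exact ⟨0, by simp⟩
  | succ n ih =>
    obtain ⟨y, hy⟩ := ih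
    refine ⟨n • 1 + y + y * x, ?_⟩
    rw [pow_succ, hy, add_smul, one_smul]
    noncomm_ring

private theorem pow_step {S : Type w} [Ring S] {k : ℕ} (hk : 2 ≤ k) (U A : S)
    (hU : U = 1 + (p ^ k : ℕ) • A) : ∃ A' : S, U ^ p = 1 + (p ^ (k + 1) : ℕ) • A' := by
  obtain ⟨y, hy⟩ := one_add_pow ((p ^ k : ℕ) • A) p
  refine ⟨A + (p ^ (k - 1)) • (A ^ 2 * y), ?_⟩
  rw [hU, hy, smul_pow, smul_add, add_assoc]
  congr 2
  · rw [smul_smul, pow_succ, mul_comm]
  · rw [smul_mul_assoc, smul_smul, ← pow_mul, ← pow_add]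
    congr 2
    omega

theorem pow_congr_one {S : Type w} [Ring S] {k : ℕ} (hk : 2 ≤ k) (l : ℕ) (U A : S)
    (hU : U = 1 + (p ^ k : ℕ) • A) : ∃ A' : S, U ^ p ^ l = 1 + (p ^ (k + l) : ℕ) • A' := by
  induction l with
  | zero => exact ⟨A, by rw [pow_zero, pow_one, add_zero, hU]⟩
  | succ l ih =>
    obtain ⟨A', hA'⟩ := ih
    obtain ⟨A'', hA''⟩ := pow_step (p := p) (by omega : 2 ≤ k + l) _ A' hA'
    exact ⟨A'', by rw [pow_succ, pow_mul, hA'', add_assoc]⟩

/-- **The functional and the logarithm.** -/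
theorem lamQ_log [Finite C] (hC : ∀ a b : C, a * b = b * a) (hrm : r < m)
    (hG : ∀ g : C, (∃ j : ℕ, g ^ p ^ j = 1) → g ^ p ^ r = 1) {d : C} (hpd : p ∣ orderOf d)
    {τ : (Fin (p ^ m) → C) → ZMod (p ^ m)} (hτ : IsTau p m r d τ) {N : ℕ}
    (A : Matrix (Fin N) (Fin N) (MonoidAlgebra B C)) (U : GLm N (MonoidAlgebra B C))
    (hU : U.val = 1 + ((p : B) ^ 2) • A) (l : ℕ) :
    ∃ x y : B, (p : B) ^ l * lamQ p m d τ U =
      (p : B) ^ (m + r) * (cof ((U ^ p ^ l : GLm N (MonoidAlgebra B C)).val - 1) d).trace +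
        (p : B) ^ (2 * l + (m - r + 1)) * x + (p : B) ^ (m + (m - r + 1)) * y := by
  have hd : IsOfFinOrder d := isOfFinOrder_of_finite d
  have hns : ∀ (n : ℕ) (M : Matrix (Fin N) (Fin N) (MonoidAlgebra B C)),
      (p ^ n : ℕ) • M = ((p : B) ^ n) • M := by
    intro n M
    rw [← Nat.cast_pow, Nat.cast_smul_eq_nsmul]
  obtain ⟨A', hA'⟩ := pow_congr_one (p := p) (le_refl 2) l U.val A (by rw [hU, hns])
  have hUl : (U ^ p ^ l : GLm N (MonoidAlgebra B C)).val = 1 + ((p : B) ^ (2 + l)) • A' := by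
    rw [Units.val_pow_eq_pow_val, hA', hns]
  obtain ⟨x, hx⟩ := lamQ_lead hC hrm hG hpd hτ (by omega : 0 < 2 + l) A' _ hUl
  obtain ⟨y, hy⟩ := lamQ_pow hrm.le hG hd hpd hτ U (p ^ l)
  have htr : (cof ((U ^ p ^ l : GLm N (MonoidAlgebra B C)).val - 1) d).trace =
      (p : B) ^ (2 + l) * (cof A' d).trace := by
    rw [hUl, add_sub_cancel_left]
    unfold Matrix.trace
    rw [Finset.mul_sum]
    rfl
  refine ⟨(p : B) ^ 4 * x, -y, ?_⟩
  rw [htr]
  rw [Nat.cast_pow] at hy
  have e1 : (p : B) ^ (2 * (2 + l) + (m - r + 1)) =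
      (p : B) ^ (2 * l + (m - r + 1)) * (p : B) ^ 4 := by
    rw [← pow_add]
    congr 1
    omega
  rw [e1] at hx
  linear_combination hx - hy

end

end Pool.Agent.H39.KL
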