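import Pool.Agent.H39.KL.LamA

/-!
# Project KL: the functional on `(1, U)`: the value for `U = 1 + ε A`, `ε ^ 2 = 0`

PROOF of `lamQ_eps`: `ε` with `ε ^ 2 = 0`, `U = 1 + ε A`, so `U⁻¹ = 1 - ε A`.  By `TM_eq` with `S = univ` (`C` finite) the value is the sum over
the words `α : Fin (2 q) → C` of the trace of the product of the coefficients `[α_t = 1] ± ε A_{α_t}` (`+` for `t` even, `-`
for `t` odd) times `wv`; the product is `∏ [α_t = 1] ± ε ∑_t (…)`, so only the words with at most one letter `≠ 1` contribute;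
the product of the word must be `d ≠ 1` (`C` is commutative, `p ∣ orderOf d`): so exactly one letter is `d`.
For `t = 2 b` the vertices (`u = 1`) are `v_0 = (1, …, 1, d, …, d)` (`1` for the indices `≤ b`) and `v_1 = (1, …, 1, d, …, d)` (`1`
for the indices `< b`), i.e. `v_1 = sig q d v_0`, and `tl = val (p ^ r) = p ^ r` (`r < m`).  For `t = 2 b + 1` `v_1 = v_0` and `tl = 0`.
The sum over `b` gives `q * p ^ r * ε * tr (A_d)`.
-/

set_option autoImplicit false

open Matrix

universe u v w

namespace Pool.Agent.H39.KL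

open Pool.Agent.H71.FQ Pool.Agent.H16.KN

section

/-- the product of factors `c_t + ε X_t` -/
private theorem prod_eps {B : Type v} [CommRing B] {R : Type w} [Ring R] [Algebra B R] {ε : B}
    (hε : ε ^ 2 = 0) {n : ℕ} (c : Fin n → B) (X : Fin n → R) :
    (List.ofFn fun t => c t • (1 : R) + ε • X t).prod =
      (∏ t, c t) • (1 : R) + ε • ∑ t, (∏ s, if s = t then 1 else c s) • X t := by
  induction n with
  | zero => simp
  | succ n ih =>
    rw [List.ofFn_succ, List.prod_cons, ih (fun t => c t.succ) (fun t => X t.succ),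
      Fin.prod_univ_succ, Fin.sum_univ_succ]
    have h0 : (∏ s : Fin (n + 1), if s = 0 then 1 else c s) = ∏ s : Fin n, c s.succ := by
      rw [Fin.prod_univ_succ, if_pos rfl, one_mul]
      refine Finset.prod_congr rfl fun s _ => ?_
      rw [if_neg (Fin.succ_ne_zero s)]
    have h1 : ∀ t : Fin n, (∏ s : Fin (n + 1), if s = t.succ then 1 else c s) =
        c 0 * ∏ s : Fin n, if s = t then 1 else c s.succ := by
      intro t
      rw [Fin.prod_univ_succ, if_neg (Fin.succ_ne_zero t).symm]
      congr 1
      refine Finset.prod_congr rfl fun s _ => ?_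
      simp only [Fin.succ_inj]
    rw [h0]
    have h2 : (∑ t : Fin n, (∏ s : Fin (n + 1), if s = t.succ then 1 else c s) • X t.succ) =
        c 0 • ∑ t : Fin n, (∏ s : Fin n, if s = t then 1 else c s.succ) • X t.succ := by
      rw [Finset.smul_sum]
      refine Finset.sum_congr rfl fun t _ => ?_
      rw [h1 t, mul_smul]
    rw [h2]
    set S := ∑ t : Fin n, (∏ s : Fin n, if s = t then 1 else c s.succ) • X t.succ with hS
    set P := ∏ s : Fin n, c s.succ with hP
    have he : ε * ε = 0 := by rw [← sq]; exact hε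
    rw [add_mul, mul_add, mul_add, smul_mul_smul_comm, smul_mul_smul_comm, smul_mul_smul_comm,
      smul_mul_smul_comm, he, zero_smul, one_mul, one_mul, mul_one]
    module

variable {C : Type u} [Group C] {B : Type v} [CommRing B]

private theorem TM_eq' {K : ℕ} [Fintype C] {c : C} {φ : (Fin K → C) → B} (hφ : CI c φ) {N : ℕ}
    (b : Fin K → Matrix (Fin N) (Fin N) (MonoidAlgebra B C)) :
    TM c φ b = ∑ g : Fin K → C,
      ((List.ofFn fun j => cof (b j) (g j)).prod).trace * wv c φ g := by
  rw [TM_eq hφ b Finset.univ fun _ _ _ => Finset.mem_univ _]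
  exact Fintype.sum_equiv (Equiv.arrowCongr (Equiv.refl _)
    (Equiv.subtypeUnivEquiv fun x => Finset.mem_univ x)) _ _ fun g => rfl

open Classical in
private theorem cof_one_add {N : ℕ} (A : Matrix (Fin N) (Fin N) (MonoidAlgebra B C)) (ε : B)
    (a : C) : cof (1 + ε • A) a = (if a = 1 then (1 : B) else 0) •
      (1 : Matrix (Fin N) (Fin N) B) + ε • cof A a := by
  ext i j
  show ((1 : Matrix (Fin N) (Fin N) (MonoidAlgebra B C)) i j + ε • A i j).coeff a = _
  rw [MonoidAlgebra.coeff_add, Finsupp.add_apply, Matrix.add_apply, Matrix.smul_apply,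
    Matrix.smul_apply]
  congr 1
  by_cases hij : i = j
  · subst hij
    rw [Matrix.one_apply_eq, Matrix.one_apply_eq, MonoidAlgebra.one_def,
      MonoidAlgebra.coeff_single]
    by_cases ha : a = 1
    · rw [if_pos ha, ha, Finsupp.single_eq_same, smul_eq_mul, mul_one]
    · rw [if_neg ha, Finsupp.single_eq_of_ne ha, zero_smul]
  · rw [Matrix.one_apply_ne hij, Matrix.one_apply_ne hij, smul_zero]
    rfl

private theorem take_update {K : ℕ} (t : Fin K) (a : C) (s : ℕ) (hs : s ≤ K) :
    ((List.ofFn (Function.update (fun _ : Fin K => (1 : C)) t a)).take s).prod =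
      if s ≤ (t : ℕ) then 1 else a := by
  induction s with
  | zero => rw [List.take_zero, List.prod_nil, if_pos (Nat.zero_le _)]
  | succ s ih =>
    have hl : s < (List.ofFn (Function.update (fun _ : Fin K => (1 : C)) t a)).length := by
      rw [List.length_ofFn]
      omega
    rw [List.take_succ_eq_append_getElem hl, List.prod_append, List.prod_singleton,
      List.getElem_ofFn, ih (by omega)]
    rcases lt_trichotomy s (t : ℕ) with h | h | h
    · rw [if_pos h.le, if_pos (by omega), one_mul,
        Function.update_of_ne (fun h1 => h.ne (congrArg Fin.val h1))]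
    · rw [if_pos h.le, if_neg (by omega), one_mul,
        show (⟨s, by omega⟩ : Fin K) = t from Fin.ext h, Function.update_self]
    · rw [if_neg (by omega), if_neg (by omega),
        Function.update_of_ne (fun h1 => h.ne' (congrArg Fin.val h1)), mul_one]

/-- words with one letter `≠ 1` -/
private theorem TM_eps {K : ℕ} [Finite C] (hC : ∀ a b : C, a * b = b * a) {d : C} (hd : d ≠ 1)
    {φ : (Fin K → C) → B} (hφ : CI d φ) {N : ℕ} {ε : B} (hε : ε ^ 2 = 0)
    (A : Fin K → Matrix (Fin N) (Fin N) (MonoidAlgebra B C)) :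
    TM d φ (fun t => 1 + ε • A t) = ∑ t, ε * (cof (A t) d).trace *
      φ (fun s => if s ≤ t then 1 else d) := by
  classical
  have := Fintype.ofFinite C
  have hone : ∀ g : Fin K → C, (List.ofFn g).prod ≠ d → wv d φ g = 0 := by
    intro g hg
    refine wv_zero d φ g fun u hu => hg ?_
    rw [hC u, mul_assoc, mul_inv_cancel, mul_one] at hu
    exact hu
  rw [TM_eq' hφ]
  have h1 : ∀ g : Fin K → C, ((List.ofFn fun j => cof (1 + ε • A j) (g j)).prod).trace * wv d φ g =
      ∑ t, (∏ s, if s = t then 1 else if g s = 1 then (1 : B) else 0) *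
        (ε * (cof (A t) (g t)).trace) * wv d φ g := by
    intro g
    have h2 : (List.ofFn fun j => cof (1 + ε • A j) (g j)) = List.ofFn fun j =>
        (if g j = 1 then (1 : B) else 0) • (1 : Matrix (Fin N) (Fin N) B) + ε • cof (A j) (g j) := by
      congr 1
      funext j
      exact cof_one_add (A j) ε (g j)
    rw [h2, prod_eps hε, Matrix.trace_add, Matrix.trace_smul, Matrix.trace_smul,
      Matrix.trace_sum, add_mul]
    have h3 : (∏ t, if g t = 1 then (1 : B) else 0) • (1 : Matrix (Fin N) (Fin N) B).trace *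
        wv d φ g = 0 := by
      by_cases hg : ∀ t, g t = 1
      · rw [hone g, mul_zero]
        have h4 : g = fun _ => 1 := funext hg
        rw [h4]
        intro h5
        apply hd
        rw [← h5]
        refine List.prod_eq_one fun x hx => ?_
        rw [List.mem_ofFn] at hx
        obtain ⟨i, rfl⟩ := hx
        rfl
      · push Not at hg
        obtain ⟨t, ht⟩ := hg
        rw [Finset.prod_eq_zero (Finset.mem_univ t) (if_neg ht), zero_smul, zero_mul]
    rw [h3, zero_add, smul_eq_mul, Finset.mul_sum, Finset.sum_mul]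
    refine Finset.sum_congr rfl fun t _ => ?_
    rw [Matrix.trace_smul, smul_eq_mul]
    ring
  rw [Finset.sum_congr rfl fun g _ => h1 g, Finset.sum_comm]
  refine Finset.sum_congr rfl fun t _ => ?_
  have hprod : ∀ a : C, (List.ofFn (Function.update (fun _ : Fin K => (1 : C)) t a)).prod = a := by
    intro a
    have h2 := take_update t a K le_rfl
    rw [List.take_of_length_le (by rw [List.length_ofFn]), if_neg (not_le.2 t.2)] at h2
    exact h2
  rw [Finset.sum_eq_single (Function.update (fun _ => (1 : C)) t d)]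
  · rw [Function.update_self]
    have h2 : (∏ s, if s = t then 1 else
        if Function.update (fun _ => (1 : C)) t d s = 1 then (1 : B) else 0) = 1 := by
      refine Finset.prod_eq_one fun s _ => ?_
      by_cases hs : s = t
      · rw [if_pos hs]
      · rw [if_neg hs, Function.update_of_ne hs, if_pos rfl]
    rw [h2, one_mul]
    congr 1
    rw [wv_eq hφ _ 1 (by rw [hprod, one_mul, inv_one, mul_one])]
    congr 1
    funext s
    unfold vtx
    rw [take_update t d s s.2.le, one_mul]
    rfl
  · intro g _ hg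
    by_cases hs : ∀ s, s ≠ t → g s = 1
    · have hgt : g = Function.update (fun _ => (1 : C)) t (g t) := by
        funext s
        by_cases hst : s = t
        · rw [hst, Function.update_self]
        · rw [Function.update_of_ne hst, hs s hst]
      rw [hone g, mul_zero]
      rw [hgt, hprod]
      intro h5
      apply hg
      rw [hgt, h5]
    · push Not at hs
      obtain ⟨s, hst, hs⟩ := hs
      rw [Finset.prod_eq_zero (Finset.mem_univ s) (by rw [if_neg hst, if_neg hs]), zero_mul,
        zero_mul]
  · intro h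
    exact absurd (Finset.mem_univ _) h

private theorem lts_rep {k : ℕ} (q : ℕ) [NeZero q] {N : ℕ}
    (x : Fin (k + 1) → GLm N (MonoidAlgebra B C))
    (t : Fin (q * (k + 1))) : lts (rep q x) t = lts x (finProdFinEquiv.symm t).2 := by
  have h : (finProdFinEquiv.symm (t + 1)).2 = (finProdFinEquiv.symm t).2 + 1 := by
    apply Fin.ext
    show ((t + 1 : Fin (q * (k + 1))) : ℕ) % (k + 1) = _
    rw [Fin.val_add, Fin.val_add, Fin.val_one', Fin.val_one', Nat.add_mod_mod, Nat.add_mod_mod,
      Nat.mod_mul_left_mod]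
    show ((t : ℕ) + 1) % (k + 1) = ((t : ℕ) % (k + 1) + 1) % (k + 1)
    rw [Nat.mod_add_mod]
  unfold lts rep
  rw [h]

variable {p m r : ℕ} [Fact p.Prime]

theorem lamQ_eps [Finite C] (hC : ∀ a b : C, a * b = b * a) (hrm : r < m) {d : C}
    (hpd : p ∣ orderOf d) {τ : (Fin (p ^ m) → C) → ZMod (p ^ m)} (hτ : IsTau p m r d τ) (ε : B)
    (hε : ε ^ 2 = 0) {N : ℕ} (A : Matrix (Fin N) (Fin N) (MonoidAlgebra B C))
    (U : GLm N (MonoidAlgebra B C)) (hU : U.val = 1 + ε • A) :
    lamQ p m d τ U = (p : B) ^ (m + r) * (ε * (cof A d).trace) := by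
  have hp : p.Prime := Fact.out
  have hd : d ≠ 1 := by
    rintro rfl
    rw [orderOf_one] at hpd
    exact hp.one_lt.ne' (Nat.dvd_one.1 hpd)
  have hUinv : (U⁻¹).val = 1 + ε • (-A) := by
    have h1 : U.val * (1 + ε • (-A)) = 1 := by
      rw [hU, add_mul, one_mul, mul_add, mul_one, smul_mul_smul_comm, ← sq, hε, zero_smul,
        add_zero, smul_neg]
      abel
    rw [← Units.inv_eq_val_inv]
    calc U.inv = U.inv * (U.val * (1 + ε • (-A))) := by rw [h1, mul_one]
      _ = 1 + ε • (-A) := by rw [← mul_assoc, U.inv_val, one_mul]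
  have hΦ : CIq d (p ^ m) (phiG (k := 0) (fun _ => (1 : B)) τ) :=
    CIq_phiG (fun _ _ _ => rfl) hτ
  unfold lamQ
  rw [TR_t]
  unfold TT
  have hl : lts (rep (p ^ m) ![1, U]) = fun t => 1 + ε •
      (if (finProdFinEquiv.symm t).2 = 0 then A else -A) := by
    funext t
    rw [lts_rep]
    generalize (finProdFinEquiv.symm t).2 = j
    fin_cases j
    · show ((1 : GLm N (MonoidAlgebra B C))⁻¹ * U).val = 1 + ε • A
      rw [inv_one, one_mul, hU]
    · show (U⁻¹ * (1 : GLm N (MonoidAlgebra B C))).val = 1 + ε • (-A)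
      rw [mul_one, hUinv]
  rw [hl, TM_eps hC hd (fun g hg y => hΦ g hg _) hε, ← finProdFinEquiv.sum_comp,
    Fintype.sum_prod_type]
  have hval : ∀ (b : Fin (p ^ m)) (j : Fin (0 + 1 + 1)),
      ((finProdFinEquiv (b, j) : Fin (p ^ m * (0 + 1 + 1))) : ℕ) = j + 2 * b := fun b j =>
    finProdFinEquiv_apply_val _
  have hq1 : ((p : ZMod (p ^ m)) ^ r).val = p ^ r := by
    rw [← Nat.cast_pow, ZMod.val_natCast, Nat.mod_eq_of_lt (Nat.pow_lt_pow_right hp.one_lt hrm)]
  have key : ∀ b : Fin (p ^ m), (∑ j : Fin (0 + 1 + 1), ε *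
      (cof (if (finProdFinEquiv.symm (finProdFinEquiv (b, j))).2 = 0 then A else -A) d).trace *
        flat (p ^ m) (phiG (k := 0) (fun _ => (1 : B)) τ)
          (fun s => if s ≤ finProdFinEquiv (b, j) then 1 else d)) =
      (p : B) ^ r * (ε * (cof A d).trace) := by
    intro b
    rw [Fin.sum_univ_two]
    simp only [Equiv.symm_apply_apply, Fin.isValue, if_true]
    have h0 : flat (p ^ m) (phiG (k := 0) (fun _ => (1 : B)) τ)
        (fun s => if s ≤ finProdFinEquiv (b, (0 : Fin (0 + 1 + 1))) then 1 else d) =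
        (p : B) ^ r := by
      show (1 : B) * tl B τ
        (fun b' => if finProdFinEquiv (b', (0 : Fin (0 + 1 + 1))) ≤ finProdFinEquiv (b, 0)
          then 1 else d)
        (fun b' => if finProdFinEquiv (b', (1 : Fin (0 + 1 + 1))) ≤ finProdFinEquiv (b, 0)
          then 1 else d) = (p : B) ^ r
      have hs : (fun b' : Fin (p ^ m) => if finProdFinEquiv (b', (1 : Fin (0 + 1 + 1))) ≤
          finProdFinEquiv (b, 0) then 1 else d) = sig (p ^ m) d
          (fun b' => if finProdFinEquiv (b', (0 : Fin (0 + 1 + 1))) ≤ finProdFinEquiv (b, 0)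
            then 1 else d) := by
        funext b'
        have hb := b.2
        have hb' := b'.2
        unfold sig
        simp only [Fin.le_def, hval]
        by_cases h : (b' : ℕ) + 1 < p ^ m
        · rw [dif_pos h]
          by_cases h2 : (b' : ℕ) < b
          · rw [if_pos, if_pos]
            · show (0 : ℕ) + 2 * ((b' : ℕ) + 1) ≤ 0 + 2 * b
              omega
            · show 1 + 2 * (b' : ℕ) ≤ 0 + 2 * b
              omega
          · rw [if_neg, if_neg]
            · show ¬ ((0 : ℕ) + 2 * ((b' : ℕ) + 1) ≤ 0 + 2 * b)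
              omega
            · show ¬ (1 + 2 * (b' : ℕ) ≤ 0 + 2 * b)
              omega
        · rw [dif_neg h, if_neg, if_pos, mul_one]
          · show (0 : ℕ) + 2 * 0 ≤ 0 + 2 * b
            omega
          · show ¬ (1 + 2 * (b' : ℕ) ≤ 0 + 2 * b)
            omega
      rw [hs, one_mul]
      unfold tl
      rw [hτ.rot, add_sub_cancel_left, hq1, Nat.cast_pow]
    have h1 : flat (p ^ m) (phiG (k := 0) (fun _ => (1 : B)) τ)
        (fun s => if s ≤ finProdFinEquiv (b, (1 : Fin (0 + 1 + 1))) then 1 else d) = 0 := by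
      show (1 : B) * tl B τ
        (fun b' => if finProdFinEquiv (b', (0 : Fin (0 + 1 + 1))) ≤ finProdFinEquiv (b, 1)
          then 1 else d)
        (fun b' => if finProdFinEquiv (b', (1 : Fin (0 + 1 + 1))) ≤ finProdFinEquiv (b, 1)
          then 1 else d) = 0
      have hs : (fun b' : Fin (p ^ m) => if finProdFinEquiv (b', (1 : Fin (0 + 1 + 1))) ≤
          finProdFinEquiv (b, 1) then (1 : C) else d) =
          (fun b' => if finProdFinEquiv (b', (0 : Fin (0 + 1 + 1))) ≤ finProdFinEquiv (b, 1)
            then 1 else d) := by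
        funext b'
        simp only [Fin.le_def, hval]
        by_cases h2 : (b' : ℕ) ≤ b
        · rw [if_pos, if_pos]
          · show (0 : ℕ) + 2 * (b' : ℕ) ≤ 1 + 2 * b
            omega
          · show 1 + 2 * (b' : ℕ) ≤ 1 + 2 * b
            omega
        · rw [if_neg, if_neg]
          · show ¬ ((0 : ℕ) + 2 * (b' : ℕ) ≤ 1 + 2 * b)
            omega
          · show ¬ (1 + 2 * (b' : ℕ) ≤ 1 + 2 * b)
            omega
      rw [hs, one_mul]
      unfold tl
      rw [sub_self, ZMod.val_zero, Nat.cast_zero]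
    rw [h0, h1]
    ring
  rw [Finset.sum_congr rfl fun b _ => key b, Finset.sum_const, Finset.card_univ,
    Fintype.card_fin, nsmul_eq_mul, Nat.cast_pow, pow_add]
  ring

end

end Pool.Agent.H39.KL
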