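import Pool.Agent.H39.KL.RelC
import Pool.Agent.H39.KL.KillM
import Pool.Agent.H8.KL.LinK1

/-!
# Project KL: the relations of the functionals hold on the kernel

`kerQ G k` is the subgroup of all elements `w` of the `K₁`-part such that a multiple of the value of the assembly map on
`(y, w, W)` vanishes for some `y` and `W`.
-/

set_option autoImplicit false

open Matrix
open scoped LaurentPolynomial

universe u v w

namespace Pool.Agent.H39.KL

open Pool.Agent.H71.FQ Pool.Agent.H16.KN Pool.Agent.H16.FU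
open Pool.Agent.H95.WH (K1 K1.unit FamSub FinSub)

section

/-- the elements of the `K₁`-part with torsion value modulo the other parts -/
def kerQ (G : Type v) [Group G] (k : ℕ) : AddSubgroup (HnK1 ℤ G k) where
  carrier := {w | ∃ (y : HG G (k + 1)) (W : HnKm1 ℤ G (k + 2)) (M : ℤ), M ≠ 0 ∧
    M • asmAll G k (y, w, W) = 0}
  zero_mem' := ⟨0, 0, 1, one_ne_zero, by
    rw [one_smul]
    exact map_zero (asmAll G k)⟩
  add_mem' := by
    rintro w w' ⟨y, W, M, hM, h⟩ ⟨y', W', M', hM', h'⟩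
    refine ⟨y + y', W + W', M * M', mul_ne_zero hM hM', ?_⟩
    have e : ((y + y', w + w', W + W') : HG G (k + 1) × HnK1 ℤ G k × HnKm1 ℤ G (k + 2)) =
      (y, w, W) + (y', w', W') := rfl
    rw [e, map_add, smul_add, mul_comm M M', mul_smul, h, smul_zero, zero_add, mul_comm M' M,
      mul_smul, h', smul_zero]
  neg_mem' := by
    rintro w ⟨y, W, M, hM, h⟩
    refine ⟨-y, -W, M, hM, ?_⟩
    have e : ((-y, -w, -W) : HG G (k + 1) × HnK1 ℤ G k × HnKm1 ℤ G (k + 2)) = -(y, w, W) := rfl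
    rw [e, map_neg, smul_neg, h, neg_zero]

theorem mem_kerQ {G : Type v} [Group G] {k : ℕ} {w : HnK1 ℤ G k} :
    w ∈ kerQ G k ↔ ∃ (y : HG G (k + 1)) (W : HnKm1 ℤ G (k + 2)) (M : ℤ), M ≠ 0 ∧
      M • asmAll G k (y, w, W) = 0 := Iff.rfl

private theorem dvd_coeff {C : Type v} [Group C] (p : ℕ) (u : (MonoidAlgebra ℤ C)ˣ)
    (h : ∃ a, (u : MonoidAlgebra ℤ C) = 1 + (p : MonoidAlgebra ℤ C) ^ 2 * a) (d : C) :
    (p : ℤ) ^ 2 ∣ ((u : MonoidAlgebra ℤ C) - 1).coeff d := by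
  obtain ⟨a, ha⟩ := h
  refine ⟨a.coeff d, ?_⟩
  have e : (u : MonoidAlgebra ℤ C) - 1 = ((p : ℤ) ^ 2) • a := by
    rw [ha, add_sub_cancel_left, ← Nat.cast_pow, ← nsmul_eq_mul, ← natCast_zsmul, Nat.cast_pow]
  rw [e]
  rfl

private theorem den_of_dvd {p : ℕ} (hp : p.Prime) {a t : ℚ} (l : ℕ) (ht : ¬ p ∣ t.den)
    (h : a = (p : ℚ) ^ (2 * l) * t) : ¬ p ∣ (a / (p : ℚ) ^ (2 * l)).den := by
  have hp0 : (p : ℚ) ^ (2 * l) ≠ 0 := pow_ne_zero _ (Nat.cast_ne_zero.2 hp.ne_zero)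
  rwa [h, mul_div_cancel_left₀ _ hp0]

/-- **The relations of the functionals.** -/
theorem hasRel1 (G : Type v) [Group G] (k : ℕ)
    (ha : ∀ p : ℕ, p.Prime → ∃ r : ℕ, ∀ g : G, (∃ j : ℕ, g ^ p ^ j = 1) → g ^ p ^ r = 1) :
    Pool.Agent.H8.KL.HasRel1 G k (kerQ G k) := by
  intro p hp n C hC hcyc inst u z hu hQ c hc hpc f hf
  have : Fact p.Prime := ⟨hp⟩
  obtain ⟨r, hr⟩ := ha p hp
  obtain ⟨y, W, M, hM, h⟩ := hQ
  have hcomm : ∀ i, ∀ a b : C i, a * b = b * a := by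
    intro i a b
    have := hcyc i
    obtain ⟨g, hg⟩ := IsCyclic.exists_generator (α := C i)
    obtain ⟨m, hm⟩ := Subgroup.mem_zpowers_iff.1 (hg a)
    obtain ⟨m', hm'⟩ := Subgroup.mem_zpowers_iff.1 (hg b)
    rw [← hm, ← hm', ← _root_.zpow_add, ← _root_.zpow_add, add_comm]
  obtain ⟨K, hK⟩ := relC (G := G) (k := k) (p := p) r hr hc hpc C hcomm u
    (fun i d => dvd_coeff p (u i) (hu i) d) z y W (kill_all p G (k + 2) W) M hM h f hf
  refine ⟨K, fun l => ?_⟩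
  obtain ⟨t, ht, e⟩ := hK l
  exact den_of_dvd hp l ht e

end

end Pool.Agent.H39.KL
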