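import Pool.Agent.H39.KL.Supp
import Pool.Agent.H39.KL.Mono
import Pool.Agent.H39.KL.Coch1
import Pool.Agent.H16.FU.Defs1
import Pool.Agent.H16.KN.LinDN

/-!
# Project KL: the value of the functional on the products `U × z`, formula for chains

PROOF of `val_chain`.  Both sides are additive in `z`, so let `z = (y_0, …, y_k)` be a tuple.  The prism `pri U` is the sum
over `i ≤ k` of `(-1) ^ i` times the tuple `x^(i) = (y_0, …, y_i, y_i U, …, y_k U)` (`pri_single`, `priT`; `U` stands for the
matrix over the group ring of `G`, the `y_j` for the scalar matrices, which commute with it, `scal_comm`).  `TR_t`; the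
repeated tuple `rep q x^(i)` has the form of `TT_mono` with `f = D.subtype`, `A = rep q (1, …, 1, U, …, U)` and the elements
`y = rep q (y_0, …, y_i, y_i, …, y_k)` of `G`, so the value is `∑ d, TT d (mph ..) A`.  If `d` is not conjugate to `c` then
`mph .. = 0`.  Otherwise `mph_eq` with `u = uc c d`, and `TT_dup` (`s (b, j) = (b, 0)` if `j ≤ i`, `(b, 1)` if `j > i`) gives
`TR q d Ψ_i (QC.t N ![1, U])` with `Ψ_i (δ, δ') = phiG ψ τ v`, `v_j b = u * δ b * y_j` for `j ≤ i`, `v_j b = u * δ' b * y_{j-1}` for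
`j > i`.  Since `u * δ b * y = (u * y * u⁻¹) * (u * δ b)` and `u * y * u⁻¹` commutes with `c = u * d * u⁻¹`, `IsTau.inv` gives
`τ v_j = tauC τ c d δ` for `j ≤ i` and `= tauC τ c d δ'` for `j > i`.  So for `i < k` the factor `tl B τ v_k v_{k+1}` is `0`, and for
`i = k` it is `tl B (tauC τ c d) δ δ'`, the other factor is `psC ψ c d δ y`.
-/

set_option autoImplicit false

open Matrix

universe u v w

namespace Pool.Agent.H39.KL

open Pool.Agent.H71.FQ Pool.Agent.H16.KN Pool.Agent.H16.FU

section

variable {G : Type u} [Group G]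

/-- an element which conjugates `d` to `c` -/
noncomputable def uc (c : G) {D : Subgroup G} (d : D) : G :=
  (Pool.Agent.H71.DB.xc c (d : G))⁻¹

theorem uc_spec (c : G) {D : Subgroup G} (d : D) (h : IsConj c (d : G)) :
    uc c d * d * (uc c d)⁻¹ = c := by
  have h1 := Pool.Agent.H71.DB.xc_spec c h
  unfold uc
  calc (Pool.Agent.H71.DB.xc c (d : G))⁻¹ * (d : G) * ((Pool.Agent.H71.DB.xc c (d : G))⁻¹)⁻¹ =
      (Pool.Agent.H71.DB.xc c (d : G))⁻¹ * (Pool.Agent.H71.DB.xc c (d : G) * c *
        (Pool.Agent.H71.DB.xc c (d : G))⁻¹) * ((Pool.Agent.H71.DB.xc c (d : G))⁻¹)⁻¹ := by rw [h1]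
    _ = c := by group

/-- the transport of `τ` -/
noncomputable def tauC {q : ℕ} (τ : (Fin q → G) → ZMod q) (c : G) {D : Subgroup G} (d : D)
    (δ : Fin q → D) : ZMod q := τ fun b => uc c d * δ b

theorem isTau_tauC {p m r : ℕ} {c : G} {τ : (Fin (p ^ m) → G) → ZMod (p ^ m)}
    (hτ : IsTau p m r c τ) {D : Subgroup G} (d : D) (h : IsConj c (d : G)) :
    IsTau p m r d (tauC τ c d) := IsTau.comp hτ D.subtype (uc c d) d (uc_spec c d h)

variable {B : Type v} [CommRing B] {k : ℕ}

/-- the transport of `ψ` -/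
noncomputable def psC {q : ℕ} (ψ : (Fin (k + 1) → Fin q → G) → B) (c : G) {D : Subgroup G} (d : D)
    (δ : Fin q → D) (y : Fin (k + 1) → Subgroup.centralizer (D : Set G)) : B :=
  ψ fun j b => uc c d * δ b * y j

/-- the chain of the product `U × z` -/
noncomputable def prUz (B : Type v) [CommRing B] {G : Type u} [Group G] (D : Subgroup G) {N : ℕ}
    (U : GLm N (MonoidAlgebra B D)) {k : ℕ} (z : Cx ℤ (Subgroup.centralizer (D : Set G)) k) :
    Cx ℤ (GLm N (MonoidAlgebra B G)) (k + 1) :=
  pri (mapGL (MonoidAlgebra.mapDomainRingHom B D.subtype) N U) k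
    (push ℤ (scal N ((grpHom B G).comp (Subgroup.centralizer (D : Set G)).subtype)) k z)

/-- the block degeneracy -/
private def sI (q : ℕ) (i : Fin (k + 1)) (t : Fin (q * (k + 1 + 1))) : Fin (q * (1 + 1)) :=
  finProdFinEquiv ((finProdFinEquiv.symm t).1,
    if i.castSucc < (finProdFinEquiv.symm t).2 then 1 else 0)

private theorem sI_mono (q : ℕ) (i : Fin (k + 1)) : Monotone (sI q i) := by
  intro s t hst
  obtain ⟨⟨b, j⟩, rfl⟩ := finProdFinEquiv.surjective s
  obtain ⟨⟨b', j'⟩, rfl⟩ := finProdFinEquiv.surjective t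
  rw [sI, sI, Equiv.symm_apply_apply, Equiv.symm_apply_apply]
  simp only [Fin.le_def, finProdFinEquiv_apply_val] at hst ⊢
  have h1 : (j : ℕ) < k + 1 + 1 := j.2
  have h2 : (j' : ℕ) < k + 1 + 1 := j'.2
  have h3 : ((if i.castSucc < j then (1 : Fin (1 + 1)) else 0 : Fin (1 + 1)) : ℕ) < 1 + 1 :=
    (if i.castSucc < j then (1 : Fin (1 + 1)) else 0 : Fin (1 + 1)).2
  rcases lt_trichotomy (b : ℕ) (b' : ℕ) with h | h | h
  · have h4 : (1 + 1) * ((b : ℕ) + 1) ≤ (1 + 1) * (b' : ℕ) := Nat.mul_le_mul_left _ h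
    omega
  · rw [h] at hst ⊢
    have h6 : j ≤ j' := by
      rw [Fin.le_def]
      omega
    by_cases h7 : i.castSucc < j
    · rw [if_pos h7, if_pos (lt_of_lt_of_le h7 h6)]
    · rw [if_neg h7]
      show 0 + _ ≤ _
      omega
  · exfalso
    have h4 : (k + 1 + 1) * ((b' : ℕ) + 1) ≤ (k + 1 + 1) * (b : ℕ) := Nat.mul_le_mul_left _ h
    have h5 : (k + 1 + 1) * ((b' : ℕ) + 1) = (k + 1 + 1) * (b' : ℕ) + (k + 1 + 1) := by ring
    omega

private theorem sI_surj (q : ℕ) (i : Fin (k + 1)) : Function.Surjective (sI q i) := by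
  intro t
  obtain ⟨⟨b, e⟩, rfl⟩ := finProdFinEquiv.surjective t
  have he : e = 0 ∨ e = 1 := by
    rcases e with ⟨e, he⟩
    rcases Nat.lt_succ_iff_lt_or_eq.1 he with h | h
    · left
      ext
      show e = 0
      omega
    · right
      ext
      exact h
  rcases he with rfl | rfl
  · refine ⟨finProdFinEquiv (b, 0), ?_⟩
    rw [sI, Equiv.symm_apply_apply]
    show finProdFinEquiv (b, if i.castSucc < 0 then (1 : Fin (1 + 1)) else 0) = _
    rw [if_neg (Fin.not_lt_zero _)]
  · refine ⟨finProdFinEquiv (b, Fin.last (k + 1)), ?_⟩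
    rw [sI, Equiv.symm_apply_apply]
    show finProdFinEquiv (b, if i.castSucc < Fin.last (k + 1) then (1 : Fin (1 + 1)) else 0) = _
    rw [if_pos (Fin.castSucc_lt_last i)]

private theorem TT_zero {K : ℕ} [NeZero K] {H : Type*} [Group H] (c : H) {φ : (Fin K → H) → B} (h : ∀ v, φ v = 0)
    {N : ℕ} (x : Fin K → GLm N (MonoidAlgebra B H)) : TT c φ x = 0 := by
  have e : φ = fun v => (0 : B) * φ v := by
    funext v
    rw [h v, mul_zero]
  unfold TT
  rw [e, TM_smul, zero_mul]

omit [CommRing B] in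
private theorem CI_flat' {c : G} {q : ℕ} {Φ : (Fin (k + 1) → Fin q → G) → B} (hΦ : CIq c q Φ) :
    CI c (flat q Φ) := fun g hg _ => hΦ g hg _

open Classical in
/-- the value on one term of the prism -/
private theorem val_i {p m r : ℕ} [Fact p.Prime] (D : Subgroup G) [Fintype D]
    (hD : ∀ a b : D, a * b = b * a) {c : G} {ψ : (Fin (k + 1) → Fin (p ^ m) → G) → B}
    (h1 : CIq c (p ^ m) ψ) {τ : (Fin (p ^ m) → G) → ZMod (p ^ m)} (hτ : IsTau p m r c τ) (N : ℕ)
    (U : GLm N (MonoidAlgebra B D)) (y : Fin (k + 1) → Subgroup.centralizer (D : Set G))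
    (i : Fin (k + 1)) :
    TR (p ^ m) c (phiG ψ τ) (QC.t N (priT
      (mapGL (MonoidAlgebra.mapDomainRingHom B D.subtype) N U)
      (fun j => scal N ((grpHom B G).comp (Subgroup.centralizer (D : Set G)).subtype) (y j)) i)) =
      ∑ d : D, if IsConj c (d : G) then
        TR (p ^ m) d (fun w : Fin 2 → Fin (p ^ m) → D => phiG ψ τ (fun j b =>
          uc c d * w (if i.castSucc < j then 1 else 0) b * y (i.predAbove j)))
          (QC.t N ![1, U]) else 0 := by
  have hφ : CI c (flat (p ^ m) (phiG ψ τ)) := CI_flat' (CIq_phiG h1 hτ)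
  have hy : ∀ (a : D) (t : Fin (p ^ m * (k + 1 + 1))),
      D.subtype a * rep (p ^ m) (fun j : Fin (k + 1 + 1) => (y (i.predAbove j) : G)) t =
        rep (p ^ m) (fun j : Fin (k + 1 + 1) => (y (i.predAbove j) : G)) t * D.subtype a := by
    intro a t
    exact Subgroup.mem_centralizer_iff.1 (y (i.predAbove (finProdFinEquiv.symm t).2)).2 a a.2
  have hx : ∀ t : Fin (p ^ m * (k + 1 + 1)), (rep (p ^ m) (priT
      (mapGL (MonoidAlgebra.mapDomainRingHom B D.subtype) N U)
      (fun j => scal N ((grpHom B G).comp (Subgroup.centralizer (D : Set G)).subtype) (y j)) i)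
        t).val =
      (rep (p ^ m) (fun j : Fin (k + 1 + 1) => if i.castSucc < j then U else 1) t).val.map
        (MonoidAlgebra.mapDomainRingHom B D.subtype) *
      diagonal fun _ => MonoidAlgebra.single
        (rep (p ^ m) (fun j : Fin (k + 1 + 1) => (y (i.predAbove j) : G)) t) 1 := by
    intro t
    unfold rep priT
    generalize (finProdFinEquiv.symm t).2 = j
    beta_reduce
    by_cases hj : i.castSucc < j
    · rw [if_pos hj, if_pos hj, scal_comm (MonoidAlgebra.mapDomainRingHom B D.subtype)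
        ((grpHom B G).comp (Subgroup.centralizer (D : Set G)).subtype)
        (fun γ b => grpHom_comm B D.subtype (Subgroup.centralizer (D : Set G)).subtype
          (fun γ a => Subgroup.mem_centralizer_iff.1 γ.2 a a.2) γ b) U (y (i.predAbove j))]
      rfl
    · rw [if_neg hj, if_neg hj]
      show (diagonal fun _ => MonoidAlgebra.single (y (i.predAbove j) : G) 1) =
        (1 : Matrix (Fin N) (Fin N) (MonoidAlgebra B D)).map
          (MonoidAlgebra.mapDomainRingHom B D.subtype) * _
      rw [Matrix.map_one _ (map_zero _) (map_one _), one_mul]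
  rw [TR_t, TT_mono hD D.subtype _ hy hφ _ _ hx]
  refine Finset.sum_congr rfl fun d _ => ?_
  by_cases hd : IsConj c (d : G)
  · rw [if_pos hd, TR_t]
    have e1 : rep (p ^ m) (fun j : Fin (k + 1 + 1) => if i.castSucc < j then U else 1) =
        fun t => rep (p ^ m) ![1, U] (sI (p ^ m) i t) := by
      funext t
      unfold rep sI
      rw [Equiv.symm_apply_apply]
      beta_reduce
      by_cases h : i.castSucc < (finProdFinEquiv.symm t).2
      · rw [if_pos h, if_pos h]
        rfl
      · rw [if_neg h, if_neg h]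
        rfl
    rw [e1, TT_dup (CI_mph hD hφ d) (sI (p ^ m) i) (sI_mono _ i) (sI_surj _ i)]
    congr 1
    funext w
    rw [mph_eq hy hφ d _ (uc c d) (uc_spec c d hd)]
    unfold flat sI rep
    simp only [Equiv.symm_apply_apply]
    rfl
  · rw [if_neg hd]
    refine TT_zero _ (fun v => ?_) _
    unfold mph
    rw [dif_neg]
    rintro ⟨u, hu⟩
    exact hd (IsConj.symm (isConj_iff.2 ⟨u, hu⟩))

/-- the values of `τ` -/
private theorem tau_val {p m r : ℕ} {D : Subgroup G} {c : G}
    {τ : (Fin (p ^ m) → G) → ZMod (p ^ m)} (hτ : IsTau p m r c τ) (d : D) (hd : IsConj c (d : G))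
    (y : Subgroup.centralizer (D : Set G)) (w : Fin (p ^ m) → D) :
    τ (fun b => uc c d * w b * y) = tauC τ c d w := by
  have h1 : ((uc c d * y * (uc c d)⁻¹) * c : G) = c * (uc c d * y * (uc c d)⁻¹) := by
    have h2 : (d : G) * y = y * d := Subgroup.mem_centralizer_iff.1 y.2 d d.2
    have h3 := uc_spec c d hd
    generalize uc c d = u at h3 ⊢
    rw [← h3]
    calc u * y * u⁻¹ * (u * d * u⁻¹) = u * (y * d) * u⁻¹ := by group
      _ = u * (d * y) * u⁻¹ := by rw [h2]
      _ = u * d * u⁻¹ * (u * y * u⁻¹) := by group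
  have h3 := hτ.inv _ h1 fun b => uc c d * w b
  show _ = τ fun b => uc c d * w b
  rw [← h3]
  congr 1
  funext b
  have h2 : (w b : G) * y = y * w b := Subgroup.mem_centralizer_iff.1 y.2 (w b) (w b).2
  show uc c d * w b * y = uc c d * y * (uc c d)⁻¹ * (uc c d * w b)
  calc uc c d * w b * y = uc c d * (w b * y) := by group
    _ = uc c d * (y * w b) := by rw [h2]
    _ = uc c d * y * (uc c d)⁻¹ * (uc c d * w b) := by group

open Classical in
private theorem val_tuple {p m r : ℕ} [Fact p.Prime] (D : Subgroup G) [Fintype D]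
    (hD : ∀ a b : D, a * b = b * a) {c : G} {ψ : (Fin (k + 1) → Fin (p ^ m) → G) → B}
    (h1 : CIq c (p ^ m) ψ) {τ : (Fin (p ^ m) → G) → ZMod (p ^ m)} (hτ : IsTau p m r c τ) (N : ℕ)
    (U : GLm N (MonoidAlgebra B D)) (y : Fin (k + 1) → Subgroup.centralizer (D : Set G)) :
    TR (p ^ m) c (phiG ψ τ) (ch N (prUz B D U (Finsupp.single y 1))) =
      (-1) ^ k * ∑ d : D, if IsConj c (d : G) then
        TR (p ^ m) d (fun v : Fin 2 → Fin (p ^ m) → D =>
          psC ψ c d (v 0) y * tl B (tauC τ c d) (v 0) (v 1)) (QC.t N ![1, U]) else 0 := by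
  have hpr : ch N (prUz B D U (Finsupp.single y 1)) = ∑ i : Fin (k + 1), (-1 : ℤ) ^ (i : ℕ) •
      QC.t N (priT (mapGL (MonoidAlgebra.mapDomainRingHom B D.subtype) N U)
        (fun j => scal N ((grpHom B G).comp (Subgroup.centralizer (D : Set G)).subtype) (y j))
          i) := by
    rw [prUz, push_single, pri_single, map_sum]
    refine Finset.sum_congr rfl fun i _ => ?_
    rw [map_zsmul, ch_single]
  rw [hpr, map_sum, Fin.sum_univ_castSucc]
  have hz : ∑ i : Fin k, TR (p ^ m) c (phiG ψ τ) ((-1 : ℤ) ^ ((i.castSucc : Fin (k + 1)) : ℕ) •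
      QC.t N (priT (mapGL (MonoidAlgebra.mapDomainRingHom B D.subtype) N U)
        (fun j => scal N ((grpHom B G).comp (Subgroup.centralizer (D : Set G)).subtype) (y j))
          i.castSucc)) = 0 := by
    refine Finset.sum_eq_zero fun i _ => ?_
    rw [map_zsmul, val_i D hD h1 hτ N U y i.castSucc]
    have h0 : (∑ d : D, if IsConj c (d : G) then
        TR (p ^ m) d (fun w : Fin 2 → Fin (p ^ m) → D => phiG ψ τ (fun j b =>
          uc c d * w (if i.castSucc.castSucc < j then 1 else 0) b * y (i.castSucc.predAbove j)))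
          (QC.t N ![1, U]) else 0) = 0 := by
      refine Finset.sum_eq_zero fun d _ => ?_
      by_cases hd : IsConj c (d : G)
      · rw [if_pos hd, TR_t]
        refine TT_zero _ (fun w => ?_) _
        unfold flat phiG pL
        have e2 : i.castSucc.castSucc < (Fin.last k).castSucc :=
          Fin.castSucc_lt_castSucc_iff.2 (Fin.castSucc_lt_last i)
        have e3 : i.castSucc.castSucc < Fin.last (k + 1) := Fin.castSucc_lt_last _
        simp only [if_pos e2, if_pos e3]
        unfold tl
        rw [tau_val hτ d hd (y (i.castSucc.predAbove (Fin.last k).castSucc))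
            (fun b => w (finProdFinEquiv (b, 1))),
          tau_val hτ d hd (y (i.castSucc.predAbove (Fin.last (k + 1))))
            (fun b => w (finProdFinEquiv (b, 1))), sub_self, ZMod.val_zero, Nat.cast_zero,
          mul_zero]
      · rw [if_neg hd]
    rw [h0, smul_zero]
  rw [hz, zero_add, map_zsmul, val_i D hD h1 hτ N U y (Fin.last k), Fin.val_last, zsmul_eq_mul]
  push_cast
  congr 1
  refine Finset.sum_congr rfl fun d _ => ?_
  by_cases hd : IsConj c (d : G)
  · rw [if_pos hd, if_pos hd]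
    congr 2
    funext w
    unfold phiG pL
    have e3 : (Fin.last k).castSucc < Fin.last (k + 1) := Fin.castSucc_lt_last _
    have e4 : ∀ j : Fin (k + 1), ¬ (Fin.last k).castSucc < j.castSucc := fun j hj =>
      absurd (Fin.castSucc_lt_castSucc_iff.1 hj) (not_lt.2 (Fin.le_last j))
    simp only [if_pos e3, if_neg (e4 _), Fin.predAbove_castSucc_of_le _ _ (Fin.le_last _)]
    unfold tl
    rw [tau_val hτ d hd (y (Fin.last k)) (w 0), tau_val hτ d hd _ (w 1)]
    rfl
  · rw [if_neg hd, if_neg hd]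

open Classical in
/-- **The value on `U × z`, `z` a chain.** -/
theorem val_chain {p m r : ℕ} [Fact p.Prime] (D : Subgroup G) [Fintype D]
    (hD : ∀ a b : D, a * b = b * a) {c : G} {ψ : (Fin (k + 1) → Fin (p ^ m) → G) → B}
    (h1 : CIq c (p ^ m) ψ) {τ : (Fin (p ^ m) → G) → ZMod (p ^ m)} (hτ : IsTau p m r c τ) (N : ℕ)
    (U : GLm N (MonoidAlgebra B D)) (z : Cx ℤ (Subgroup.centralizer (D : Set G)) k) :
    TR (p ^ m) c (phiG ψ τ) (ch N (prUz B D U z)) =
      (-1) ^ k * ∑ d : D, if IsConj c (d : G) then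
        TR (p ^ m) d (fun v : Fin 2 → Fin (p ^ m) → D =>
          Finsupp.linearCombination ℤ (psC ψ c d (v 0)) z * tl B (tauC τ c d) (v 0) (v 1))
          (QC.t N ![1, U]) else 0 := by
  induction z using Finsupp.induction_linear with
  | zero =>
    have e1 : ch N (prUz B D U (0 : Cx ℤ (Subgroup.centralizer (D : Set G)) k)) = 0 := by
      rw [prUz, map_zero, map_zero, map_zero]
    rw [e1, map_zero, Finset.sum_eq_zero, mul_zero]
    intro d _
    by_cases hd : IsConj c (d : G)
    · rw [if_pos hd, TR_t]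
      refine TT_zero _ (fun v => ?_) _
      unfold flat
      beta_reduce
      rw [map_zero, zero_mul]
    · rw [if_neg hd]
  | add a b ha hb =>
    have e1 : ch N (prUz B D U (a + b)) = ch N (prUz B D U a) + ch N (prUz B D U b) := by
      rw [prUz, map_add, map_add, map_add]
      rfl
    rw [e1, map_add, ha, hb, ← mul_add, ← Finset.sum_add_distrib]
    congr 1
    refine Finset.sum_congr rfl fun d _ => ?_
    by_cases hd : IsConj c (d : G)
    · rw [if_pos hd, if_pos hd, if_pos hd, ← TR_add]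
      congr 2
      funext v
      rw [map_add, add_mul]
    · rw [if_neg hd, if_neg hd, if_neg hd, add_zero]
  | single y n =>
    have e0 : (Finsupp.single y n : Cx ℤ (Subgroup.centralizer (D : Set G)) k) =
        n • Finsupp.single y 1 := by
      rw [Finsupp.smul_single, smul_eq_mul, mul_one]
    have e1 : ch N (prUz B D U (Finsupp.single y n)) =
        n • ch N (prUz B D U (Finsupp.single y 1)) := by
      rw [e0, prUz, map_smul, map_smul, map_zsmul]
      rfl
    rw [e1, map_zsmul, val_tuple D hD h1 hτ N U y, zsmul_eq_mul, mul_left_comm, Finset.mul_sum]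
    congr 1
    refine Finset.sum_congr rfl fun d _ => ?_
    by_cases hd : IsConj c (d : G)
    · rw [if_pos hd, if_pos hd, ← TR_smul]
      congr 2
      funext v
      rw [Finsupp.linearCombination_single, zsmul_eq_mul, mul_assoc]
    · rw [if_neg hd, if_neg hd, mul_zero]

end

end Pool.Agent.H39.KL
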