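import Pool.Agent.H39.KL.YPart
import Pool.Agent.H16.KN.J5

/-!
# Project KL: degree zero

The class of the unit `t` in `LKQ (L[G]) 0` has infinite order.
-/

set_option autoImplicit false

open Matrix
open scoped LaurentPolynomial

universe u v w

namespace Pool.Agent.H39.KL

open Pool.Agent.H71.FQ Pool.Agent.H16.KN Pool.Agent.H16.FU
open Pool.Agent.H95.KM (posHom negHom lau)

section

theorem map_tOne' {A : Type u} [Ring A] {A' : Type v} [Ring A'] (f : A →+* A') :
    LKQ.map f (LKQ.mk (tOne A)) = LKQ.mk (tOne A') := by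
  rw [LKQ.map_mk, map_tOne]

variable {G : Type u} [Group G] {L : Type} [Field L] [CharZero L]

private theorem CI_one : CI ((1, 1) : G × Multiplicative ℤ)
    (pL (fun _ : Fin (0 + 1) → G × Multiplicative ℤ => (1 : L)) (ldg L)) := by
  intro g _ x
  unfold pL ldg
  have h : ∀ a : G × Multiplicative ℤ, dg (g * a) = dg g + dg a := fun a => rfl
  rw [h, h]
  congr 2
  ring

private theorem one_zero (v : Fin 2 → G × Multiplicative ℤ) (hv : ∀ i j, dg (v i) = dg (v j)) :
    pL (fun _ : Fin (0 + 1) → G × Multiplicative ℤ => (1 : L)) (ldg L) v = 0 := by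
  unfold pL ldg
  rw [hv (Fin.last (0 + 1)) (Fin.last 0).castSucc, sub_self, Int.cast_zero, mul_zero]

/-- **The class of `t` has infinite order.** -/
theorem t_tor (M : ℤ) (h : M • LKQ.mk (tOne (MonoidAlgebra L G)) = 0) : M = 0 := by
  have h1 : LKQ.mk (M • tOne (MonoidAlgebra L G)) = 0 := by
    rw [map_zsmul]
    exact h
  obtain ⟨a, b, hab⟩ := LKQ.mk_eq_zero_iff.1 h1
  obtain ⟨a', ha', ea⟩ := map_pos_mem (B := L) (G := G) a
  obtain ⟨b', hb', eb⟩ := map_neg_mem (B := L) (G := G) b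
  have h2 := congrArg (fun x => ofKQ (KQ.map (gz L (MonoidHom.id G)) x)) hab
  simp only [map_add, map_zsmul] at h2
  rw [ea, eb, ofKQ_tOne, ← map_add, ← map_zsmul, ← sub_eq_zero, ← map_sub] at h2
  obtain ⟨v, hv⟩ := QH.mk_eq_zero.1 h2
  have h3 := congrArg (TQ ((1, 1) : G × Multiplicative ℤ)
    (pL (fun _ : Fin (0 + 1) → G × Multiplicative ℤ => (1 : L)) (ldg L))) hv
  rw [TQ_one_bd, map_sub, map_add, map_zsmul, TQ_half CI_one one_zero ha',
    TQ_half CI_one one_zero hb', TQ_tOne, zero_add, zero_sub, eq_comm, neg_eq_zero,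
    zsmul_eq_mul, mul_one] at h3
  exact Int.cast_eq_zero.1 h3

end

end Pool.Agent.H39.KL
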