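import Pool.Agent.H39.KL.Main
import Pool.Agent.H39.KL.RelC1
import Pool.Agent.H39.KL.Zero

/-!
# Project KL: rational injectivity of the assembly map over `ℤ` in the degrees one and zero
-/

set_option autoImplicit false

open Matrix
open scoped LaurentPolynomial

universe u v w

namespace Pool.Agent.H39.KL

open Pool.Agent.H71.FQ Pool.Agent.H16.KN Pool.Agent.H16.FU
open Pool.Agent.H71.FU0 (H0K1 assembly10 cl)
open Pool.Agent.H95.WH (K1 K1.unit FamSub FinSub)

section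

variable {G : Type u} [Group G]

/-- the elements of the `K₁`-part of degree one with torsion value modulo the other parts -/
def KerP (G : Type v) [Group G] (w : H0K1 ℤ G) : Prop :=
  ∃ (y : HG G 0) (W : HnKm1 ℤ G 1) (M : ℤ), M ≠ 0 ∧ M • asmOne G (y, w, W) = 0

theorem kerP_nsmul (m : ℕ) (w : H0K1 ℤ G) (h : KerP G w) : KerP G (m • w) := by
  obtain ⟨y, W, M, hM, h⟩ := h
  refine ⟨m • y, m • W, M, hM, ?_⟩
  have e : ((m • y, m • w, m • W) : HG G 0 × H0K1 ℤ G × HnKm1 ℤ G 1) = m • (y, w, W) := rfl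
  rw [e, map_nsmul, smul_comm, h, smul_zero]

theorem asmOne_apply (y : HG G 0) (w : H0K1 ℤ G) (W : HnKm1 ℤ G 1) :
    asmOne G (y, w, W) = yPart ℤ G 0 y +
      (LKQ.mk (tp (MonoidAlgebra ℤ G) 0 (assembly10 ℤ G w)) + asmKm1 ℤ 1 G W) := rfl

/-- The kernel of the assembly map is a torsion group, degree one. -/
theorem one_tor (hexp : BddT G) (h2 : SepC G 1) (w : HG G 0 × H0K1 ℤ G × HnKm1 ℤ G 1)
    (h : asmOne G w = 0) : ∃ m : ℤ, m ≠ 0 ∧ m • w = 0 := by
  obtain ⟨y, w, W⟩ := w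
  obtain ⟨m, hm, hmw⟩ := Pool.Agent.H8.KL.linZ (G := G) (KerP G) kerP_nsmul (by
    intro p hp n C hC hcyc inst u z hu hP c hc hpc
    have : Fact p.Prime := ⟨hp⟩
    obtain ⟨r, hr⟩ := hexp p hp
    obtain ⟨y, W, M, hM, h⟩ := hP
    have hcomm : ∀ i, ∀ a b : C i, a * b = b * a := by
      intro i a b
      have := hcyc i
      obtain ⟨g, hg⟩ := IsCyclic.exists_generator (α := C i)
      obtain ⟨m, hm⟩ := Subgroup.mem_zpowers_iff.1 (hg a)
      obtain ⟨m', hm'⟩ := Subgroup.mem_zpowers_iff.1 (hg b)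
      rw [← hm, ← hm', ← _root_.zpow_add, ← _root_.zpow_add, add_comm]
    have hdvd : ∀ i, ∀ d : C i, (p : ℤ) ^ 2 ∣ ((u i : MonoidAlgebra ℤ (C i)) - 1).coeff d := by
      intro i d
      obtain ⟨a, ha⟩ := hu i
      refine ⟨a.coeff d, ?_⟩
      have e : (u i : MonoidAlgebra ℤ (C i)) - 1 = ((p : ℤ) ^ 2) • a := by
        rw [ha, add_sub_cancel_left, ← Nat.cast_pow, ← nsmul_eq_mul, ← natCast_zsmul, Nat.cast_pow]
      rw [e]
      rfl
    obtain ⟨K, hK⟩ := relC1 (G := G) (p := p) r hr hc hpc C hcomm u hdvd z y W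
      (kill_all p G 1 W) M hM h
    refine ⟨K, fun l => ?_⟩
    obtain ⟨t, ht, e⟩ := hK l
    have hp0 : (p : ℚ) ^ (2 * l) ≠ 0 := pow_ne_zero _ (Nat.cast_ne_zero.2 hp.ne_zero)
    rw [e, mul_div_cancel_left₀ _ hp0]
    exact ht) w ⟨y, W, 1, one_ne_zero, by rw [one_smul, h]⟩
  have h4 := congrArg (fun x => m • x) h
  simp only [smul_zero] at h4
  rw [← map_zsmul] at h4
  have h5 : m • ((y, w, W) : HG G 0 × H0K1 ℤ G × HnKm1 ℤ G 1) = (m • y, m • w, m • W) := rfl
  rw [h5, hmw, asmOne_apply, map_zero, map_zero, map_zero] at h4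
  have h4' : yPart ℤ G 0 (m • y) + asmKm1 ℤ 1 G (m • W) = 0 :=
    (congrArg (fun x => yPart ℤ G 0 (m • y) + x) (zero_add (asmKm1 ℤ 1 G (m • W)))).symm.trans h4
  obtain ⟨m', hm', h6, h7⟩ := joint_tor 0 hexp h2 (m • y) (m • W) h4'
  refine ⟨m' * m, mul_ne_zero hm' hm, ?_⟩
  have h8 : (m' * m) • ((y, w, W) : HG G 0 × H0K1 ℤ G × HnKm1 ℤ G 1) =
    ((m' * m) • y, (m' * m) • w, (m' * m) • W) := rfl
  rw [h8, mul_smul, h6, mul_smul, hmw, smul_zero, mul_smul, h7]
  rfl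

/-- **Rational injectivity of the assembly map in the degree one.** -/
theorem ratInj_asmOne (hexp : BddT G) (h2 : SepC G 1) : RatInj (asmOne G) :=
  Pool.Agent.H95.KM.lTensor_injective _ fun w h => one_tor hexp h2 w h

/-- The kernel of the assembly map is a torsion group, degree zero. -/
theorem zero_tor (h2 : SepC G 0) (w : ℤ × HnKm1 ℤ G 0) (h : asm0 G w = 0) :
    ∃ m : ℤ, m ≠ 0 ∧ m • w = 0 := by
  obtain ⟨y, W⟩ := w
  have hp : Fact (Nat.Prime 2) := ⟨Nat.prime_two⟩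
  obtain ⟨B, _, _, _, -, -, M, hM, hMW⟩ := kill_all 2 G 0 W
  have h0 : y • LKQ.mk (tOne (MonoidAlgebra ℤ G)) + asmKm1 ℤ 0 G W = 0 := h
  have h1 := congrArg (fun x => M • LKQ.map (MonoidAlgebra.mapRingHom G (Int.castRingHom B)) x) h0
  simp only [map_add, map_zero, smul_zero, smul_add, map_zsmul] at h1
  rw [hMW, add_zero, map_tOne'] at h1
  have h2' := congrArg (LKQ.map (n := 0)
    (MonoidAlgebra.mapRingHom G (algebraMap B (FractionRing B)))) h1
  rw [map_zsmul, map_zsmul, map_tOne', map_zero, ← mul_smul] at h2'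
  have hch : CharZero (FractionRing B) := charZero_of_injective_algebraMap
    (IsFractionRing.injective B (FractionRing B))
  have hy : y = 0 := (mul_eq_zero.1 (t_tor (L := FractionRing B) (M * y) h2')).resolve_left hM
  subst hy
  rw [zero_smul, zero_add] at h0
  obtain ⟨m, hm, h5⟩ := km1_tor 0 (Or.inl rfl) h2 W h0
  refine ⟨m, hm, ?_⟩
  have h8 : m • ((0, W) : ℤ × HnKm1 ℤ G 0) = (m • 0, m • W) := rfl
  rw [h8, h5, smul_zero]
  rfl

/-- **Rational injectivity of the assembly map in the degree zero.** -/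
theorem ratInj_asmZero (h2 : SepC G 0) : RatInj (asm0 G) :=
  Pool.Agent.H95.KM.lTensor_injective _ fun w h => zero_tor h2 w h

end

end Pool.Agent.H39.KL
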