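import Pool.Agent.H39.KL.RelA
import Pool.Agent.H39.KL.ValB
import Pool.Agent.H39.KL.LamC

/-!
# Project KL: the relation of the logarithms over `B`

`B` is a commutative domain of characteristic zero with `⋂ p ^ a B = 0`.

PROOF of `relB`.  Let `μ` from `hmeas : Meas p c π φ`, `e₀ = r`.  Fix `l` and take `m = 2 l + r + 1`; `ψ, β` from `hmeas` for this
`m`, `τ` from `exists_tau`.  `X = M • (mono1 y + ∑ i, gasm1 (K1.unit (u i)) (z i))`, `hX` from `h`.  Representatives: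
`ofKQ (mono1 B G (n + 1) y) = QH.mk (ch 1 (push (scal 1 (grpHom B G)) y'))`, `y = HG.mk y'`;
`ofKQ (gasm1 B n .. (K1.unit (u i)) (z i)) = QH.mk (ch 1 (prUz B (C i) (U i) z'))`, `z i = HG.mk z'`, `U i` the `1 × 1` matrix of the
unit (`asm1_mk`, `HG.cr_mk`, `ofKQ_cls`).  `relA`, `val_mono` (`c ≠ 1` as `p ∣ orderOf c`), `val_unit`:
`p ^ (m + (m - r + 1)) ∣ M * (-1) ^ (n + 1) * μ ^ (n + 2) * ∑ i, ∑ d, HG.ev hφ (trc n c (C i) d (z i)) * lamQ p m d τ_d (U i)`.
(Only the `d` conjugate to `c` matter, for them `orderOf d = orderOf c`, `IsTau` for `tauC τ c d`.)  Multiply by `p ^ l` and insert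
`lamQ_log` (`(cof (U ^ p ^ l - 1) d).trace` is the coefficient at `d` of `u ^ p ^ l - 1`):
`M * μ ^ (n + 2) * p ^ (m + r) * S ∈ p ^ (2 l + (m - r + 1)) B + p ^ (m + (m - r + 1)) B`, `S` the sum in the statement; multiply by
`p ^ r` and cancel `p ^ m` (`B` is a domain of characteristic zero): `M * μ ^ (n + 2) * p ^ (2 r) * S ∈ p ^ (2 l) B`, `m ≥ 2 l`.
So `K = |M| * μ ^ (n + 2) * p ^ (2 r)`.
-/

set_option autoImplicit false

open Matrix
open scoped LaurentPolynomial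

universe u v w

namespace Pool.Agent.H39.KL

open Pool.Agent.H71.FQ Pool.Agent.H16.KN Pool.Agent.H16.FU
open Pool.Agent.H95.WH (K1 K1.unit)

section

variable {G : Type u} [Group G] {B : Type} [CommRing B] {n : ℕ}

private theorem rb_arith [IsDomain B] [CharZero B] {p : ℕ} [Fact p.Prime] (r l : ℕ) (M : ℤ)
    (μ k : ℕ) (S Λ x y : B)
    (h1 : (p : B) ^ l * Λ = (p : B) ^ (2 * l + r + 1 + r) * S +
      (p : B) ^ (2 * l + (2 * l + r + 1 - r + 1)) * x +
      (p : B) ^ (2 * l + r + 1 + (2 * l + r + 1 - r + 1)) * y)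
    (h2 : (p : B) ^ (2 * l + r + 1 + (2 * l + r + 1 - r + 1)) ∣
      (M : B) * ((-1) ^ (k + 1) * ((μ : B) ^ (k + 2) * Λ))) :
    (p : B) ^ (2 * l) ∣ ((M.natAbs * μ ^ (k + 2) * p ^ (2 * r) : ℕ) : B) * S := by
  have hp0 : (p : B) ≠ 0 := Nat.cast_ne_zero.2 (Fact.out : p.Prime).ne_zero
  rw [show 2 * l + r + 1 - r + 1 = 2 * l + 2 by omega] at h1 h2
  obtain ⟨q, hq⟩ := h2
  have hs : ((-1 : B) ^ (k + 1)) * (-1) ^ (k + 1) = 1 := by
    rw [← mul_pow, neg_one_mul, neg_neg, one_pow]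
  have hT : (M : B) * ((μ : B) ^ (k + 2) * Λ) =
      (-1) ^ (k + 1) * ((p : B) ^ (2 * l + r + 1 + (2 * l + 2)) * q) := by
    rw [← hq]
    calc (M : B) * ((μ : B) ^ (k + 2) * Λ) =
        (((-1 : B) ^ (k + 1)) * (-1) ^ (k + 1)) * ((M : B) * ((μ : B) ^ (k + 2) * Λ)) := by
          rw [hs, one_mul]
      _ = _ := by ring
  have hc : (p : B) ^ (2 * l + 1) * ((p : B) ^ (2 * r) * ((M : B) * ((μ : B) ^ (k + 2) * S))) =
      (p : B) ^ (2 * l + 1) * ((p : B) ^ (2 * l) * ((p : B) * ((p : B) ^ (l + r + 1) *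
        ((-1) ^ (k + 1) * q) - (M : B) * (μ : B) ^ (k + 2) * x -
          (p : B) ^ (r + 1) * ((M : B) * (μ : B) ^ (k + 2) * y)))) := by
    have e1 : (p : B) ^ (2 * l + 1) * ((p : B) ^ (2 * r) * ((M : B) * ((μ : B) ^ (k + 2) * S))) =
        (M : B) * (μ : B) ^ (k + 2) * ((p : B) ^ (2 * l + r + 1 + r) * S) := by ring
    have e2 : (p : B) ^ (2 * l + r + 1 + r) * S = (p : B) ^ l * Λ -
      (p : B) ^ (2 * l + (2 * l + 2)) * x -
      (p : B) ^ (2 * l + r + 1 + (2 * l + 2)) * y := by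
      rw [h1]
      ring
    rw [e1, e2]
    calc (M : B) * (μ : B) ^ (k + 2) * ((p : B) ^ l * Λ -
          (p : B) ^ (2 * l + (2 * l + 2)) * x - (p : B) ^ (2 * l + r + 1 + (2 * l + 2)) * y) =
        (p : B) ^ l * ((M : B) * ((μ : B) ^ (k + 2) * Λ)) -
          (M : B) * (μ : B) ^ (k + 2) * ((p : B) ^ (2 * l + (2 * l + 2)) * x +
            (p : B) ^ (2 * l + r + 1 + (2 * l + 2)) * y) := by ring
      _ = _ := by
        rw [hT]
        ring
  have hd : (p : B) ^ (2 * r) * ((M : B) * ((μ : B) ^ (k + 2) * S)) =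
      (p : B) ^ (2 * l) * ((p : B) * ((p : B) ^ (l + r + 1) *
        ((-1) ^ (k + 1) * q) - (M : B) * (μ : B) ^ (k + 2) * x -
          (p : B) ^ (r + 1) * ((M : B) * (μ : B) ^ (k + 2) * y))) :=
    mul_left_cancel₀ (pow_ne_zero _ hp0) hc
  have he : (p : B) ^ (2 * l) ∣ (M : B) * (((μ : B) ^ (k + 2) * (p : B) ^ (2 * r)) * S) :=
    ⟨_, by rw [← hd]; ring⟩
  have hf : (p : B) ^ (2 * l) ∣ ((M.natAbs : ℕ) : B) *
      (((μ : B) ^ (k + 2) * (p : B) ^ (2 * r)) * S) := by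
    rcases Int.natAbs_eq M with h | h
    · rw [h, Int.cast_natCast] at he
      exact he
    · rw [h, Int.cast_neg, Int.cast_natCast, neg_mul, dvd_neg] at he
      exact he
  push_cast
  rw [mul_assoc, mul_assoc, ← mul_assoc ((μ : B) ^ (k + 2))]
  exact hf

/-- the `1 × 1` matrix of a unit -/
private noncomputable def rb_U {R : Type*} [Ring R] (w : Rˣ) : GLm 1 R :=
  Units.map (Matrix.scalar (Fin 1)).toMonoidHom w

private theorem rb_U_apply {R : Type*} [Ring R] (w : Rˣ) (i j : Fin 1) :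
    (rb_U w).val i j = (w : R) := by
  rw [Subsingleton.elim j i]
  exact Matrix.diagonal_apply_eq _ i

private theorem rb_U_pow {R : Type*} [Ring R] (w : Rˣ) (k : ℕ) : rb_U w ^ k = rb_U (w ^ k) :=
  (map_pow (Units.map (Matrix.scalar (Fin 1) : R →+* Matrix (Fin 1) (Fin 1) R).toMonoidHom)
    w k).symm

private theorem rb_U_val {D : Type u} [Group D] (w : (MonoidAlgebra B D)ˣ) (q : B)
    (a : MonoidAlgebra B D) (h : (w : MonoidAlgebra B D) = 1 + q • a) :
    (rb_U w).val = 1 + q • (Matrix.of fun _ _ : Fin 1 => a) := by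
  refine Matrix.ext fun i j => ?_
  rw [rb_U_apply, h, Subsingleton.elim j i, Matrix.add_apply, Matrix.one_apply_eq,
    Matrix.smul_apply, Matrix.of_apply]

private theorem rb_trace {D : Type u} [Group D] (w : (MonoidAlgebra B D)ˣ) (k : ℕ) (d : D) :
    (cof ((rb_U w ^ k : GLm 1 (MonoidAlgebra B D)).val - 1) d).trace =
      ((w : MonoidAlgebra B D) ^ k - 1).coeff d := by
  rw [rb_U_pow, Matrix.trace_fin_one]
  show (((rb_U (w ^ k)).val - 1) 0 0).coeff d = _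
  rw [Matrix.sub_apply, rb_U_apply, Matrix.one_apply_eq, Units.val_pow_eq_pow_val]

private theorem rb_mono (y : HG G (n + 1)) : ∃ y' : Cx ℤ G (n + 1 + 1),
    ofKQ (mono1 B G (n + 1) y) =
      QH.mk (ch 1 (push ℤ (scal 1 (grpHom B G)) (n + 1 + 1) y')) := by
  obtain ⟨y', rfl⟩ := HG.mk_surjective y
  refine ⟨y', ?_⟩
  show ofKQ (KQ.cls (MonoidAlgebra B G) (n + 1) 1
    (HG.map (n + 1) (scal 1 (grpHom B G)) (HG.mk y'))) = _
  rw [HG.map_mk, ofKQ_cls]

private theorem rb_gasm (D : Subgroup G) (w : (MonoidAlgebra B D)ˣ)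
    (z : cyc (Subgroup.centralizer (D : Set G)) n) :
    ofKQ (gasm1 B n D.subtype (Subgroup.centralizer (D : Set G)).subtype (cent_comm D)
        (K1.unit w) (HG.mk z)) =
      QH.mk (ch 1 (prUz B D (rb_U w)
        (z : Cx ℤ (Subgroup.centralizer (D : Set G)) (n + 1)))) := by
  rw [gasm1, K1.unit, asm1_mk, HG.cr_mk, ofKQ_cls]
  rfl

private theorem rb_log {p : ℕ} [Fact p.Prime] (r l : ℕ)
    (hG : ∀ g : G, (∃ j : ℕ, g ^ p ^ j = 1) → g ^ p ^ r = 1) {c : G}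
    (hpc : p ∣ orderOf c) {φ : (Fin (n + 2) → Subgroup.centralizer ({c} : Set G)) → B}
    (hφ : IsCoc (Subgroup.centralizer ({c} : Set G)) n φ)
    {τ : (Fin (p ^ (2 * l + r + 1)) → G) → ZMod (p ^ (2 * l + r + 1))}
    (hτ : IsTau p (2 * l + r + 1) r c τ) (D : Subgroup G) [Fintype D]
    (hD : ∀ a b : D, a * b = b * a) (w : (MonoidAlgebra B D)ˣ)
    (hw : ∃ a : MonoidAlgebra B D, (w : MonoidAlgebra B D) = 1 + ((p : B) ^ 2) • a)
    (z : HG (Subgroup.centralizer (D : Set G)) n) (d : D) :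
    ∃ x y : B, (p : B) ^ l * (HG.ev hφ (trc n c D d z) *
        lamQ p (2 * l + r + 1) d (tauC τ c d) (rb_U w)) =
      (p : B) ^ (2 * l + r + 1 + r) * (HG.ev hφ (trc n c D d z) *
        (((w : MonoidAlgebra B D) ^ p ^ l - 1).coeff d)) +
      (p : B) ^ (2 * l + (2 * l + r + 1 - r + 1)) * x +
      (p : B) ^ (2 * l + r + 1 + (2 * l + r + 1 - r + 1)) * y := by
  by_cases hd : IsConj c (d : G)
  · obtain ⟨a, ha⟩ := hw
    have hpd : p ∣ orderOf d := by
      rw [← orderOf_injective D.subtype D.subtype_injective d]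
      obtain ⟨g, hg⟩ := isConj_iff.1 hd
      have e : (D.subtype d : G) = g * c * g⁻¹ := hg.symm
      rw [e, ← MulAut.conj_apply, ← MulEquiv.coe_toMonoidHom,
        orderOf_injective _ (MulAut.conj g).injective c]
      exact hpc
    have hGD : ∀ g : D, (∃ j : ℕ, g ^ p ^ j = 1) → g ^ p ^ r = 1 := by
      rintro g ⟨j, hj⟩
      apply Subtype.ext
      have e : (g : G) ^ p ^ j = 1 := by
        rw [← Subgroup.coe_pow, hj, Subgroup.coe_one]
      rw [Subgroup.coe_pow, Subgroup.coe_one]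
      exact hG _ ⟨j, e⟩
    obtain ⟨x, y, hxy⟩ := lamQ_log hD (by omega) hGD hpd (isTau_tauC hτ d hd)
      (Matrix.of fun _ _ : Fin 1 => a) (rb_U w) (rb_U_val w _ a ha) l
    rw [rb_trace] at hxy
    refine ⟨HG.ev hφ (trc n c D d z) * x, HG.ev hφ (trc n c D d z) * y, ?_⟩
    calc (p : B) ^ l * (HG.ev hφ (trc n c D d z) *
          lamQ p (2 * l + r + 1) d (tauC τ c d) (rb_U w)) =
        HG.ev hφ (trc n c D d z) * ((p : B) ^ l *
          lamQ p (2 * l + r + 1) d (tauC τ c d) (rb_U w)) := by ring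
      _ = _ := by
        rw [hxy]
        ring
  · refine ⟨0, 0, ?_⟩
    rw [trc_of_not hd, AddMonoidHom.zero_apply, map_zero]
    ring

/-- **The relation of the logarithms.** -/
theorem relB [IsDomain B] [CharZero B] {p : ℕ} [Fact p.Prime] (r : ℕ)
    (hG : ∀ g : G, (∃ j : ℕ, g ^ p ^ j = 1) → g ^ p ^ r = 1) {c : G} (hc : IsOfFinOrder c)
    (hpc : p ∣ orderOf c) {π : G → Subgroup.centralizer ({c} : Set G)}
    (hπ : ∀ (z : Subgroup.centralizer ({c} : Set G)) (g : G), π (z * g) = z * π g)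
    {φ : (Fin (n + 2) → Subgroup.centralizer ({c} : Set G)) → B}
    (hφ : IsCoc (Subgroup.centralizer ({c} : Set G)) n φ) (hmeas : Meas p c π φ)
    {ι : Type} [Fintype ι] (C : ι → Subgroup G) [∀ i, Fintype (C i)]
    (hC : ∀ i, ∀ a b : C i, a * b = b * a) (u : ∀ i, (MonoidAlgebra B (C i))ˣ)
    (hu : ∀ i, ∃ a : MonoidAlgebra B (C i),
      (u i : MonoidAlgebra B (C i)) = 1 + ((p : B) ^ 2) • a)
    (z : ∀ i, HG (Subgroup.centralizer (C i : Set G)) n) (y : HG G (n + 1)) (M : ℤ) (hM : M ≠ 0)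
    (h : M • LKQ.mk (tp (MonoidAlgebra B G) (n + 1) (mono1 B G (n + 1) y +
      ∑ i, gasm1 B n (C i).subtype (Subgroup.centralizer (C i : Set G)).subtype
        (cent_comm (C i)) (K1.unit (u i)) (z i))) = 0) :
    ∃ K : ℕ, K ≠ 0 ∧ ∀ l : ℕ, (p : B) ^ (2 * l) ∣ (K : B) *
      ∑ i, ∑ d : C i, HG.ev hφ (trc n c (C i) d (z i)) *
        (((u i : MonoidAlgebra B (C i)) ^ p ^ l - 1).coeff d) := by
  classical
  have hp : p.Prime := Fact.out
  obtain ⟨μ, hμ, hm⟩ := hmeas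
  refine ⟨M.natAbs * μ ^ (n + 2) * p ^ (2 * r), mul_ne_zero (mul_ne_zero
    (Int.natAbs_ne_zero.2 hM) (pow_ne_zero _ hμ)) (pow_ne_zero _ hp.ne_zero), fun l => ?_⟩
  obtain ⟨ψ, β, h1, h2, h3, h4, h5⟩ := hm (2 * l + r + 1)
  obtain ⟨τ, hτ⟩ := exists_tau hp (2 * l + r + 1) r hG hc hpc
  have hc1 : c ≠ 1 := by
    rintro rfl
    rw [orderOf_one] at hpc
    exact hp.one_lt.ne' (Nat.dvd_one.1 hpc)
  choose z' hz' using fun i => HG.mk_surjective (z i)
  obtain ⟨y', hy'⟩ := rb_mono (B := B) y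
  have hX : ofKQ (M • (mono1 B G (n + 1) y +
      ∑ i, gasm1 B n (C i).subtype (Subgroup.centralizer (C i : Set G)).subtype
        (cent_comm (C i)) (K1.unit (u i)) (z i))) =
      QH.mk (M • (ch 1 (push ℤ (scal 1 (grpHom B G)) (n + 1 + 1) y') +
        ∑ i, ch 1 (prUz B (C i) (rb_U (u i))
          (z' i : Cx ℤ (Subgroup.centralizer (C i : Set G)) (n + 1))))) := by
    rw [map_zsmul, map_zsmul, map_add, map_add, map_sum, map_sum, hy']
    congr 2
    refine Finset.sum_congr rfl fun i _ => ?_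
    rw [← hz' i, rb_gasm]
  have hX0 : LKQ.mk (tp (MonoidAlgebra B G) (n + 1) (M • (mono1 B G (n + 1) y +
      ∑ i, gasm1 B n (C i).subtype (Subgroup.centralizer (C i : Set G)).subtype
        (cent_comm (C i)) (K1.unit (u i)) (z i)))) = 0 := by
    rw [map_zsmul, map_zsmul]
    exact h
  have key := relA (2 * l + r + 1) r (by omega) hG hc hpc h1 h2 h3 hτ _ hX0 _ hX
  have hval : ∀ i, TR (p ^ (2 * l + r + 1)) c (phiG ψ τ) (ch 1 (prUz B (C i) (rb_U (u i))
      (z' i : Cx ℤ (Subgroup.centralizer (C i : Set G)) (n + 1)))) =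
      (-1) ^ (n + 1) * ((μ : B) ^ (n + 2) * ∑ d : C i, HG.ev hφ (trc n c (C i) d (z i)) *
        lamQ p (2 * l + r + 1) d (tauC τ c d) (rb_U (u i))) := by
    intro i
    rw [val_unit (C i) (hC i) hπ hφ h1 h4 h5 hτ 1 (rb_U (u i)) (z' i), hz' i]
  rw [map_zsmul, map_add, map_sum, val_mono hc1 h1 hτ 1 y', zero_add,
    Finset.sum_congr rfl fun i _ => hval i, ← Finset.mul_sum, ← Finset.mul_sum,
    zsmul_eq_mul] at key
  choose x y hxy using fun i => rb_log r l hG hpc hφ hτ (C i) (hC i) (u i) (hu i) (z i)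
  refine rb_arith r l M μ n _ _ (∑ i, ∑ d : C i, x i d) (∑ i, ∑ d : C i, y i d) ?_ key
  simp only [Finset.mul_sum, ← Finset.sum_add_distrib]
  refine Finset.sum_congr rfl fun i _ => ?_
  refine Finset.sum_congr rfl fun d _ => ?_
  exact hxy i d

end

end Pool.Agent.H39.KL
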