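import Pool.Agent.H39.KL.RelB
import Pool.Agent.H16.KN.UctF

/-!
# Project KL: the relation of the logarithms over `ℤ`

`Kill p G j W` says that the value of the assembly map on `W : HnKm1 ℤ G j` becomes torsion over some domain `B` of
characteristic zero with `⋂ p ^ a B = 0` in which the natural numbers prime to `p` are invertible (it is proved in another module,
with `B` a localization of the ring of integers of a cyclotomic field).

PROOF of `relC`.  `B`, `M'` from `Kill`.  Apply `LKQ.map (MonoidAlgebra.mapRingHom G (Int.castRingHom B))` to `hrel` and multiply by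
`M'`: the `K₋₁`-part disappears.  `LKQ.map_mk`, `map_tp`, `map_mono1`, `map_assembly1` or `map_gasm1`
(`assembly1 ℤ k G (sy1 F x z) = gasm1 ..`, `asm1_sy1`; `K1.map (K1.unit u) = K1.unit (Units.map u)`, `K1.map_unit`) give the
hypothesis of `relB` with `M * M'`, the units `Units.map u i` of `B[C i]` (`hu`: all coefficients of `u i - 1` are divisible by
`p ^ 2`, so `u i = 1 + p ^ 2 a`) and `y`.
The homomorphism `f : HG .. →+ ℚ` has `p`-integral values, and these are in `B`: `L = FractionRing B` has characteristic zero,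
the image of `(q : ℚ)` in `L` comes from `B` if `¬ p ∣ q.den` (`q.den` is a unit of `B`); so there is `fB : HG .. →+ B` with
`algebraMap B L (fB y) = ((f y : ℚ) : L)`.  `exists_cocycle'` (`KN/UctF.lean`) gives a cocycle `φ` with `HG.ev hφ = fB`;
`exists_pi`, `meas_of_exp` (`KN/Coch.lean`) give `π`, `hmeas`.  `relB` gives `K`.  For every `l` the sum `S` is the image of the
rational number `s = ∑ ∑ f (trc ..) * coeff`, which is `p`-integral, and `p ^ (2 l)` divides `K * S` in `B`: then it divides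
`K * s` in `ℤ_(p)` (write `K * s = p ^ a * s'`, `s'` a unit of `ℤ_(p)` or `s = 0`; `s'` is a unit of `B`; if `a < 2 l` then `p` is a unit
of `B`, which contradicts `hsep` for `b = 1`).  Finally the prime to `p` part of `K` is a unit of `ℤ_(p)`: replace `K` by `p ^ K'`.
-/

set_option autoImplicit false

open Matrix
open scoped LaurentPolynomial

universe u v w

namespace Pool.Agent.H39.KL

open Pool.Agent.H71.FQ Pool.Agent.H16.KN Pool.Agent.H16.FU
open Pool.Agent.H95.WH (K1 K1.unit FamSub FinSub)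

section Aux

variable {p : ℕ}

private theorem nd_add [Fact p.Prime] {a b : ℚ} (ha : ¬ p ∣ a.den) (hb : ¬ p ∣ b.den) : ¬ p ∣ (a + b).den := by
  intro h
  rcases (Nat.Prime.dvd_mul (Fact.out : p.Prime)).1 (h.trans (Rat.add_den_dvd a b)) with h | h
  · exact ha h
  · exact hb h

private theorem nd_mul [Fact p.Prime] {a b : ℚ} (ha : ¬ p ∣ a.den) (hb : ¬ p ∣ b.den) : ¬ p ∣ (a * b).den := by
  intro h
  rcases (Nat.Prime.dvd_mul (Fact.out : p.Prime)).1 (h.trans (Rat.mul_den_dvd a b)) with h | h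
  · exact ha h
  · exact hb h

private theorem nd_int [Fact p.Prime] (n : ℤ) : ¬ p ∣ ((n : ℚ)).den := by
  rw [Rat.den_intCast]
  exact (Fact.out : p.Prime).one_lt.ne' ∘ Nat.dvd_one.1

private theorem nd_sum [Fact p.Prime] {ι : Type*} (s : Finset ι) (f : ι → ℚ) (h : ∀ i ∈ s, ¬ p ∣ (f i).den) :
    ¬ p ∣ (∑ i ∈ s, f i).den := by
  classical
  induction s using Finset.induction_on with
  | empty =>
    rw [Finset.sum_empty]
    exact nd_int 0
  | insert a s ha ih =>
    rw [Finset.sum_insert ha]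
    exact nd_add (h a (Finset.mem_insert_self a s))
      (ih fun i hi => h i (Finset.mem_insert_of_mem hi))

variable {B : Type*} [CommRing B] [IsDomain B] [CharZero B]

/-- divisibility by powers of `p` in `B` and in `ℤ` -/
private theorem dvd_int [Fact p.Prime] (hsep : ∀ b : B, (∀ a : ℕ, (p : B) ^ a ∣ b) → b = 0)
    (hun : ∀ q : ℕ, ¬ p ∣ q → IsUnit (q : B)) (j : ℕ) (n : ℤ) (h : (p : B) ^ j ∣ (n : B)) :
    (p : ℤ) ^ j ∣ n := by
  have hp : p.Prime := Fact.out
  have hpu : ¬ IsUnit (p : B) := by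
    intro hu
    have h1 : (1 : B) = 0 := hsep 1 fun a => (hu.pow a).dvd
    exact one_ne_zero h1
  by_cases hn : n = 0
  · rw [hn]
    exact dvd_zero _
  obtain ⟨v, m, hm, e⟩ := Nat.exists_eq_pow_mul_and_not_dvd (Int.natAbs_ne_zero.2 hn) p hp.ne_one
  by_contra hj
  have hvj : v < j := by
    by_contra hvj
    apply hj
    rw [← Int.natCast_pow, Int.natCast_dvd, e]
    exact Dvd.dvd.mul_right (pow_dvd_pow p (not_lt.1 hvj)) m
  have h2 : (p : B) ^ j ∣ ((n.natAbs : ℕ) : B) := by
    rcases Int.natAbs_eq n with h3 | h3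
    · have h4 : (n : B) = ((n.natAbs : ℕ) : B) := by
        conv_lhs => rw [h3]
        exact Int.cast_natCast _
      rw [← h4]
      exact h
    · have h4 : (n : B) = -((n.natAbs : ℕ) : B) := by
        conv_lhs => rw [h3]
        rw [Int.cast_neg, Int.cast_natCast]
      rw [h4, dvd_neg] at h
      exact h
  rw [e, Nat.cast_mul, Nat.cast_pow] at h2
  obtain ⟨b, hb⟩ := h2
  have hp0 : (p : B) ≠ 0 := Nat.cast_ne_zero.2 hp.ne_zero
  obtain ⟨d, rfl⟩ := Nat.exists_eq_add_of_lt hvj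
  have h5 : (m : B) = (p : B) ^ (d + 1) * b := by
    apply mul_left_cancel₀ (pow_ne_zero v hp0)
    rw [hb, ← mul_assoc, ← pow_add, add_assoc]
  apply hpu
  refine isUnit_of_dvd_unit ?_ (hun m hm)
  rw [h5, pow_succ']
  exact ⟨(p : B) ^ d * b, by ring⟩

/-- `p`-integral rational numbers as elements of `B` -/
private theorem exists_B (hun : ∀ q : ℕ, ¬ p ∣ q → IsUnit (q : B)) (q : ℚ) (hq : ¬ p ∣ q.den) :
    ∃ b : B, algebraMap B (FractionRing B) b = ((q : ℚ) : FractionRing B) := by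
  obtain ⟨u, hu⟩ := hun q.den hq
  refine ⟨(q.num : B) * (u⁻¹ : Bˣ), ?_⟩
  have h0 : ((q.den : ℕ) : FractionRing B) ≠ 0 := Nat.cast_ne_zero.2 q.den_ne_zero
  rw [Rat.cast_def, eq_div_iff h0, map_mul, map_intCast, mul_assoc]
  have h1 : (algebraMap B (FractionRing B)) ((u⁻¹ : Bˣ) : B) * ((q.den : ℕ) : FractionRing B) = 1 := by
    rw [← map_natCast (algebraMap B (FractionRing B)), ← hu, ← map_mul, Units.inv_mul, map_one]
  rw [h1, mul_one]

end Aux

section

/-- the `K₋₁`-part becomes torsion over a `p`-local domain -/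
def Kill (p : ℕ) (G : Type u) [Group G] (j : ℕ) (W : HnKm1 ℤ G j) : Prop :=
  ∃ (B : Type) (_ : CommRing B) (_ : IsDomain B) (_ : CharZero B),
    (∀ b : B, (∀ a : ℕ, (p : B) ^ a ∣ b) → b = 0) ∧ (∀ q : ℕ, ¬ p ∣ q → IsUnit (q : B)) ∧
    ∃ M : ℤ, M ≠ 0 ∧
      M • LKQ.map (MonoidAlgebra.mapRingHom G (Int.castRingHom B)) (asmKm1 ℤ j G W) = 0

variable {G : Type u} [Group G] {k : ℕ}

/-- **The relation of the logarithms over `ℤ`.** -/
theorem relC {p : ℕ} [Fact p.Prime] (r : ℕ)
    (hG : ∀ g : G, (∃ j : ℕ, g ^ p ^ j = 1) → g ^ p ^ r = 1) {c : G} (hc : IsOfFinOrder c)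
    (hpc : p ∣ orderOf c) {ι : Type} [Fintype ι] (C : ι → Subgroup G) [∀ i, Fintype (C i)]
    (hC : ∀ i, ∀ a b : C i, a * b = b * a) (u : ∀ i, (MonoidAlgebra ℤ (C i))ˣ)
    (hu : ∀ i, ∀ d : C i, (p : ℤ) ^ 2 ∣ ((u i : MonoidAlgebra ℤ (C i)) - 1).coeff d)
    (z : ∀ i, HG (Subgroup.centralizer (C i : Set G)) k) (y : HG G (k + 1))
    (W : HnKm1 ℤ G (k + 2)) (hW : Kill p G (k + 2) W) (M : ℤ) (hM : M ≠ 0)
    (hrel : M • asmAll G k (y, ∑ i, sy1 (⟨C i, Finite.of_fintype (C i)⟩ : FamSub G FinSub)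
      (K1.unit (u i)) (z i), W) = 0)
    (f : HG (Subgroup.centralizer ({c} : Set G)) k →+ ℚ) (hf : ∀ y, ¬ p ∣ (f y).den) :
    ∃ K : ℕ, ∀ l : ℕ, ∃ t : ℚ, ¬ p ∣ t.den ∧
      (p : ℚ) ^ K * ∑ i, ∑ d : C i, f (trc k c (C i) d (z i)) *
        ((((u i : MonoidAlgebra ℤ (C i)) ^ p ^ l - 1).coeff d : ℤ) : ℚ) =
      (p : ℚ) ^ (2 * l) * t := by
  classical
  obtain ⟨B, iB, iD, iC, hsep, hun, M', hM', hW'⟩ := hW
  have hp : p.Prime := Fact.out
  -- the homomorphism with values in B
  choose! bB hbB using fun q : ℚ => exists_B (B := B) (p := p) hun q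
  have hinj : Function.Injective (algebraMap B (FractionRing B)) := IsFractionRing.injective B _
  let fB : HG (Subgroup.centralizer ({c} : Set G)) k →+ B :=
    AddMonoidHom.mk' (fun y => bB (f y)) (fun a b => by
      apply hinj
      rw [map_add (algebraMap B (FractionRing B)), hbB _ (hf _), hbB _ (hf _), hbB _ (hf _),
        map_add f, Rat.cast_add])
  have hfB : ∀ y, algebraMap B (FractionRing B) (fB y) = ((f y : ℚ) : FractionRing B) :=
    fun y => hbB _ (hf y)
  obtain ⟨φ, hφ, hev⟩ := exists_cocycle' fB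
  obtain ⟨π, hπ⟩ := exists_pi c
  have hmeas : Meas p c π φ := meas_of_exp hp r hG hc π hπ hφ
  -- the relation over B
  have hrel' : (M * M') • LKQ.mk (tp (MonoidAlgebra B G) (k + 1) (mono1 B G (k + 1) y +
      ∑ i, gasm1 B k (C i).subtype (Subgroup.centralizer (C i : Set G)).subtype
        (cent_comm (C i)) (K1.unit (Units.map (MonoidAlgebra.mapRingHom (C i)
          (Int.castRingHom B)).toMonoidHom (u i))) (z i))) = 0 := by
    have h1 := congrArg (fun x => M' • LKQ.map (MonoidAlgebra.mapRingHom G (Int.castRingHom B)) x)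
      hrel
    simp only [map_zero, smul_zero, map_zsmul] at h1
    have h2 : LKQ.map (MonoidAlgebra.mapRingHom G (Int.castRingHom B))
        (asmAll G k (y, ∑ i, sy1 (⟨C i, Finite.of_fintype (C i)⟩ : FamSub G FinSub)
          (K1.unit (u i)) (z i), W)) =
        LKQ.mk (tp (MonoidAlgebra B G) (k + 1) (mono1 B G (k + 1) y +
          ∑ i, gasm1 B k (C i).subtype (Subgroup.centralizer (C i : Set G)).subtype
            (cent_comm (C i)) (K1.unit (Units.map (MonoidAlgebra.mapRingHom (C i)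
              (Int.castRingHom B)).toMonoidHom (u i))) (z i))) +
        LKQ.map (MonoidAlgebra.mapRingHom G (Int.castRingHom B)) (asmKm1 ℤ (k + 2) G W) := by
      have h3 : asmAll G k (y, ∑ i, sy1 (⟨C i, Finite.of_fintype (C i)⟩ : FamSub G FinSub)
          (K1.unit (u i)) (z i), W) =
          LKQ.mk (tp (MonoidAlgebra ℤ G) (k + 1) (mono1 ℤ G (k + 1) y)) +
          (LKQ.mk (tp (MonoidAlgebra ℤ G) (k + 1) (assembly1 ℤ k G
            (∑ i, sy1 (⟨C i, Finite.of_fintype (C i)⟩ : FamSub G FinSub)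
              (K1.unit (u i)) (z i)))) + asmKm1 ℤ (k + 2) G W) := rfl
      have h4 : KQ.map (MonoidAlgebra.mapRingHom G (Int.castRingHom B)) (assembly1 ℤ k G
            (∑ i, sy1 (⟨C i, Finite.of_fintype (C i)⟩ : FamSub G FinSub)
              (K1.unit (u i)) (z i))) =
          ∑ i, gasm1 B k (C i).subtype (Subgroup.centralizer (C i : Set G)).subtype
            (cent_comm (C i)) (K1.unit (Units.map (MonoidAlgebra.mapRingHom (C i)
              (Int.castRingHom B)).toMonoidHom (u i))) (z i) := by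
        rw [map_sum, map_sum]
        refine Finset.sum_congr rfl fun i _ => ?_
        rw [asm1_sy1, map_gasm1, Pool.Agent.H95.WH.K1.map_unit]
      rw [h3, map_add, map_add, ← add_assoc, LKQ.map_mk, LKQ.map_mk, map_tp, map_tp, map_mono1, h4,
        ← map_add, ← map_add]
    rw [h2, smul_add, smul_add, smul_comm M' M (LKQ.map _ _), hW', smul_zero, add_zero,
      ← mul_smul, mul_comm M' M] at h1
    exact h1
  have hu' : ∀ i, ∃ a : MonoidAlgebra B (C i),
      ((Units.map (MonoidAlgebra.mapRingHom (C i) (Int.castRingHom B)).toMonoidHom (u i) :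
        (MonoidAlgebra B (C i))ˣ) : MonoidAlgebra B (C i)) = 1 + ((p : B) ^ 2) • a := by
    intro i
    choose a ha using hu i
    refine ⟨MonoidAlgebra.ofCoeff (Finsupp.equivFunOnFinite.symm fun d => ((a d : ℤ) : B)), ?_⟩
    have h1 : (u i : MonoidAlgebra ℤ (C i)) = 1 + ((u i : MonoidAlgebra ℤ (C i)) - 1) := by
      rw [add_sub_cancel]
    show MonoidAlgebra.mapRingHom (C i) (Int.castRingHom B) (u i : MonoidAlgebra ℤ (C i)) = _
    rw [h1, map_add, map_one]
    congr 1
    apply MonoidAlgebra.ext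
    refine Finsupp.ext fun d => ?_
    rw [MonoidAlgebra.coeff_mapRingHom, ha d, MonoidAlgebra.coeff_smul_apply, smul_eq_mul]
    show ((((p : ℤ) ^ 2 * a d : ℤ)) : B) = (p : B) ^ 2 * ((a d : ℤ) : B)
    push_cast
    rfl
  obtain ⟨K, hK, hdvd⟩ := relB r hG hc hpc hπ hφ hmeas C hC
    (fun i => Units.map (MonoidAlgebra.mapRingHom (C i) (Int.castRingHom B)).toMonoidHom (u i))
    hu' z y (M * M') (mul_ne_zero hM hM') hrel'
  obtain ⟨a, K0, hK0, eK⟩ := Nat.exists_eq_pow_mul_and_not_dvd hK p hp.ne_one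
  refine ⟨a, fun l => ?_⟩
  set s : ℚ := ∑ i, ∑ d : C i, f (trc k c (C i) d (z i)) *
        ((((u i : MonoidAlgebra ℤ (C i)) ^ p ^ l - 1).coeff d : ℤ) : ℚ) with hs
  have hsd : ¬ p ∣ s.den := nd_sum _ _ fun i _ => nd_sum _ _ fun d _ => nd_mul (hf _) (nd_int _)
  have h1 := hdvd l
  set S : B := ∑ i, ∑ d : C i, HG.ev hφ (trc k c (C i) d (z i)) *
        ((((Units.map (MonoidAlgebra.mapRingHom (C i) (Int.castRingHom B)).toMonoidHom (u i) :
          (MonoidAlgebra B (C i))ˣ) : MonoidAlgebra B (C i)) ^ p ^ l - 1).coeff d) with hS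
  have h2 : algebraMap B (FractionRing B) S = ((s : ℚ) : FractionRing B) := by
    rw [hS, hs, map_sum, Rat.cast_sum]
    refine Finset.sum_congr rfl fun i _ => ?_
    rw [map_sum, Rat.cast_sum]
    refine Finset.sum_congr rfl fun d _ => ?_
    have h3 : (((Units.map (MonoidAlgebra.mapRingHom (C i) (Int.castRingHom B)).toMonoidHom (u i) :
          (MonoidAlgebra B (C i))ˣ) : MonoidAlgebra B (C i)) ^ p ^ l - 1) =
        MonoidAlgebra.mapRingHom (C i) (Int.castRingHom B)
          ((u i : MonoidAlgebra ℤ (C i)) ^ p ^ l - 1) := by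
      rw [map_sub, map_pow, map_one]
      rfl
    rw [map_mul, hev, hfB, h3, MonoidAlgebra.coeff_mapRingHom, Rat.cast_mul, eq_intCast, map_intCast,
      Rat.cast_intCast]
  have h3 : S * ((s.den : ℕ) : B) = ((s.num : ℤ) : B) := by
    apply hinj
    rw [map_mul, h2, map_natCast, map_intCast, Rat.cast_def,
      div_mul_cancel₀ _ (Nat.cast_ne_zero.2 s.den_ne_zero)]
  have h4 : (p : B) ^ (2 * l) ∣ (((K : ℤ) * s.num : ℤ) : B) := by
    rw [Int.cast_mul, ← h3, Int.cast_natCast, ← mul_assoc]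
    exact Dvd.dvd.mul_right h1 _
  have h5 := dvd_int hsep hun _ _ h4
  have h6 : (p : ℤ) ^ (2 * l) ∣ (p : ℤ) ^ a * s.num := by
    have h7 : IsCoprime ((p : ℤ) ^ (2 * l)) (K0 : ℤ) := by
      apply IsCoprime.pow_left
      rw [Nat.isCoprime_iff_coprime]
      exact (Nat.Prime.coprime_iff_not_dvd hp).2 hK0
    apply h7.dvd_of_dvd_mul_left
    have h8 : (K0 : ℤ) * ((p : ℤ) ^ a * s.num) = (K : ℤ) * s.num := by
      rw [eK]
      push_cast
      ring
    rw [h8]
    exact h5
  obtain ⟨T, hT⟩ := h6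
  refine ⟨(T : ℚ) / s.den, ?_, ?_⟩
  · intro h
    apply hsd
    refine h.trans ?_
    have h9 : ((T : ℚ) / s.den) = ((T : ℚ) / ((s.den : ℤ) : ℚ)) := by
      rw [Int.cast_natCast]
    rw [h9]
    have := Rat.den_dvd T s.den
    exact_mod_cast this
  · have h10 : (s.den : ℚ) ≠ 0 := Nat.cast_ne_zero.2 s.den_ne_zero
    rw [← mul_div_assoc, eq_div_iff h10, mul_assoc, Rat.mul_den_eq_num]
    exact_mod_cast hT


end

end Pool.Agent.H39.KL
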