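import Pool.Agent.H16.KN.TTc

/-!
# Project KL: the trace cochains on tuples of a special form

`TT_congr`: the value depends only on the values of the cochain on the vertices of the words with non-zero coefficients.
`TT_dup`: tuples with repeated vertices.

PROOFS.  `TT_congr`: `TM_eq` for both (with a finite set `S` containing all supports, `exists_supp`): in each term either a
coefficient matrix is zero, or `wv_eq` / `wv_zero` and the hypothesis.
`TT_dup`: let `δ` be a strictly monotone section of `s` (the least element of each fibre); by `TT_congr`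
`φ v = φ (v ∘ δ ∘ s)` on the vertices of the words with non-zero coefficients (the letters inside a fibre are `1`, whose
only non-zero coefficient is at `1`); then `TT_comp` for `δ`.
-/

set_option autoImplicit false

open Matrix

universe u v w

namespace Pool.Agent.H39.KL

open Pool.Agent.H71.FQ Pool.Agent.H16.KN

section

variable {G : Type u} [Group G] {B : Type v} [CommRing B] {K : ℕ} [NeZero K]

/-- **The value depends only on the words with non-zero coefficients.** -/
theorem TT_congr {c : G} {φ ψ : (Fin K → G) → B} (hφ : CI c φ) (hψ : CI c ψ) {N : ℕ}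
    (x : Fin K → GLm N (MonoidAlgebra B G))
    (h : ∀ (g : Fin K → G) (u : G), (∀ j, cof (lts x j) (g j) ≠ 0) →
      u * (List.ofFn g).prod * u⁻¹ = c → φ (vtx u g) = ψ (vtx u g)) :
    TT c φ x = TT c ψ x := by
  classical
  obtain ⟨S, hS⟩ := exists_supp (lts x)
  unfold TT
  rw [TM_eq hφ (lts x) S hS, TM_eq hψ (lts x) S hS]
  refine Finset.sum_congr rfl fun g _ => ?_
  by_cases hg : ∀ j, cof (lts x j) (g j : G) ≠ 0
  · congr 1
    by_cases hu : ∃ u : G, u * (List.ofFn fun j => (g j : G)).prod * u⁻¹ = c
    · obtain ⟨u, hu⟩ := hu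
      rw [wv_eq hφ _ u hu, wv_eq hψ _ u hu]
      exact h _ u hg hu
    · rw [wv_zero c φ _ fun u h' => hu ⟨u, h'⟩, wv_zero c ψ _ fun u h' => hu ⟨u, h'⟩]
  · push Not at hg
    obtain ⟨j, hj⟩ := hg
    have h0 : (List.ofFn fun j => cof (lts x j) (g j : G)).prod = 0 := by
      refine List.prod_eq_zero ?_
      rw [List.mem_ofFn]
      exact ⟨j, hj⟩
    rw [h0, Matrix.trace_zero, zero_mul, zero_mul]

omit [Group G] [NeZero K] in
private theorem cof_one [Group G] {N : ℕ} {g : G}
    (h : cof (1 : Matrix (Fin N) (Fin N) (MonoidAlgebra B G)) g ≠ 0) : g = 1 := by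
  classical
  by_contra hg
  apply h
  ext i j
  show ((1 : Matrix (Fin N) (Fin N) (MonoidAlgebra B G)) i j).coeff g = 0
  by_cases hij : i = j
  · subst hij
    rw [Matrix.one_apply_eq, MonoidAlgebra.one_def, MonoidAlgebra.coeff_single,
      Finsupp.single_eq_of_ne hg]
  · rw [Matrix.one_apply_ne hij]
    rfl

private theorem take_prod {G : Type u} [Group G] {n : ℕ} (g : Fin n → G) (a b : ℕ) (hab : a ≤ b)
    (hb : b ≤ n) (h : ∀ t : Fin n, a ≤ (t : ℕ) → (t : ℕ) < b → g t = 1) :
    ((List.ofFn g).take a).prod = ((List.ofFn g).take b).prod := by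
  induction b with
  | zero =>
    obtain rfl : a = 0 := Nat.le_zero.1 hab
    rfl
  | succ b ih =>
    rcases Nat.eq_or_lt_of_le hab with h1 | h1
    · rw [h1]
    · rw [ih (Nat.lt_succ_iff.1 h1) (by omega) fun t h2 h3 => h t h2 (by omega)]
      have hbl : b < (List.ofFn g).length := by rw [List.length_ofFn]; omega
      rw [List.take_succ_eq_append_getElem hbl, List.prod_append, List.prod_singleton,
        List.getElem_ofFn, h ⟨b, by omega⟩ (Nat.lt_succ_iff.1 h1) (Nat.lt_succ_self b), mul_one]

private theorem val_add_one' {n : ℕ} [NeZero n] (t : Fin n) (h : (t : ℕ) + 1 < n) :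
    ((t + 1 : Fin n) : ℕ) = (t : ℕ) + 1 := by
  rw [Fin.val_add, Fin.val_one', Nat.mod_eq_of_lt (by omega : 1 < n), Nat.mod_eq_of_lt h]

/-- **Repeated vertices.** -/
theorem TT_dup {K' : ℕ} [NeZero K'] {c : G} {φ : (Fin K' → G) → B} (hφ : CI c φ)
    (s : Fin K' → Fin K) (hs : Monotone s) (hs' : Function.Surjective s) {N : ℕ}
    (x : Fin K → GLm N (MonoidAlgebra B G)) :
    TT c φ (fun t => x (s t)) = TT c (fun v : Fin K → G => φ fun t => v (s t)) x := by
  have hδ : ∀ i, s (Function.surjInv hs' i) = i := Function.surjInv_eq hs'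
  have hmono : StrictMono (Function.surjInv hs') := by
    intro i i' h
    by_contra h1
    have h2 := hs (not_lt.1 h1)
    rw [hδ, hδ] at h2
    exact absurd h (not_lt.2 h2)
  have hφ' : CI c (fun v : Fin K → G => φ fun t => v (s t)) := fun g hg v =>
    hφ g hg fun t => v (s t)
  have hψ : CI c (fun v : Fin K' → G => φ fun t => v (Function.surjInv hs' (s t))) :=
    fun g hg v => hφ g hg fun t => v (Function.surjInv hs' (s t))
  have key : ∀ (g : Fin K' → G) (u : G),
      (∀ j, cof (lts (fun t => x (s t)) j) (g j) ≠ 0) →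
      ∀ a b : Fin K', a ≤ b → s a = s b → vtx u g a = vtx u g b := by
    intro g u hg a b hab hsab
    unfold vtx
    congr 1
    refine take_prod g a b hab b.2.le ?_
    intro t hat htb
    have h1 : (t : ℕ) + 1 < K' := by omega
    have h2 : s t = s a := by
      refine le_antisymm ?_ (hs (Fin.le_def.2 hat))
      rw [hsab]
      exact hs (Fin.le_def.2 htb.le)
    have h3 : s (t + 1) = s a := by
      refine le_antisymm ?_ (hs (Fin.le_def.2 ?_))
      · rw [hsab]
        refine hs (Fin.le_def.2 ?_)
        rw [val_add_one' t h1]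
        exact htb
      · rw [val_add_one' t h1]
        omega
    have h4 : lts (fun t => x (s t)) t = (1 : Matrix (Fin N) (Fin N) (MonoidAlgebra B G)) := by
      unfold lts
      beta_reduce
      rw [h2, h3, inv_mul_cancel]
      rfl
    have h5 := hg t
    rw [h4] at h5
    exact cof_one h5
  have h1 : TT c φ (fun t => x (s t)) =
      TT c (fun v : Fin K' → G => φ fun t => v (Function.surjInv hs' (s t)))
        (fun t => x (s t)) := by
    refine TT_congr hφ hψ _ ?_
    intro g u hg _
    congr 1
    funext t
    have h2 : s (Function.surjInv hs' (s t)) = s t := hδ (s t)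
    rcases le_total t (Function.surjInv hs' (s t)) with h3 | h3
    · exact key g u hg t _ h3 h2.symm
    · exact (key g u hg _ t h3 h2).symm
  rw [h1]
  have h2 := TT_comp hφ' (Function.surjInv hs') hmono (fun t => x (s t))
  refine h2.trans ?_
  congr 1
  funext j
  rw [hδ]

end

end Pool.Agent.H39.KL
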