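import Pool.Agent.H71.FQ.Nu

/-!
# Project KL: the position of a tuple in its rotation orbit

`c` of finite order divisible by `p`, the `p`-power torsion of `G` of exponent `p ^ r`, `q = p ^ m`.  `IsTau p m r c τ`:
`τ` is a function on the tuples `Fin q → G` with values in `ZMod q`, invariant under the left multiplications by the
centralizer of `c`, and the rotation `sig q c` adds `p ^ r`.

PROOF of `exists_tau`.  Let `Z` be the centralizer of `c` (acting by `lmul`) and `σ = sig q c`, a bijection commuting with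
it, `σ^[q] = lmul c`.  Choose a representative `ρ` of each orbit of `Z × ⟨σ⟩` (e.g. of the quotient by the setoid
`∃ z ∈ Z, ∃ j : ℕ, w = lmul z (σ^[j] v)`; `j : ℕ` is enough because `σ^[q]` is `lmul c`), and put `τ v = p ^ r * j` if
`v = lmul z (σ^[j] ρ)`.  Well defined: if `lmul z (σ^[j] ρ) = lmul z' (σ^[j'] ρ)` with `j ≤ j'` then
`σ^[j' - j] ρ = lmul z'' ρ`, `z'' ∈ Z` (`σ` injective, commutes with `lmul`), and `stab_dvd` gives
`p ^ m ∣ p ^ r * (j' - j)`.

PROOF of `stab_dvd`.  Let `σ^[k] v = lmul z v` and suppose `p ^ m ∤ p ^ r * k`; so `r ≤ m` fails or the `p`-adic valuation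
`a` of `k` is `< m - r`; anyway `k = p ^ a * k'`, `p ∤ k'`, `a + r < m`.  Iterating, `σ^[k j] v = lmul (z ^ j) v`.  Choose
`j` with `k j ≡ p ^ a (mod q)` (`k'` is a unit mod `q`); `σ^[q] = lmul c` is central: so `σ^[p ^ a] v = lmul w v` with
`w ∈ Z`, `w = z ^ j * c ^ (-t)`.  Iterating `p ^ (m - a)` times: `lmul c v = lmul (w ^ p ^ (m - a)) v`, so
`c = w ^ p ^ (m - a)`.  Then `w` has finite order divisible by `p ^ (m - a + 1)` (`p ∣ orderOf c`), so `G` contains an
element of order `p ^ (m - a + 1)`, hence `m - a + 1 ≤ r` by `hG`: contradiction to `a + r < m`.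
-/

set_option autoImplicit false

universe u

namespace Pool.Agent.H39.KL

open Pool.Agent.H71.FQ

section

variable {G : Type u} [Group G]

/-- the position in the rotation orbit, times `p ^ r` -/
structure IsTau (p m r : ℕ) (c : G) (τ : (Fin (p ^ m) → G) → ZMod (p ^ m)) : Prop where
  inv : ∀ z : G, z * c = c * z → ∀ v, τ (lmul z v) = τ v
  rot : ∀ v, τ (sig (p ^ m) c v) = τ v + (p : ZMod (p ^ m)) ^ r

private theorem lmul_lmul {q : ℕ} (g h : G) (v : Fin q → G) : lmul g (lmul h v) = lmul (g * h) v :=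
  funext fun t => (mul_assoc g h (v t)).symm

private theorem lmul_one {q : ℕ} (v : Fin q → G) : lmul (1 : G) v = v :=
  funext fun t => one_mul (v t)

private theorem lmul_inj {q : ℕ} (hq : 0 < q) {g h : G} {v : Fin q → G} (e : lmul g v = lmul h v) : g = h :=
  mul_right_cancel (show g * v ⟨0, hq⟩ = h * v ⟨0, hq⟩ from congrFun e ⟨0, hq⟩)

private theorem iter_lmul {q : ℕ} {c g : G} (h : g * c = c * g) (n : ℕ) (v : Fin q → G) :
    (sig q c)^[n] (lmul g v) = lmul g ((sig q c)^[n] v) := by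
  induction n with
  | zero => rfl
  | succ n ih => rw [Function.iterate_succ_apply', ih, sig_lmul c g h, Function.iterate_succ_apply']

private theorem pow_comm_of {c g : G} (h : g * c = c * g) (j : ℕ) : g ^ j * c = c * g ^ j :=
  (Commute.pow_left (show Commute g c from h) j).eq

private theorem iter_pow {q : ℕ} {c g : G} (h : g * c = c * g) {n : ℕ} {v : Fin q → G}
    (e : (sig q c)^[n] v = lmul g v) (j : ℕ) : (sig q c)^[n * j] v = lmul (g ^ j) v := by
  induction j with
  | zero => rw [pow_zero, lmul_one]; rfl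
  | succ j ih =>
    rw [show n * (j + 1) = n + n * j by ring, Function.iterate_add_apply, ih, iter_lmul (pow_comm_of h j), e,
      lmul_lmul, pow_succ]

private theorem iter_q {q : ℕ} (c : G) (v : Fin q → G) (t : ℕ) : (sig q c)^[q * t] v = lmul (c ^ t) v :=
  iter_pow rfl (sig_iterate q c v) t

theorem stab_dvd {p : ℕ} (hp : p.Prime) (m r : ℕ)
    (hG : ∀ g : G, (∃ j : ℕ, g ^ p ^ j = 1) → g ^ p ^ r = 1) {c : G} (hc : IsOfFinOrder c)
    (hpc : p ∣ orderOf c) {z : G} (hz : z * c = c * z) {k : ℕ} {v : Fin (p ^ m) → G}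
    (h : (sig (p ^ m) c)^[k] v = lmul z v) : p ^ m ∣ p ^ r * k := by
  rcases Nat.eq_zero_or_pos k with hk | hk
  · subst hk
    exact dvd_zero _
  by_contra hcon
  obtain ⟨a, k', hk', hkk⟩ := Nat.exists_eq_pow_mul_and_not_dvd hk.ne' p hp.ne_one
  have har : a + r < m := by
    by_contra h1
    apply hcon
    rw [hkk, ← mul_assoc, ← pow_add]
    exact Dvd.dvd.mul_right (pow_dvd_pow p (by omega)) _
  have hq : 0 < p ^ m := Nat.pow_pos hp.pos
  -- the inverse of `k'` modulo `q`
  obtain ⟨j, t, hj⟩ : ∃ j t : ℕ, k' * j = 1 + p ^ m * t := by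
    have hco : Nat.Coprime k' (p ^ m) := (Nat.Coprime.pow_right m ((hp.coprime_iff_not_dvd.2 hk').symm))
    obtain ⟨j, -, hj⟩ := Nat.exists_mul_mod_eq_one_of_coprime hco (Nat.one_lt_pow (by omega) hp.one_lt)
    exact ⟨j, k' * j / p ^ m, by have := Nat.mod_add_div (k' * j) (p ^ m); omega⟩
  have hkj : k * j = p ^ a + p ^ m * (p ^ a * t) := by
    rw [hkk, mul_assoc, hj]
    ring
  have h1 := iter_pow hz h j
  have hcz : z ^ j * c = c * z ^ j := pow_comm_of hz j
  rw [hkj, add_comm, Function.iterate_add_apply, iter_q] at h1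
  -- `σ ^ (p ^ a) v = w v`
  have h2 : (sig (p ^ m) c)^[p ^ a] v = lmul ((c ^ (p ^ a * t))⁻¹ * z ^ j) v := by
    rw [← lmul_lmul, ← h1, lmul_lmul, inv_mul_cancel, lmul_one]
  have hw : ((c ^ (p ^ a * t))⁻¹ * z ^ j) * c = c * ((c ^ (p ^ a * t))⁻¹ * z ^ j) :=
    (Commute.mul_left (((Commute.refl c).pow_left (p ^ a * t)).inv_left) (show Commute (z ^ j) c from hcz)).eq
  generalize (c ^ (p ^ a * t))⁻¹ * z ^ j = w at h2 hw
  have h3 := iter_pow hw h2 (p ^ (m - a))
  rw [← pow_add, show a + (m - a) = m by omega, sig_iterate] at h3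
  have h4 : c = w ^ p ^ (m - a) := lmul_inj hq h3
  have hwf : IsOfFinOrder w := by
    rw [h4] at hc
    exact (isOfFinOrder_pow.1 hc).resolve_right (pow_pos hp.pos _).ne'
  obtain ⟨e, s, hs, hes⟩ := Nat.exists_eq_pow_mul_and_not_dvd hwf.orderOf_pos.ne' p hp.ne_one
  have h5 : (w ^ s) ^ p ^ e = 1 := by
    rw [← pow_mul, mul_comm, ← hes, pow_orderOf_eq_one]
  have h6 : (w ^ s) ^ p ^ r = 1 := hG _ ⟨e, h5⟩
  have h7 : c ^ s = 1 := by
    rw [h4, ← pow_mul, mul_comm, pow_mul, show m - a = r + (m - a - r) by omega, pow_add, pow_mul, h6, one_pow]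
  exact hs (hpc.trans (orderOf_dvd_of_pow_eq_one h7))

/-- the orbits of the centralizer and the rotation -/
private def orb {q : ℕ} (hq : 0 < q) (c : G) : Setoid (Fin q → G) where
  r w v := ∃ z : G, z * c = c * z ∧ ∃ j : ℕ, w = lmul z ((sig q c)^[j] v)
  iseqv := by
    refine ⟨fun v => ⟨1, by simp, 0, (lmul_one v).symm⟩, ?_, ?_⟩
    · rintro w v ⟨z, hz, j, rfl⟩
      have hz' : (z * c ^ j) * c = c * (z * c ^ j) :=
        (Commute.mul_left (show Commute z c from hz) ((Commute.refl c).pow_left j)).eq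
      refine ⟨(z * c ^ j)⁻¹, (Commute.inv_left (show Commute (z * c ^ j) c from hz')).eq, q * j - j, ?_⟩
      rw [iter_lmul hz, ← Function.iterate_add_apply,
        Nat.sub_add_cancel (Nat.le_mul_of_pos_left j hq), iter_q, lmul_lmul z, lmul_lmul, inv_mul_cancel, lmul_one]
    · rintro u w v ⟨z, hz, j, rfl⟩ ⟨z', hz', j', rfl⟩
      refine ⟨z * z', (Commute.mul_left (show Commute z c from hz) (show Commute z' c from hz')).eq, j + j', ?_⟩
      rw [iter_lmul hz', lmul_lmul, ← Function.iterate_add_apply]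

theorem exists_tau {p : ℕ} (hp : p.Prime) (m r : ℕ)
    (hG : ∀ g : G, (∃ j : ℕ, g ^ p ^ j = 1) → g ^ p ^ r = 1) {c : G} (hc : IsOfFinOrder c)
    (hpc : p ∣ orderOf c) : ∃ τ : (Fin (p ^ m) → G) → ZMod (p ^ m), IsTau p m r c τ := by
  classical
  have hq : 0 < p ^ m := Nat.pow_pos hp.pos
  have hinj : ∀ j : ℕ, Function.Injective ((sig (p ^ m) c)^[j]) := fun j =>
    Function.Injective.iterate (sig_bijective (p ^ m) c).1 j
  -- well definedness
  have hwd1 : ∀ (ρ : Fin (p ^ m) → G) (z z' : G), z * c = c * z → z' * c = c * z' → ∀ j j' : ℕ, j ≤ j' →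
      lmul z ((sig (p ^ m) c)^[j] ρ) = lmul z' ((sig (p ^ m) c)^[j'] ρ) →
      (p : ZMod (p ^ m)) ^ r * (j : ZMod (p ^ m)) = (p : ZMod (p ^ m)) ^ r * (j' : ZMod (p ^ m)) := by
    intro ρ z z' hz hz' j j' hjj e
    obtain ⟨d, rfl⟩ := Nat.exists_eq_add_of_le hjj
    rw [Function.iterate_add_apply, ← iter_lmul hz, ← iter_lmul hz'] at e
    have e1 := hinj j e
    have hzz : (z'⁻¹ * z) * c = c * (z'⁻¹ * z) :=
      (Commute.mul_left (Commute.inv_left (show Commute z' c from hz')) (show Commute z c from hz)).eq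
    have e2 : (sig (p ^ m) c)^[d] ρ = lmul (z'⁻¹ * z) ρ := by
      rw [← lmul_lmul, e1, lmul_lmul, inv_mul_cancel, lmul_one]
    have e3 : ((p ^ r * d : ℕ) : ZMod (p ^ m)) = 0 :=
      (ZMod.natCast_eq_zero_iff _ _).2 (stab_dvd hp m r hG hc hpc hzz e2)
    push_cast at e3 ⊢
    rw [mul_add, e3, add_zero]
  have hwd : ∀ (ρ : Fin (p ^ m) → G) (z z' : G), z * c = c * z → z' * c = c * z' → ∀ j j' : ℕ,
      lmul z ((sig (p ^ m) c)^[j] ρ) = lmul z' ((sig (p ^ m) c)^[j'] ρ) →
      (p : ZMod (p ^ m)) ^ r * (j : ZMod (p ^ m)) = (p : ZMod (p ^ m)) ^ r * (j' : ZMod (p ^ m)) := by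
    intro ρ z z' hz hz' j j' e
    rcases le_total j j' with h | h
    · exact hwd1 ρ z z' hz hz' j j' h e
    · exact (hwd1 ρ z' z hz' hz j' j h e.symm).symm
  have hrep : ∀ v : Fin (p ^ m) → G, ∃ z : G, z * c = c * z ∧ ∃ j : ℕ,
      v = lmul z ((sig (p ^ m) c)^[j] (Quotient.out (Quotient.mk (orb hq c) v))) := fun v =>
    (orb hq c).symm (Quotient.exact (Quotient.out_eq (Quotient.mk (orb hq c) v)))
  choose zz hzz jj hjj using hrep
  -- the value can be computed with any expression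
  have key : ∀ (v w : Fin (p ^ m) → G) (z : G) (j : ℕ), z * c = c * z → w = lmul z ((sig (p ^ m) c)^[j] v) →
      (p : ZMod (p ^ m)) ^ r * (jj w : ZMod (p ^ m)) =
        (p : ZMod (p ^ m)) ^ r * (jj v : ZMod (p ^ m)) + (p : ZMod (p ^ m)) ^ r * (j : ZMod (p ^ m)) := by
    intro v w z j hz e
    have e1 : Quotient.mk (orb hq c) w = Quotient.mk (orb hq c) v := Quotient.sound ⟨z, hz, j, e⟩
    have e2 := hjj w
    rw [e1] at e2
    have e3 := hjj v
    have e4 : w = lmul (z * zz v) ((sig (p ^ m) c)^[j + jj v] (Quotient.out (Quotient.mk (orb hq c) v))) := by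
      rw [Function.iterate_add_apply, ← lmul_lmul, ← iter_lmul (hzz v), ← e3]
      exact e
    have e5 := hwd _ _ _ (hzz w)
      (Commute.mul_left (show Commute z c from hz) (show Commute (zz v) c from hzz v)).eq _ _ (e2.symm.trans e4)
    rw [e5]
    push_cast
    ring
  refine ⟨fun v => (p : ZMod (p ^ m)) ^ r * (jj v : ZMod (p ^ m)), ⟨?_, ?_⟩⟩
  · intro z hz v
    have := key v (lmul z v) z 0 hz rfl
    rw [Nat.cast_zero, mul_zero, add_zero] at this
    exact this
  · intro v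
    have := key v (sig (p ^ m) c v) 1 1 (by simp) (by rw [lmul_one]; rfl)
    rw [Nat.cast_one, mul_one] at this
    exact this

/-- transport to a subgroup: `f : C → G` a homomorphism, `u f(d) u⁻¹ = c` -/
theorem IsTau.comp {p m r : ℕ} {c : G} {τ : (Fin (p ^ m) → G) → ZMod (p ^ m)} (hτ : IsTau p m r c τ)
    {C : Type*} [Group C] (f : C →* G) (u : G) (d : C) (hu : u * f d * u⁻¹ = c) :
    IsTau p m r d fun v => τ fun b => u * f (v b) := by
  constructor
  · intro z hz v
    have h1 : (u * f z * u⁻¹) * c = c * (u * f z * u⁻¹) := by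
      have h2 : f z * f d = f d * f z := by rw [← map_mul, hz, map_mul]
      rw [← hu]
      calc u * f z * u⁻¹ * (u * f d * u⁻¹) = u * (f z * f d) * u⁻¹ := by group
        _ = u * (f d * f z) * u⁻¹ := by rw [h2]
        _ = u * f d * u⁻¹ * (u * f z * u⁻¹) := by group
    have h3 := hτ.inv _ h1 fun b => u * f (v b)
    rw [← h3]
    congr 1
    funext b
    show u * f (z * v b) = u * f z * u⁻¹ * (u * f (v b))
    rw [map_mul]
    group
  · intro v
    have h3 := hτ.rot fun b => u * f (v b)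
    show τ (fun b => u * f (sig (p ^ m) d v b)) = _
    rw [← h3]
    congr 1
    funext b
    unfold sig
    by_cases hb : (b : ℕ) + 1 < p ^ m
    · rw [dif_pos hb, dif_pos hb]
    · rw [dif_neg hb, dif_neg hb, map_mul, ← hu]
      group

end

end Pool.Agent.H39.KL
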