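import Pool.Agent.H16.KN.J2
import Pool.Agent.H16.KN.Chn
import Pool.Agent.H16.KN.UctF
import Pool.Agent.H71.DB.Elim

/-!
# Project KL: the part `H_{n+1}(G; ℤ)`

If a multiple of the class of the product of `y ∈ H_{n+1}(G)` with `t` vanishes in `LKQ (L[G]) (n + 1)` for a field `L` of
characteristic zero then `y` has finite order.
-/

set_option autoImplicit false

open Matrix
open scoped LaurentPolynomial

universe u v w

namespace Pool.Agent.H39.KL

open Pool.Agent.H71.FQ Pool.Agent.H16.KN Pool.Agent.H16.FU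
open Pool.Agent.H95.KM (posHom negHom)

section

variable {G : Type u} [Group G] {n : ℕ} {L : Type} [Field L] [CharZero L]

private theorem fL_zero {B : Type} [CommRing B] {c : G} {π : G → Subgroup.centralizer ({c} : Set G)}
    {φ : (Fin (n + 2) → Subgroup.centralizer ({c} : Set G)) → B}
    (v : Fin (n + 3) → G × Multiplicative ℤ) (hv : ∀ i j, dg (v i) = dg (v j)) :
    fL π φ v = 0 := by
  unfold fL pL ldg
  rw [hv (Fin.last (n + 2)) (Fin.last (n + 1)).castSucc, sub_self, Int.cast_zero, mul_zero]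

/-- **The part `H_{n+1}(G; ℤ)`.** -/
theorem y_tor (y : HG G n) (M : ℤ) (hM : M ≠ 0)
    (h : M • LKQ.mk (tp (MonoidAlgebra L G) n (mono1 L G n y)) = 0) :
    ∃ m : ℤ, m ≠ 0 ∧ m • y = 0 := by
  by_contra hcon
  push Not at hcon
  obtain ⟨f, hf⟩ := Pool.Agent.H71.DB.exists_hom_rat y hcon
  obtain ⟨y', rfl⟩ := HG.mk_surjective y
  let sub : Subgroup.centralizer ({1} : Set G) →* G := Subgroup.subtype _
  let F : HG (Subgroup.centralizer ({1} : Set G)) n →+ L :=
    (((algebraMap ℚ L : ℚ →+* L) : ℚ →+ L).comp f).comp (HG.map n sub)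
  obtain ⟨φ, hφ, hev⟩ := exists_cocycle' F
  obtain ⟨π, hπ⟩ := exists_pi (1 : G)
  have h1 : LKQ.mk (M • tp (MonoidAlgebra L G) n (mono1 L G n (HG.mk y'))) = 0 := by
    rw [map_zsmul]
    exact h
  obtain ⟨a, b, hab⟩ := LKQ.mk_eq_zero_iff.1 h1
  obtain ⟨a', ha', ea⟩ := map_pos_mem (B := L) (G := G) a
  obtain ⟨b', hb', eb⟩ := map_neg_mem (B := L) (G := G) b
  have h2 := congrArg (fun x => ofKQ (KQ.map (gz L (MonoidHom.id G)) x)) hab
  simp only [map_add, map_zsmul] at h2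
  rw [ea, eb, ofKQ_tp_mono1, ← map_add, ← map_zsmul, ← sub_eq_zero, ← map_sub] at h2
  obtain ⟨v, hv⟩ := QH.mk_eq_zero.1 h2
  have h3 := congrArg (TQ ((1, 1) : G × Multiplicative ℤ) (fL π φ)) hv
  rw [TQ_fL_bd hπ hφ, map_sub, map_add, map_zsmul,
    TQ_half (CI_fL hπ hφ.1) fL_zero ha', TQ_half (CI_fL hπ hφ.1) fL_zero hb', TQ_yt hπ hφ,
    hev, zero_add, zero_sub, eq_comm, neg_eq_zero] at h3
  have h4 : F (HG.map n (toC1 G) (HG.mk y')) = ((f (HG.mk y') : ℚ) : L) := by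
    change algebraMap ℚ L (f (HG.map n sub (HG.map n (toC1 G) (HG.mk y')))) = _
    rw [HG.map_map]
    have e : sub.comp (toC1 G) = MonoidHom.id G := MonoidHom.ext fun g => rfl
    rw [e, HG.map_id]
    rfl
  rw [h4, zsmul_eq_mul, zsmul_eq_mul] at h3
  have hM' : (M : L) ≠ 0 := Int.cast_ne_zero.2 hM
  have hs : (((-1 : ℤ) ^ (n + 1) : ℤ) : L) ≠ 0 :=
    Int.cast_ne_zero.2 (pow_ne_zero _ (by decide))
  rcases mul_eq_zero.1 h3 with h5 | h5
  · exact hM' h5
  · rcases mul_eq_zero.1 h5 with h6 | h6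
    · exact hs h6
    · exact hf (Rat.cast_eq_zero.1 h6)

end

end Pool.Agent.H39.KL
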